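import Pool.Agent.Lib.MP_5d7b92_nt.UA.Defs

/-!
# Me: Mertens' second theorem (bounded form), size of cW and of P1

PROOFS. `mertens_two`: `Sieve.Mertens3.mertens_three`: log z ∏_{p ≤ z} (1 - 1/p) → e^{-γ} > 0, so |log log z + ∑_{p ≤ z} log(1 - 1/p)| is bounded for z ≥ 3
(take logarithms; `Real.log_prod`; continuity of log), and 1/p ≤ -log(1 - 1/p) ≤ 1/p + 2/p² (p ≥ 2), ∑ 1/p² ≤ 1.
A bounded range of z is absorbed in the constant.
`cW_asymp`: 1/cW w = LG3V w (`LG3_V`), mertens_three: log w · LG3V w → e^{-γ}; for |w - y| ≤ 3/2, y = loglog X → ∞: |log w - log y| ≤ 1.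
-/

open Finset Pool.Agent.Lib.GT Pool.Agent.Lib.SW

namespace Pool.Agent.Lib.MP_5d7b92_nt.UA

private theorem Me_V (w : ℕ) : LG3V w = ∏ p ∈ PR w, (1 - 1 / (p : ℝ)) := rfl

private theorem Me_fac {p : ℕ} (hp : p.Prime) : (1 : ℝ) / 2 ≤ 1 - 1 / (p : ℝ) := by
  have h2 : (1 : ℝ) / p ≤ 1 / 2 := by
    apply one_div_le_one_div_of_le (by norm_num)
    exact_mod_cast hp.two_le
  linarith

private theorem Me_Vpos (w : ℕ) : 0 < LG3V w := by
  rw [Me_V]
  refine Finset.prod_pos fun p hp => ?_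
  have := Me_fac (mem_PR.1 hp).2
  linarith

private theorem Me_sq (w : ℕ) : ∑ p ∈ PR w, ((p : ℝ) ^ 2)⁻¹ ≤ 1 := by
  rcases Nat.eq_zero_or_pos w with h | h
  · subst h
    have : PR 0 = ∅ := by
      unfold PR
      decide
    rw [this, sum_empty]
    norm_num
  · have h1 := sum_Ioc_inv_sq_le_sub (α := ℝ) (k := 1) (n := w) one_ne_zero h
    have h2 : ∑ p ∈ PR w, ((p : ℝ) ^ 2)⁻¹ ≤ ∑ i ∈ Ioc 1 w, ((i : ℝ) ^ 2)⁻¹ := by
      refine sum_le_sum_of_subset_of_nonneg ?_ (fun i _ _ => by positivity)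
      intro p hp
      obtain ⟨h3, h4⟩ := mem_PR.1 hp
      exact mem_Ioc.2 ⟨h4.one_lt, h3⟩
    have h3 : (0 : ℝ) ≤ (w : ℝ)⁻¹ := by positivity
    have h4 : ((1 : ℕ) : ℝ)⁻¹ = 1 := by simp
    rw [h4] at h1
    linarith

private theorem Me_log (w : ℕ) : |Real.log (LG3V w) + P1 w| ≤ 2 := by
  have h1 : Real.log (LG3V w) = ∑ p ∈ PR w, Real.log (1 - 1 / (p : ℝ)) := by
    rw [Me_V, Real.log_prod]
    intro p hp
    have := Me_fac (mem_PR.1 hp).2
    linarith
  have h2 : ∀ p ∈ PR w, |Real.log (1 - 1 / (p : ℝ)) + 1 / p| ≤ 2 * ((p : ℝ) ^ 2)⁻¹ := by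
    intro p hp
    have hp' := (mem_PR.1 hp).2
    have hp0 : (0 : ℝ) < p := by exact_mod_cast hp'.pos
    have hf := Me_fac hp'
    have hf0 : (0 : ℝ) < 1 - 1 / (p : ℝ) := by linarith
    obtain ⟨x, hx⟩ : ∃ x : ℝ, x = 1 / (p : ℝ) := ⟨_, rfl⟩
    have hx2 : ((p : ℝ) ^ 2)⁻¹ = x ^ 2 := by
      rw [hx]
      field_simp
    rw [hx2]
    rw [← hx] at hf hf0 ⊢
    have hx0 : 0 < x := by rw [hx]; positivity
    have a1 : Real.log (1 - x) ≤ -x := by
      have := Real.log_le_sub_one_of_pos hf0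
      linarith
    have a2 : -(x / (1 - x)) ≤ Real.log (1 - x) := by
      have h3 := Real.log_le_sub_one_of_pos (inv_pos.2 hf0)
      rw [Real.log_inv] at h3
      have h4 : (1 - x)⁻¹ - 1 = x / (1 - x) := by
        field_simp
        ring
      linarith
    have a3 : x / (1 - x) ≤ x + 2 * x ^ 2 := by
      rw [div_le_iff₀ hf0]
      nlinarith
    rw [abs_le]
    have : 0 ≤ x ^ 2 := by positivity
    constructor <;> linarith
  rw [h1]
  unfold P1
  rw [← sum_add_distrib]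
  refine (abs_sum_le_sum_abs _ _).trans ((sum_le_sum h2).trans ?_)
  rw [← mul_sum]
  have := Me_sq w
  linarith

theorem mertens_two : ∃ C₀ : ℝ, 0 < C₀ ∧ ∀ w : ℕ, 3 ≤ w → |P1 w - Real.log (Real.log w)| ≤ C₀ := by
  have h1 : Filter.Tendsto (fun z : ℕ => Real.log (Real.log z * LG3V z)) Filter.atTop
      (nhds (Real.log (Real.exp (-Real.eulerMascheroniConstant)))) :=
    (Sieve.Mertens3.mertens_three).log (Real.exp_pos _).ne'
  rw [Real.log_exp] at h1
  obtain ⟨Z, hZ⟩ := Metric.tendsto_atTop.1 h1 1 one_pos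
  refine ⟨4 + 2 * Z, by positivity, fun w hw => ?_⟩
  have hw3 : (3 : ℝ) ≤ w := by exact_mod_cast hw
  have hlw : 0 < Real.log w := Real.log_pos (by linarith)
  have hlw1 : 1 ≤ Real.log w := by
    rw [Real.le_log_iff_exp_le (by linarith)]
    have := Real.exp_one_lt_d9
    linarith
  have h2 := Me_log w
  by_cases hwZ : Z ≤ w
  · have h3 := hZ w hwZ
    rw [Real.dist_eq, Real.log_mul hlw.ne' (Me_Vpos w).ne'] at h3
    have g0 := Real.one_half_lt_eulerMascheroniConstant
    have g1 := Real.eulerMascheroniConstant_lt_two_thirds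
    rw [abs_lt] at h3
    rw [abs_le] at h2
    have hZ0 : (0 : ℝ) ≤ Z := Nat.cast_nonneg Z
    rw [abs_le]
    constructor
    · linarith [h3.1, h3.2, h2.1, h2.2]
    · linarith [h3.1, h3.2, h2.1, h2.2]
  · -- the bounded range
    have hwZ' : (w : ℝ) ≤ Z := by exact_mod_cast (not_le.1 hwZ).le
    have b1 : P1 w ≤ w := by
      unfold P1
      calc ∑ p ∈ PR w, 1 / (p : ℝ) ≤ ∑ _p ∈ PR w, (1 : ℝ) := by
            refine sum_le_sum fun p hp => ?_
            have hp' := (mem_PR.1 hp).2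
            rw [div_le_one (by exact_mod_cast hp'.pos)]
            exact_mod_cast hp'.one_lt.le
        _ = (PR w).card := by rw [sum_const, nsmul_eq_mul, mul_one]
        _ ≤ w := by
            have h4 : PR w ⊆ Icc 1 w := by
              intro p hp
              obtain ⟨h5, h6⟩ := mem_PR.1 hp
              exact mem_Icc.2 ⟨h6.one_lt.le, h5⟩
            have h5 := card_le_card h4
            rw [Nat.card_Icc, Nat.add_sub_cancel] at h5
            exact_mod_cast h5
    have b0 : 0 ≤ P1 w := by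
      unfold P1
      exact sum_nonneg fun p _ => by positivity
    have b2 : 0 ≤ Real.log (Real.log w) := Real.log_nonneg hlw1
    have b3 : Real.log (Real.log w) ≤ w := by
      have e1 := Real.log_le_sub_one_of_pos hlw
      have e2 := Real.log_le_sub_one_of_pos (show (0 : ℝ) < w by linarith)
      linarith
    rw [abs_le]
    constructor <;> linarith

theorem cW_asymp (ε : ℝ) (hε : 0 < ε) : ∃ X₀ : ℕ, ∀ X : ℕ, X₀ ≤ X → ∀ w : ℕ,
    |(w : ℝ) - Real.log (Real.log X)| ≤ 3 / 2 →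
    |cW w - Real.exp Real.eulerMascheroniConstant * Real.log (Real.log (Real.log X))| ≤
      ε * Real.log (Real.log (Real.log X)) := by
  obtain ⟨G, hG⟩ : ∃ G : ℝ, G = Real.exp Real.eulerMascheroniConstant := ⟨_, rfl⟩
  have hG0 : 0 < G := by
    rw [hG]
    exact Real.exp_pos _
  have h1 : Filter.Tendsto (fun w : ℕ => cW w / Real.log w) Filter.atTop (nhds G) := by
    have h2 := (Sieve.Mertens3.mertens_three).inv₀ (Real.exp_pos _).ne'
    rw [← Real.exp_neg, neg_neg, ← hG] at h2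
    refine h2.congr fun w => ?_
    have h3 : cW w = (LG3V w)⁻¹ := by
      rw [← LG3_V]
      unfold cW
      rw [inv_div]
    rw [h3]
    unfold LG3V
    rw [mul_inv, div_eq_mul_inv, mul_comm]
  obtain ⟨Z, hZ⟩ := Metric.tendsto_atTop.1 h1 (ε / 2) (by positivity)
  obtain ⟨X₀, hX₀⟩ := Filter.eventually_atTop.1 ((LG3_loglog_ev (Z + 8)).and
    (LG3_log3_ev (1 + 2 * G / ε)))
  refine ⟨X₀, fun X hX w hw => ?_⟩
  obtain ⟨k1, k2⟩ := hX₀ X hX
  rw [← hG]
  obtain ⟨y, hy⟩ : ∃ y : ℝ, y = Real.log (Real.log X) := ⟨_, rfl⟩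
  rw [← hy] at k1 k2 hw ⊢
  have hZ0 : (0 : ℝ) ≤ Z := Nat.cast_nonneg Z
  obtain ⟨w1, w2⟩ := abs_le.1 hw
  have hwZ : Z ≤ w := by
    have : (Z : ℝ) ≤ w := by linarith
    exact_mod_cast this
  have hw6 : (6 : ℝ) ≤ w := by linarith
  have hy0 : 0 < y := by linarith
  have hlw : 0 < Real.log w := Real.log_pos (by linarith)
  have hly : 0 < Real.log y := Real.log_pos (by linarith)
  have h3 := hZ w hwZ
  rw [Real.dist_eq] at h3
  have h4 : |cW w - G * Real.log w| ≤ ε / 2 * Real.log w := by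
    have e1 : cW w - G * Real.log w = (cW w / Real.log w - G) * Real.log w := by
      field_simp
    rw [e1, abs_mul, abs_of_pos hlw]
    exact mul_le_mul_of_nonneg_right h3.le hlw.le
  have h5 : |Real.log w - Real.log y| ≤ 1 := by
    have hw0 : (0 : ℝ) < w := by linarith
    rw [abs_le]
    constructor
    · have e1 := Real.log_le_sub_one_of_pos (div_pos hy0 hw0)
      rw [Real.log_div hy0.ne' hw0.ne'] at e1
      have e2 : y / w - 1 ≤ 1 := by
        have e3 : y / w ≤ 2 := by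
          rw [div_le_iff₀ hw0]
          linarith
        linarith
      linarith
    · have e1 := Real.log_le_sub_one_of_pos (div_pos hw0 hy0)
      rw [Real.log_div hw0.ne' hy0.ne'] at e1
      have e2 : w / y - 1 ≤ 1 := by
        have e3 : w / y ≤ 2 := by
          rw [div_le_iff₀ hy0]
          linarith
        linarith
      linarith
  obtain ⟨l1, l2⟩ := abs_le.1 h5
  obtain ⟨m1, m2⟩ := abs_le.1 h4
  have h6 : ε / 2 + G ≤ ε / 2 * Real.log y := by
    have e1 : ε / 2 * (1 + 2 * G / ε) ≤ ε / 2 * Real.log y :=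
      mul_le_mul_of_nonneg_left k2 (by positivity)
    have e2 : ε / 2 * (1 + 2 * G / ε) = ε / 2 + G := by
      field_simp
    linarith
  have h7 : ε / 2 * Real.log w ≤ ε / 2 * (Real.log y + 1) :=
    mul_le_mul_of_nonneg_left (by linarith) (by positivity)
  have h8 : G * Real.log w ≤ G * (Real.log y + 1) :=
    mul_le_mul_of_nonneg_left (by linarith) hG0.le
  have h9 : G * (Real.log y - 1) ≤ G * Real.log w :=
    mul_le_mul_of_nonneg_left (by linarith) hG0.le
  rw [abs_le]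
  constructor <;> nlinarith

end Pool.Agent.Lib.MP_5d7b92_nt.UA
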