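import Pool.Agent.Lib.MP_5d7b92_nt.UA.EX3

/-!
# EX6: the size of `gX`

`gX X 1 · log log log X → 2 e^(-γ)` and `gX X ((loglog X)^C) → C e^(-γ)` for `0 < C ≤ 1`.
-/

open Finset Pool.Agent.Lib.GT Pool.Agent.Lib.SW

namespace Pool.Agent.Lib.MP_5d7b92_nt.UA

/-- odd harmonic sums -/
noncomputable def oddH (n : ℕ) : ℝ := ∑ d ∈ (Icc 1 n).filter Odd, 1 / (d : ℝ)

theorem oddH_step (m : ℕ) : oddH (2 * m + 3) = oddH (2 * m + 1) + 1 / ((2 * m + 3 : ℕ) : ℝ) ∧
    oddH (2 * m + 2) = oddH (2 * m + 1) := by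
  have h2 : oddH (2 * m + 2) = oddH (2 * m + 1) := by
    unfold oddH
    congr 1
    ext d
    simp only [mem_filter, mem_Icc]
    constructor
    · rintro ⟨⟨h1, h2⟩, k, hk⟩
      exact ⟨⟨h1, by omega⟩, k, hk⟩
    · rintro ⟨⟨h1, h2⟩, h3⟩
      exact ⟨⟨h1, by omega⟩, h3⟩
  refine ⟨?_, h2⟩
  rw [← h2]
  unfold oddH
  have h3 : (Icc 1 (2 * m + 3)).filter Odd = insert (2 * m + 3) ((Icc 1 (2 * m + 2)).filter Odd) := by
    ext d
    simp only [mem_filter, mem_Icc, mem_insert]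
    constructor
    · rintro ⟨⟨h1, h2⟩, h3⟩
      rcases Nat.lt_or_ge d (2 * m + 3) with h | h
      · right; exact ⟨⟨h1, by omega⟩, h3⟩
      · left; omega
    · rintro (h | ⟨⟨h1, h2⟩, h3⟩)
      · rw [h]
        exact ⟨⟨by omega, le_refl _⟩, ⟨m + 1, by omega⟩⟩
      · exact ⟨⟨h1, by omega⟩, h3⟩
  rw [h3, sum_insert]
  · ring
  · simp

theorem oddH_bounds (m : ℕ) : Real.log ((2 * m + 3 : ℕ) : ℝ) / 2 ≤ oddH (2 * m + 1) ∧
    oddH (2 * m + 1) ≤ 1 + Real.log ((2 * m + 1 : ℕ) : ℝ) / 2 := by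
  induction m with
  | zero =>
    have h1 : oddH 1 = 1 := by
      unfold oddH
      have : (Icc 1 1).filter Odd = {1} := by decide
      rw [this]
      simp
    simp only [mul_zero, zero_add]
    rw [h1]
    constructor
    · have h2 := Real.log_le_sub_one_of_pos (show (0 : ℝ) < ((3 : ℕ) : ℝ) by norm_num)
      push_cast at h2 ⊢
      linarith
    · simp
  | succ m ih =>
    obtain ⟨ih1, ih2⟩ := ih
    have h1 := (oddH_step m).1
    have e1 : 2 * (m + 1) + 1 = 2 * m + 3 := by ring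
    rw [e1, h1]
    have hp : (0 : ℝ) < ((2 * m + 3 : ℕ) : ℝ) := by positivity
    have hp5 : (0 : ℝ) < ((2 * (m + 1) + 3 : ℕ) : ℝ) := by positivity
    have hp1 : (0 : ℝ) < ((2 * m + 1 : ℕ) : ℝ) := by positivity
    constructor
    · -- log (2m+5) ≤ log (2m+3) + 2/(2m+3)
      have h2 := Real.log_le_sub_one_of_pos (div_pos hp5 hp)
      rw [Real.log_div hp5.ne' hp.ne'] at h2
      have h3 : ((2 * (m + 1) + 3 : ℕ) : ℝ) / ((2 * m + 3 : ℕ) : ℝ) - 1 =
          2 * (1 / ((2 * m + 3 : ℕ) : ℝ)) := by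
        field_simp
        push_cast
        ring
      rw [h3] at h2
      linarith
    · -- 2/(2m+3) ≤ log (2m+3) - log (2m+1)
      have h2 := Real.one_sub_inv_le_log_of_pos (div_pos hp hp1)
      rw [Real.log_div hp.ne' hp1.ne', inv_div] at h2
      have h3 : 1 - ((2 * m + 1 : ℕ) : ℝ) / ((2 * m + 3 : ℕ) : ℝ) =
          2 * (1 / ((2 * m + 3 : ℕ) : ℝ)) := by
        field_simp
        push_cast
        ring
      rw [h3] at h2
      linarith

/-- `|∑_{d ≤ z odd} 1/d - (log z)/2| ≤ 1` -/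
theorem oddH_real (z : ℝ) (hz : 1 ≤ z) : |oddH ⌊z⌋₊ - Real.log z / 2| ≤ 1 := by
  have hn1 : 1 ≤ ⌊z⌋₊ := Nat.le_floor (by simpa using hz)
  obtain ⟨m, hm⟩ : ∃ m, ⌊z⌋₊ = 2 * m + 1 ∨ ⌊z⌋₊ = 2 * m + 2 := by
    refine ⟨(⌊z⌋₊ - 1) / 2, ?_⟩
    omega
  have hle : (⌊z⌋₊ : ℝ) ≤ z := Nat.floor_le (by linarith)
  have hlt : z < (⌊z⌋₊ : ℝ) + 1 := Nat.lt_floor_add_one z
  have hH : oddH ⌊z⌋₊ = oddH (2 * m + 1) := by
    rcases hm with h | h
    · rw [h]
    · rw [h]; exact (oddH_step m).2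
  obtain ⟨h1, h2⟩ := oddH_bounds m
  have h3 : ((2 * m + 1 : ℕ) : ℝ) ≤ z := by
    refine le_trans ?_ hle
    have : 2 * m + 1 ≤ ⌊z⌋₊ := by omega
    exact_mod_cast this
  have h4 : z ≤ ((2 * m + 3 : ℕ) : ℝ) := by
    have h5 : (⌊z⌋₊ : ℝ) + 1 ≤ ((2 * m + 3 : ℕ) : ℝ) := by
      have : ⌊z⌋₊ + 1 ≤ 2 * m + 3 := by omega
      exact_mod_cast this
    linarith
  have hp1 : (0 : ℝ) < ((2 * m + 1 : ℕ) : ℝ) := by positivity
  have h5 := Real.log_le_log hp1 h3
  have h6 := Real.log_le_log (by linarith) h4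
  rw [hH, abs_le]
  constructor <;> linarith

theorem SmO_eq (D : ℝ) (w : ℕ) (hD : D < w + 1) : SmO D w = (Icc 1 ⌊D⌋₊).filter Odd := by
  unfold SmO
  ext d
  simp only [mem_filter, mem_Icc]
  constructor
  · rintro ⟨h1, h2, -⟩
    exact ⟨h1, h2⟩
  · rintro ⟨⟨h1, h2⟩, h3⟩
    refine ⟨⟨h1, h2⟩, h3, ?_⟩
    intro p hp
    have h4 : p ≤ d := Nat.le_of_dvd h1 (Nat.dvd_of_mem_primeFactors hp)
    have h5 : ⌊D⌋₊ < w + 1 := by
      have hw : (0 : ℝ) < ((w + 1 : ℕ) : ℝ) := by positivity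
      rw [Nat.floor_lt' (by omega)]
      push_cast
      exact hD
    omega

theorem gX_one : Filter.Tendsto (fun X : ℕ => gX X 1 * Real.log (Real.log (Real.log X)))
    Filter.atTop (nhds (2 * Real.exp (-Real.eulerMascheroniConstant))) := by
  have h1 := cX_asymp.const_mul 2
  refine h1.congr fun X => ?_
  have h2 : SmO 1 (wX X) = {1} := by
    ext d
    rw [mem_SmO (by norm_num), mem_singleton]
    constructor
    · rintro ⟨⟨h1, h2⟩, -, -⟩
      have : d ≤ 1 := by exact_mod_cast h2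
      omega
    · intro h
      rw [h]
      refine ⟨⟨le_refl _, by norm_num⟩, odd_one, ?_⟩
      intro p hp hp1
      exact absurd (Nat.dvd_one.1 hp1) hp.one_lt.ne'
  unfold gX
  rw [h2, sum_singleton]
  have h3 : cW (wX X) = cX X := rfl
  rw [h3]
  simp only [Nat.cast_one, div_one, mul_one]
  ring

theorem gX_C (C : ℝ) (hC : 0 < C) (hC1 : C ≤ 1) :
    Filter.Tendsto (fun X : ℕ => gX X ((Real.log (Real.log X)) ^ C))
      Filter.atTop (nhds (C * Real.exp (-Real.eulerMascheroniConstant))) := by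
  have hy : Filter.Tendsto (fun X : ℕ => Real.log (Real.log (X : ℝ))) Filter.atTop Filter.atTop :=
    LG3_loglog
  have hT : Filter.Tendsto (fun X : ℕ => Real.log (Real.log (Real.log (X : ℝ)))) Filter.atTop
      Filter.atTop := Real.tendsto_log_atTop.comp hy
  have hc : Filter.Tendsto (fun X : ℕ => 2 / cX X) Filter.atTop (nhds 0) := by
    have h1 : Filter.Tendsto (fun X : ℕ => 2 * (Real.log (Real.log (Real.log X)) / cX X) /
        Real.log (Real.log (Real.log X))) Filter.atTop (nhds 0) :=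
      (cX_asymp.const_mul 2).div_atTop hT
    refine h1.congr' ?_
    filter_upwards [hT.eventually_gt_atTop 0] with X hX
    field_simp
  have h1 : Filter.Tendsto (fun X : ℕ => C * (Real.log (Real.log (Real.log X)) / cX X) - 2 / cX X)
      Filter.atTop (nhds (C * Real.exp (-Real.eulerMascheroniConstant) - 0)) :=
    (cX_asymp.const_mul C).sub hc
  have h2 : Filter.Tendsto (fun X : ℕ => C * (Real.log (Real.log (Real.log X)) / cX X) + 2 / cX X)
      Filter.atTop (nhds (C * Real.exp (-Real.eulerMascheroniConstant) + 0)) :=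
    (cX_asymp.const_mul C).add hc
  rw [sub_zero] at h1
  rw [add_zero] at h2
  have hev : ∀ᶠ X : ℕ in Filter.atTop,
      |gX X ((Real.log (Real.log X)) ^ C) - C * (Real.log (Real.log (Real.log X)) / cX X)| ≤
        2 / cX X := by
    filter_upwards [hy.eventually_ge_atTop 1] with X hX
    obtain ⟨y, hyy⟩ : ∃ y, y = Real.log (Real.log (X : ℝ)) := ⟨_, rfl⟩
    rw [← hyy] at hX ⊢
    have hc1 := one_le_cX X
    have hz1 : 1 ≤ y ^ C := Real.one_le_rpow hX hC.le
    have hzy : y ^ C ≤ y := by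
      calc y ^ C ≤ y ^ (1 : ℝ) := Real.rpow_le_rpow_of_exponent_le hX hC1
        _ = y := Real.rpow_one y
    have hlt : y ^ C < (wX X : ℝ) + 1 := by
      have := Nat.lt_floor_add_one y
      unfold wX
      rw [← hyy]
      linarith
    unfold gX
    rw [SmO_eq _ _ hlt]
    have h3 : cW (wX X) = cX X := rfl
    rw [h3]
    have h4 := oddH_real (y ^ C) hz1
    rw [Real.log_rpow (by linarith)] at h4
    unfold oddH at h4
    obtain ⟨σ, hσ⟩ : ∃ σ : ℝ, σ = ∑ d ∈ (Icc 1 ⌊y ^ C⌋₊).filter Odd, 1 / (d : ℝ) := ⟨_, rfl⟩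
    rw [← hσ] at h4 ⊢
    have h5 : 2 / cX X * σ - C * (Real.log y / cX X) = 2 / cX X * (σ - C * Real.log y / 2) := by
      field_simp
    rw [h5, abs_mul, abs_of_nonneg (by positivity)]
    calc 2 / cX X * |σ - C * Real.log y / 2| ≤ 2 / cX X * 1 :=
          mul_le_mul_of_nonneg_left h4 (by positivity)
      _ = 2 / cX X := mul_one _
  refine tendsto_of_tendsto_of_tendsto_of_le_of_le' h1 h2 ?_ ?_
  · filter_upwards [hev] with X hX
    have := (abs_le.1 hX).1
    linarith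
  · filter_upwards [hev] with X hX
    have := (abs_le.1 hX).2
    linarith

/-- the Mertens product over the odd primes -/
theorem two_div_cW (w : ℕ) (hw : 2 ≤ w) :
    2 / cW w = ∏ p ∈ (Icc 3 w).filter Nat.Prime, (1 - 1 / (p : ℝ)) := by
  have h1 : 1 / cW w = LG3V w := by
    rw [← LG3_V]
    unfold cW
    rw [one_div_div]
  have h2 : (range (w + 1)).filter Nat.Prime = insert 2 ((Icc 3 w).filter Nat.Prime) := by
    ext p
    simp only [mem_filter, mem_range, mem_insert, mem_Icc]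
    constructor
    · rintro ⟨h3, h4⟩
      have := h4.two_le
      rcases Nat.lt_or_ge 2 p with h | h
      · right; exact ⟨⟨by omega, by omega⟩, h4⟩
      · left; omega
    · rintro (h | ⟨⟨h3, h4⟩, h5⟩)
      · rw [h]; exact ⟨by omega, Nat.prime_two⟩
      · exact ⟨by omega, h5⟩
  have h3 : LG3V w = (1 / 2) * ∏ p ∈ (Icc 3 w).filter Nat.Prime, (1 - 1 / (p : ℝ)) := by
    unfold LG3V
    rw [h2, prod_insert]
    · norm_num
    · simp
  have h4 : 2 / cW w = 2 * (1 / cW w) := by ring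
  rw [h4, h1, h3]
  ring

end Pool.Agent.Lib.MP_5d7b92_nt.UA
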