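import Pool.Agent.Lib.MP_5d7b92_nt.UA.TA

/-!
# TS: Theorem B, sharpness

PROOF. M = loglog X, v = ⌊M/4⌋, W = `primorial v` ≤ (log X)^(1/2) (`LG3_four_pow`); S = {s ≤ X : s prime, s = 1 mod W}; |S| ≥ X/(log X)² exactly as in `LG3.sharp` (copy the second bullet
there with Y = X; `theta_ap 3 1`). If s ∈ S, s < N and l ≤ v is a prime dividing N - 1 then l | N - s (s = 1 mod l). So om v (N - 1) ≤ om v (N - s) ≤ bO (N - s) (`om_le`).
`few_low` (ε/2) for v, applied to m = N - 1 ∈ [0, 2X - 1]: all but (ε/2) 2X... (N = 1 has no s < N in S) of the N have om v (N-1) ≥ (1 - ε/2) loglog v ≥ (1 - ε) loglog M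
for X large (log v ≥ (log M)/2, so loglog v ≥ loglog M - 1). The exceptional N number ≤ ε₁ · 2X ≤ ε X with ε₁ = ε/2.
-/

open Finset Pool.Agent.Lib.GT Pool.Agent.Lib.SW

namespace Pool.Agent.Lib.MP_5d7b92_nt.UA

private theorem TS_om {v N s : ℕ} (hs1 : 1 ≤ s) (hsN : s < N)
    (hmod : s ≡ 1 [MOD (primorial v)]) : om v (N - 1) ≤ om v (N - s) := by
  unfold om
  refine card_le_card fun p hp => ?_
  obtain ⟨hp1, hp2⟩ := mem_filter.1 hp
  refine mem_filter.2 ⟨hp1, ?_⟩
  obtain ⟨hpv, hpp⟩ := mem_PR.1 hp1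
  have h1 : p ∣ primorial v := (hpp.dvd_primorial_iff).2 hpv
  have h2 : primorial v ∣ s - 1 := (Nat.modEq_iff_dvd' hs1).1 hmod.symm
  have h3 : p ∣ s - 1 := h1.trans h2
  have h4 : N - s = (N - 1) - (s - 1) := by omega
  rw [h4]
  exact Nat.dvd_sub hp2 h3

theorem theoremB (ε : ℝ) (hε : 0 < ε) : ∃ X₀ : ℕ, ∀ X : ℕ, X₀ ≤ X →
    ∃ S : Finset ℕ, S ⊆ Icc 1 X ∧ (∀ s ∈ S, s.Prime) ∧ X / (Real.log X) ^ 2 ≤ (S.card : ℝ) ∧
      (((Icc 1 (2 * X)).filter (fun N => ∃ s ∈ S, s < N ∧
        (bO (N - s) : ℝ) < (1 - ε) * Real.log (Real.log (Real.log (Real.log X))))).card : ℝ) ≤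
        ε * X := by
  obtain ⟨C, hC, hθ⟩ := theta_ap 3 1 one_pos
  obtain ⟨ε₁, hε₁⟩ : ∃ ε₁, ε₁ = min ε 1 / 2 := ⟨_, rfl⟩
  have hε₁0 : 0 < ε₁ := by
    rw [hε₁]
    have : 0 < min ε 1 := lt_min hε one_pos
    linarith
  have hε₁a : 2 * ε₁ ≤ ε := by
    rw [hε₁]
    have := min_le_left ε 1
    linarith
  have hε₁b : ε₁ ≤ 1 / 2 := by
    rw [hε₁]
    have := min_le_right ε 1
    linarith
  obtain ⟨w₀, hw₀⟩ := few_low ε₁ hε₁0
  have hlog4 : ∀ᶠ X : ℕ in Filter.atTop,
      1 / ε₁ ≤ Real.log (Real.log (Real.log (Real.log X))) :=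
    (Real.tendsto_log_atTop.comp (Real.tendsto_log_atTop.comp LG3_loglog)).eventually_ge_atTop _
  obtain ⟨X₀, hX₀⟩ := Filter.eventually_atTop.1 (hlog4.and ((LG3_log3_ev 6).and
    ((LG3_log_ev (max 16 C)).and ((LG3_loglog_ev (max 8 (4 * w₀ + 4))).and
      (Filter.eventually_ge_atTop 16)))))
  refine ⟨X₀, fun X hX => ?_⟩
  obtain ⟨k1, k2, k3, k4, k5⟩ := hX₀ X hX
  obtain ⟨L, hL⟩ : ∃ L, L = Real.log X := ⟨_, rfl⟩
  obtain ⟨M, hM⟩ : ∃ M, M = Real.log L := ⟨_, rfl⟩
  obtain ⟨T, hT⟩ : ∃ T, T = Real.log M := ⟨_, rfl⟩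
  rw [← hL, ← hM, ← hT] at k1
  rw [← hL, ← hM, ← hT] at k2
  rw [← hL] at k3
  rw [← hL, ← hM] at k4
  have hL16 : 16 ≤ L := (le_max_left _ _).trans k3
  have hLC : C ≤ L := (le_max_right _ _).trans k3
  have hM8 : 8 ≤ M := (le_max_left _ _).trans k4
  have hMw : 4 * (w₀ : ℝ) + 4 ≤ M := (le_max_right _ _).trans k4
  have hXr : (16 : ℝ) ≤ X := by exact_mod_cast k5
  have hX0 : (0 : ℝ) < X := by linarith
  obtain ⟨z, hz⟩ : ∃ z, z = ⌊1 / 4 * M⌋₊ := ⟨_, rfl⟩
  have hzM : (z : ℝ) ≤ 1 / 4 * M := by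
    rw [hz]
    exact Nat.floor_le (by linarith)
  have hzM' : 1 / 4 * M < (z : ℝ) + 1 := by
    rw [hz]
    exact Nat.lt_floor_add_one _
  obtain ⟨W, hW⟩ : ∃ W, W = primorial z := ⟨_, rfl⟩
  have hW0 : 0 < W := by
    rw [hW]
    exact primorial_pos z
  have hW1 : (1 : ℝ) ≤ W := by exact_mod_cast hW0
  have hWL : (W : ℝ) ≤ √L := by
    have h1 := LG3_four_pow (by linarith : 0 ≤ M) hzM
    rw [← hW] at h1
    refine h1.trans (le_of_eq ?_)
    rw [Real.exp_half, hM, Real.exp_log (by linarith)]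
  have hsL : √L ≤ L / 4 := by
    have h1 := Real.sq_sqrt (by linarith : 0 ≤ L)
    have h2 : 4 ≤ √L := by
      rw [Real.le_sqrt (by norm_num) (by linarith)]
      linarith
    nlinarith
  have hφ : 0 < W.totient := Nat.totient_pos.2 hW0
  have hφ' : (0 : ℝ) < W.totient := by exact_mod_cast hφ
  have hφW : (W.totient : ℝ) ≤ W := by exact_mod_cast Nat.totient_le W
  refine ⟨(Icc 1 X).filter (fun s => s.Prime ∧ s ≡ 1 [MOD W]), filter_subset _ _, ?_, ?_, ?_⟩
  · intro s hs
    exact (mem_filter.1 hs).2.1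
  · have h1 := hθ W 1 hW0 (Nat.coprime_one_left W) X (by linarith)
    rw [Nat.floor_natCast, Real.rpow_one] at h1
    have h3 : ∑ n ∈ (Icc 1 X).filter (fun n => n.Prime ∧ n ≡ 1 [MOD W]), Real.log n ≤
        (((Icc 1 X).filter (fun n => n.Prime ∧ n ≡ 1 [MOD W])).card : ℝ) * Real.log X := by
      rw [← nsmul_eq_mul, ← sum_const]
      refine sum_le_sum fun n hn => ?_
      obtain ⟨hn1, hn2⟩ := mem_Icc.1 (mem_filter.1 hn).1
      exact Real.log_le_log (by exact_mod_cast hn1) (by exact_mod_cast hn2)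
    generalize (((Icc 1 X).filter (fun n => n.Prime ∧ n ≡ 1 [MOD W])).card : ℝ) = c at *
    generalize ∑ n ∈ (Icc 1 X).filter (fun n => n.Prime ∧ n ≡ 1 [MOD W]), Real.log n = A at *
    rw [← hL] at h1 h3 ⊢
    have hl0 : 0 < L := by linarith
    have h5 : (X : ℝ) / W ≤ X / W.totient := div_le_div_of_nonneg_left hX0.le hφ' hφW
    have hWl : (W : ℝ) ≤ L / 2 := by linarith
    have h6 : 2 * (X / L) ≤ (X : ℝ) / W := by
      rw [le_div_iff₀ (by linarith)]
      calc 2 * (X / L) * W ≤ 2 * (X / L) * (L / 2) :=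
            mul_le_mul_of_nonneg_left hWl (by positivity)
        _ = X := by field_simp
    have h7 : C * W * X / L ^ 3 ≤ X / L := by
      rw [div_le_div_iff₀ (by positivity) hl0]
      have h8 : C * W ≤ L * L :=
        mul_le_mul hLC (by linarith) (by linarith) (by linarith)
      calc C * W * X * L ≤ (L * L) * X * L := by
            refine mul_le_mul_of_nonneg_right (mul_le_mul_of_nonneg_right h8 hX0.le) hl0.le
        _ = X * L ^ 3 := by ring
    have h8 := (abs_le.1 h1).1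
    have h9 : X / L ≤ c * L := by linarith
    rw [div_le_iff₀ (by positivity)]
    rw [div_le_iff₀ hl0] at h9
    calc (X : ℝ) ≤ c * L * L := h9
      _ = c * L ^ 2 := by ring
  · rw [← hL, ← hM, ← hT]
    -- log log z is large
    have hz8 : M / 8 ≤ (z : ℝ) := by linarith
    have hT6 : 6 ≤ T := k2
    have hlz : T / 2 ≤ Real.log z := by
      have h1 : Real.log (M / 8) ≤ Real.log z := Real.log_le_log (by linarith) hz8
      rw [Real.log_div (by linarith) (by norm_num), ← hT] at h1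
      have h2 : Real.log 8 ≤ 3 := by
        have h4 : Real.log 8 = 3 * Real.log 2 := by
          rw [show (8 : ℝ) = 2 ^ 3 by norm_num, Real.log_pow]
          norm_num
        have h5 := Real.log_two_lt_d9
        linarith
      linarith
    have hllz : Real.log T - 1 ≤ Real.log (Real.log z) := by
      have h1 : Real.log (T / 2) ≤ Real.log (Real.log z) :=
        Real.log_le_log (by linarith) hlz
      rw [Real.log_div (by linarith) (by norm_num)] at h1
      have h5 := Real.log_two_lt_d9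
      linarith
    have hfin : (1 - ε) * Real.log T ≤ (1 - ε₁) * Real.log (Real.log z) := by
      have hl : 1 ≤ ε₁ * Real.log T := by
        rw [div_le_iff₀ hε₁0] at k1
        linarith
      have hl0 : 0 ≤ Real.log T := by
        by_contra hneg
        push Not at hneg
        nlinarith
      have h1 : (1 - ε) * Real.log T ≤ (1 - 2 * ε₁) * Real.log T :=
        mul_le_mul_of_nonneg_right (by linarith) hl0
      have h2 : (1 - ε₁) * (Real.log T - 1) ≤ (1 - ε₁) * Real.log (Real.log z) :=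
        mul_le_mul_of_nonneg_left hllz (by linarith)
      linarith
    have hzw : w₀ ≤ z := by
      have : (w₀ : ℝ) ≤ z := by linarith
      exact_mod_cast this
    have hz3 : z ^ 3 ≤ 2 * X := by
      have h1 : (z : ℝ) ^ 3 ≤ 2 * X := by
        have h2 : (z : ℝ) ≤ L / 4 := by
          have h3 : M ≤ L := by
            rw [hM]
            exact (Real.log_le_sub_one_of_pos (by linarith)).trans (by linarith)
          linarith
        have h3 : (z : ℝ) ^ 3 ≤ (L / 4) ^ 3 := pow_le_pow_left₀ (Nat.cast_nonneg z) h2 3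
        have h4 := LG3_pow 3 (x := (X : ℝ)) (by linarith)
        rw [← hL] at h4
        norm_num [Nat.factorial] at h4
        have h5 : (L / 4) ^ 3 = L ^ 3 / 64 := by ring
        rw [h5] at h3
        linarith
      exact_mod_cast h1
    have hlow := hw₀ z (2 * X) hzw hz3
    have hfin2 : ε₁ * ((2 * X : ℕ) : ℝ) ≤ ε * X := by
      push_cast
      have h1 : ε₁ * (2 * X) = (2 * ε₁) * X := by ring
      rw [h1]
      exact mul_le_mul_of_nonneg_right hε₁a hX0.le
    refine le_trans (Nat.cast_le.2 ?_) (hlow.trans hfin2)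
    · refine Finset.card_le_card_of_injOn (fun N => N - 1) ?_ ?_
      · intro N hN
        obtain ⟨hN1, s, hs, hsN, hb⟩ := mem_filter.1 (Finset.mem_coe.1 hN)
        obtain ⟨hs1, hs2, hs3⟩ := mem_filter.1 hs
        obtain ⟨hs4, hs5⟩ := mem_Icc.1 hs1
        obtain ⟨hN2, hN3⟩ := mem_Icc.1 hN1
        refine Finset.mem_coe.2 (mem_filter.2 ⟨mem_Icc.2 ⟨?_, ?_⟩, ?_⟩)
        · simp only
          omega
        · simp only
          omega
        · simp only
          rw [hW] at hs3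
          have h1 := TS_om hs4 hsN hs3
          have h2 := om_le z (N - s) (by omega)
          have h3 : (om z (N - 1) : ℝ) ≤ bO (N - s) := by exact_mod_cast h1.trans h2
          linarith
      · intro a ha b hb hab
        obtain ⟨-, s, hs, hsN, -⟩ := mem_filter.1 (Finset.mem_coe.1 ha)
        obtain ⟨-, s', hs', hsN', -⟩ := mem_filter.1 (Finset.mem_coe.1 hb)
        simp only at hab
        omega

end Pool.Agent.Lib.MP_5d7b92_nt.UA
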