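import Pool.Agent.Lib.MP_5d7b92_nt.UA.TA
import Pool.Agent.Lib.SW.SC.PIA

/-!
# CC: Corollary C, everything in terms of n

Good C ε n d: the cofactors allowed for n. P_j(N) = #(PI j ∩ [1, N)).

PROOF of `corollary`. δ = ε/4; only the n with δ X ≤ n ≤ X matter (the others number ≤ δ X + 1). Z = 2X, S = {s ∈ [1, Z] : PI j s}, N = 2n ∈ [1, Z] (⊆ [1, 2Z]); |S| ≥ Z/(log Z)^(2j+3)
(`PI_count`). `theoremA` (K = 2j+3) ε' at Z for the two values w₁ = ⌊loglog Z⌋, w₂ = w₁ - 1: exceptional sets B₁, B₂, |B_i| ≤ ε' Z. For n ≥ δ X: loglog n ≥ loglog(δX) ≥ loglog Z - η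
(η ≤ 1/2), so w := ⌊loglog n⌋ ∈ {w₁, w₁ - 1} and |w - loglog Z| ≤ 1 + η ≤ 3/2 (apply `theoremA` for w₂ only if |w₂ - loglog Z| ≤ 3/2, otherwise B₂ = ∅).
Put D = {d ∈ DM w Z : Good C ε n d}. For n ≥ δX and X large: DA C' ε' w Z ⊆ D (d ≤ (loglog Z)^{C'} ≤ (loglog n)^{C'+1}, Ω(d) ≤ (1+ε')log₄ Z ≤ (1+ε) log₄ n, p | d → p ≤ w = ⌊loglog n⌋ ≤ loglog n)
and Good C ε n d implies d ∈ DM w Z (d ≤ (loglog n)^C ≤ log Z; p ≤ loglog n → p ≤ w). So the count is cnt D S N. `below S N` = PI j ∩ [1, 2n), its size is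
(1+o(1)) 2n/(log 2n)^(j+1) (`PI_asymp`, SW/SC/PIA), |S| ≤ (1+o(1)) 2X/(log 2X)^(j+1) ≤ (2/δ)(2n/(log n)^(j+1)), log₃ Z/log₃ n → 1, log Z/log n → 1 uniformly for δX ≤ n ≤ X.
-/

open Finset Pool.Agent.Lib.GT Pool.Agent.Lib.SW

namespace Pool.Agent.Lib.MP_5d7b92_nt.UA

def Good (C ε : ℝ) (n d : ℕ) : Prop :=
  1 ≤ d ∧ (∀ p : ℕ, p.Prime → p ∣ d → (p : ℝ) ≤ Real.log (Real.log n)) ∧
    (d : ℝ) ≤ (Real.log (Real.log n)) ^ C ∧
    (bO d : ℝ) ≤ (1 + ε) * Real.log (Real.log (Real.log (Real.log n)))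

open Classical in
/-- the number of `p < 2n` in `P_j` with `2n - p = d q`, `q` prime, `d` good for `n` -/
noncomputable def repC (j : ℕ) (C ε : ℝ) (n : ℕ) : ℕ :=
  ((Icc 1 (2 * n)).filter (fun p => PI j p ∧ p < 2 * n ∧
    ∃ d q : ℕ, Good C ε n d ∧ q.Prime ∧ 2 * n = p + d * q)).card

private theorem cc_add {a b : ℝ} (ha : 0 < a) (hb : 0 ≤ b) :
    Real.log (a + b) ≤ Real.log a + b / a := by
  have h1 : a + b = a * (1 + b / a) := by
    field_simp
  rw [h1, Real.log_mul ha.ne' (by positivity)]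
  have h2 := Real.log_le_sub_one_of_pos (show 0 < 1 + b / a by positivity)
  linarith

/-- the iterated logarithms of `Z` and `n` are close when `n ≤ Z ≤ C n` -/
private theorem cc_logs (c η : ℝ) (hc : 0 ≤ c) (hη : 0 < η) : ∀ᶠ n : ℕ in Filter.atTop,
    ∀ Z : ℝ, (n : ℝ) ≤ Z → Real.log Z ≤ Real.log n + c →
      Real.log Z ≤ (1 + η) * Real.log n ∧
      Real.log (Real.log Z) ≤ Real.log (Real.log n) + 1 / 2 ∧
      Real.log (Real.log (Real.log Z)) ≤ (1 + η) * Real.log (Real.log (Real.log n)) ∧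
      Real.log (Real.log (Real.log (Real.log Z))) ≤
        Real.log (Real.log (Real.log (Real.log n))) + 1 ∧
      Real.log n ≤ Real.log Z ∧
      Real.log (Real.log n) ≤ Real.log (Real.log Z) ∧
      Real.log (Real.log (Real.log n)) ≤ Real.log (Real.log (Real.log Z)) := by
  filter_upwards [LG3_log_ev (max (c / η) (max (2 * c) 1)), LG3_loglog_ev (max (1 / (2 * η)) 1),
    LG3_log3_ev 1, Filter.eventually_ge_atTop 2] with n h1 h2 h3 h4
  intro Z hZ hZ2
  have hn : (2 : ℝ) ≤ n := by exact_mod_cast h4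
  set l1 : ℝ := Real.log n with hl1
  set l2 : ℝ := Real.log l1 with hl2
  set l3 : ℝ := Real.log l2 with hl3
  have a1 : c / η ≤ l1 := le_trans (le_max_left _ _) h1
  have a2 : 2 * c ≤ l1 := le_trans (le_trans (le_max_left _ _) (le_max_right _ _)) h1
  have a3 : 1 ≤ l1 := le_trans (le_trans (le_max_right _ _) (le_max_right _ _)) h1
  have a4 : 1 / (2 * η) ≤ l2 := le_trans (le_max_left _ _) h2
  have a5 : 1 ≤ l2 := le_trans (le_max_right _ _) h2
  have hZn : l1 ≤ Real.log Z := Real.log_le_log (by linarith) hZ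
  have hZn2 : l2 ≤ Real.log (Real.log Z) := Real.log_le_log (by linarith) hZn
  have hZn3 : l3 ≤ Real.log (Real.log (Real.log Z)) := Real.log_le_log (by linarith) hZn2
  have b1 : c ≤ η * l1 := by
    rw [div_le_iff₀ hη] at a1
    linarith
  have c1 : Real.log Z ≤ (1 + η) * l1 := by
    have : (1 + η) * l1 = l1 + η * l1 := by ring
    linarith
  have c2 : Real.log (Real.log Z) ≤ l2 + 1 / 2 := by
    have e1 : Real.log (Real.log Z) ≤ Real.log (l1 + c) := Real.log_le_log (by linarith) hZ2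
    have e2 := cc_add (show 0 < l1 by linarith) hc
    have e3 : c / l1 ≤ 1 / 2 := by
      rw [div_le_iff₀ (by linarith)]
      linarith
    linarith
  have c3 : Real.log (Real.log (Real.log Z)) ≤ l3 + 1 / 2 / l2 := by
    have e1 : Real.log (Real.log (Real.log Z)) ≤ Real.log (l2 + 1 / 2) :=
      Real.log_le_log (by linarith) c2
    have e2 := cc_add (show 0 < l2 by linarith) (show (0 : ℝ) ≤ 1 / 2 by norm_num)
    linarith
  have c3a : 1 / 2 / l2 ≤ η := by
    rw [div_le_iff₀ (by linarith)]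
    rw [div_le_iff₀ (by positivity)] at a4
    linarith
  have c3b : 1 / 2 / l2 ≤ 1 / 2 := by
    rw [div_le_iff₀ (by linarith)]
    linarith
  have c4 : Real.log (Real.log (Real.log (Real.log Z))) ≤ Real.log l3 + 1 := by
    have e1 : Real.log (Real.log (Real.log (Real.log Z))) ≤ Real.log (l3 + 1 / 2) :=
      Real.log_le_log (by linarith) (by linarith)
    have e2 := cc_add (show 0 < l3 by linarith) (show (0 : ℝ) ≤ 1 / 2 by norm_num)
    have e3 : 1 / 2 / l3 ≤ 1 / 2 := by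
      rw [div_le_iff₀ (by linarith)]
      linarith
    linarith
  refine ⟨c1, c2, ?_, c4, hZn, hZn2, hZn3⟩
  have e1 : η ≤ η * l3 := by
    calc η = η * 1 := (mul_one η).symm
      _ ≤ η * l3 := mul_le_mul_of_nonneg_left h3 hη.le
  have e2 : (1 + η) * l3 = l3 + η * l3 := by ring
  linarith

/-- the number of elements of `P_j` up to `2n`, in terms of `log n` -/
private theorem cc_P (j : ℕ) : Filter.Tendsto (fun n : ℕ =>
    (((Icc 1 (2 * n)).filter (PI j)).card : ℝ) * (Real.log n) ^ (j + 1) / (2 * n))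
    Filter.atTop (nhds 1) := by
  have h1 : Filter.Tendsto (fun n : ℕ => 2 * n) Filter.atTop Filter.atTop :=
    Filter.tendsto_atTop_mono (fun n => by simp only [id]; omega) Filter.tendsto_id
  have h2 := (PI_asymp j).comp h1
  have hlog : Filter.Tendsto (fun n : ℕ => Real.log (n : ℝ)) Filter.atTop Filter.atTop :=
    Real.tendsto_log_atTop.comp tendsto_natCast_atTop_atTop
  have h3 : Filter.Tendsto (fun n : ℕ => Real.log (n : ℝ) / Real.log ((2 * n : ℕ) : ℝ))
      Filter.atTop (nhds 1) := by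
    have h4 : Filter.Tendsto (fun n : ℕ => Real.log 2 / Real.log (n : ℝ))
        Filter.atTop (nhds 0) := hlog.const_div_atTop _
    have h5 : Filter.Tendsto (fun n : ℕ => (1 + Real.log 2 / Real.log (n : ℝ))⁻¹)
        Filter.atTop (nhds (1 + 0)⁻¹) := (h4.const_add 1).inv₀ (by norm_num)
    rw [add_zero, inv_one] at h5
    refine h5.congr' ?_
    filter_upwards [hlog.eventually_gt_atTop 0, Filter.eventually_ge_atTop 1] with n a1 a2
    have a3 : (0 : ℝ) < n := by exact_mod_cast a2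
    push_cast
    rw [Real.log_mul (by norm_num) a3.ne']
    have a4 : 0 < Real.log (2 : ℝ) := Real.log_pos (by norm_num)
    field_simp
    try ring
  have h6 := h2.mul (h3.pow (j + 1))
  rw [one_pow, mul_one] at h6
  refine h6.congr' ?_
  filter_upwards [hlog.eventually_gt_atTop 0, Filter.eventually_ge_atTop 1] with n a1 a2
  have a3 : (0 : ℝ) < n := by exact_mod_cast a2
  simp only [Function.comp_apply]
  have a4 : 0 < Real.log ((2 * n : ℕ) : ℝ) := by
    apply Real.log_pos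
    have : 1 < 2 * n := by omega
    exact_mod_cast this
  rw [div_pow]
  push_cast at a4 ⊢
  field_simp

private theorem cc_S (j : ℕ) : ∀ᶠ Z : ℕ in Filter.atTop,
    (((Icc 1 Z).filter (PI j)).card : ℝ) ≤ 2 * Z / (Real.log Z) ^ (j + 1) := by
  have h1 := (PI_asymp j).eventually (gt_mem_nhds (show (1 : ℝ) < 2 by norm_num))
  filter_upwards [h1, LG3_log_ev 1, Filter.eventually_ge_atTop 1] with Z a1 a2 a3
  have a4 : (0 : ℝ) < Z := by exact_mod_cast a3
  rw [div_lt_iff₀ a4] at a1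
  rw [le_div_iff₀ (by positivity)]
  exact a1.le

/-- the real inequality behind the corollary -/
private theorem cc_real (cnt P Sc x ln LZ l3 L3 E η ε' δ ε : ℝ) (m : ℕ) (hE : 0 < E)
    (hη : 0 < η) (hη1 : η ≤ 1) (hηE : 3 * η * E ≤ ε / 2) (hε' : 0 < ε') (hδ : 0 < δ)
    (hε'δ : 4 * ε' ≤ ε / 2 * δ) (hx : 0 < x) (hln : 0 < ln) (hl3 : 0 < l3)
    (hP1 : (1 - η) * (x / ln ^ m) ≤ P) (hP2 : P ≤ (1 + η) * (x / ln ^ m))
    (hLZ1 : ln ≤ LZ) (hLZ2 : LZ ≤ (1 + η) * ln) (hL31 : l3 ≤ L3) (hL32 : L3 ≤ (1 + η) * l3)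
    (hSc0 : 0 ≤ Sc) (hSc : Sc ≤ 2 * (x / δ) / ln ^ m)
    (hcnt : |cnt - E * L3 * P / LZ| ≤ ε' * L3 * Sc / LZ) :
    |cnt - E * l3 * (x / ln ^ (m + 1))| ≤ ε * (l3 * (x / ln ^ (m + 1))) := by
  have hLZ0 : 0 < LZ := by linarith
  have hL30 : 0 < L3 := by linarith
  have hP0 : 0 ≤ P := by
    refine le_trans ?_ hP1
    have : 0 ≤ 1 - η := by linarith
    positivity
  set Q : ℝ := l3 * (x / ln ^ (m + 1)) with hQ
  have hQ0 : 0 < Q := by positivity
  have hEQ : E * l3 * (x / ln ^ (m + 1)) = E * Q := by rw [hQ]; ring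
  rw [hEQ]
  have e1 : E * L3 * P / LZ ≤ (1 + 3 * η) * (E * Q) := by
    have a1 : E * L3 * P / LZ ≤ E * ((1 + η) * l3) * ((1 + η) * (x / ln ^ m)) / ln := by
      gcongr
    have a2 : E * ((1 + η) * l3) * ((1 + η) * (x / ln ^ m)) / ln = (1 + η) ^ 2 * (E * Q) := by
      rw [hQ, pow_succ ln m]
      field_simp
    rw [a2] at a1
    refine le_trans a1 ?_
    apply mul_le_mul_of_nonneg_right _ (by positivity)
    nlinarith
  have e2 : (1 - 3 * η) * (E * Q) ≤ E * L3 * P / LZ := by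
    have a1 : E * l3 * ((1 - η) * (x / ln ^ m)) / ((1 + η) * ln) ≤ E * L3 * P / LZ := by
      have : 0 ≤ 1 - η := by linarith
      gcongr
    have a2 : E * l3 * ((1 - η) * (x / ln ^ m)) / ((1 + η) * ln) =
        ((1 - η) / (1 + η)) * (E * Q) := by
      rw [hQ, pow_succ ln m]
      field_simp
    rw [a2] at a1
    refine le_trans ?_ a1
    apply mul_le_mul_of_nonneg_right _ (by positivity)
    rw [le_div_iff₀ (by linarith)]
    nlinarith
  have e3 : ε' * L3 * Sc / LZ ≤ ε / 2 * Q := by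
    have a1 : ε' * L3 * Sc / LZ ≤ ε' * ((1 + 1) * l3) * (2 * (x / δ) / ln ^ m) / ln := by
      have b1 : L3 ≤ (1 + 1) * l3 := le_trans hL32 (by gcongr)
      gcongr
    have a2 : ε' * ((1 + 1) * l3) * (2 * (x / δ) / ln ^ m) / ln = (4 * ε' / δ) * Q := by
      rw [hQ, pow_succ ln m]
      field_simp
      ring
    rw [a2] at a1
    refine le_trans a1 ?_
    apply mul_le_mul_of_nonneg_right _ hQ0.le
    rw [div_le_iff₀ hδ]
    exact hε'δ
  have e4 : 3 * η * (E * Q) ≤ ε / 2 * Q := by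
    calc 3 * η * (E * Q) = 3 * η * E * Q := by ring
      _ ≤ ε / 2 * Q := mul_le_mul_of_nonneg_right hηE hQ0.le
  rw [abs_le] at hcnt ⊢
  have e5 : (1 + 3 * η) * (E * Q) = E * Q + 3 * η * (E * Q) := by ring
  have e6 : (1 - 3 * η) * (E * Q) = E * Q - 3 * η * (E * Q) := by ring
  have e7 : ε * Q = ε / 2 * Q + ε / 2 * Q := by ring
  constructor <;> linarith [hcnt.1, hcnt.2]

/-- everything needed of a large `n` -/
private theorem cc_large (j : ℕ) (c η C ε ε' : ℝ) (hc : 0 ≤ c) (hη : 0 < η) (hε' : 2 * ε' ≤ ε)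
    (hε'0 : 0 < ε') :
    ∀ᶠ n : ℕ in Filter.atTop,
      (∀ Z : ℝ, (n : ℝ) ≤ Z → Real.log Z ≤ Real.log n + c →
        Real.log Z ≤ (1 + η) * Real.log n ∧
        Real.log (Real.log Z) ≤ Real.log (Real.log n) + 1 / 2 ∧
        Real.log (Real.log (Real.log Z)) ≤ (1 + η) * Real.log (Real.log (Real.log n)) ∧
        Real.log (Real.log (Real.log (Real.log Z))) ≤
          Real.log (Real.log (Real.log (Real.log n))) + 1 ∧
        Real.log n ≤ Real.log Z ∧
        Real.log (Real.log n) ≤ Real.log (Real.log Z) ∧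
        Real.log (Real.log (Real.log n)) ≤ Real.log (Real.log (Real.log Z))) ∧
      (1 - η) * (2 * n / (Real.log n) ^ (j + 1)) ≤ (((Icc 1 (2 * n)).filter (PI j)).card : ℝ) ∧
      (((Icc 1 (2 * n)).filter (PI j)).card : ℝ) ≤ (1 + η) * (2 * n / (Real.log n) ^ (j + 1)) ∧
      (2 : ℝ) ^ C ≤ Real.log (Real.log n) ∧
      (Real.log (Real.log n)) ^ (C + 1) ≤ Real.log n ∧
      (1 + ε') * (Real.log (Real.log (Real.log (Real.log n))) + 1) ≤
        (1 + ε) * Real.log (Real.log (Real.log (Real.log n))) ∧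
      1 ≤ Real.log n ∧ 1 ≤ Real.log (Real.log n) ∧ 1 ≤ Real.log (Real.log (Real.log n)) ∧
      2 ≤ n := by
  have h1 := (cc_P j).eventually (gt_mem_nhds (show (1 : ℝ) < 1 + η by linarith))
  have h2 := (cc_P j).eventually (lt_mem_nhds (show (1 : ℝ) - η < 1 by linarith))
  have h3 : ∀ᶠ n : ℕ in Filter.atTop,
      (Real.log (Real.log (n : ℝ))) ^ (C + 1) ≤ Real.log n := by
    have a1 := (isLittleO_log_rpow_rpow_atTop (C + 1) (show (0 : ℝ) < 1 by norm_num)).def
      (show (0 : ℝ) < 1 by norm_num)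
    have a2 := (Real.tendsto_log_atTop.comp tendsto_natCast_atTop_atTop).eventually a1
    filter_upwards [a2, LG3_loglog_ev 1, LG3_log_ev 1] with n b1 b2 b3
    simp only [Function.comp_apply, Real.rpow_one, one_mul] at b1
    rw [Real.norm_of_nonneg (Real.rpow_nonneg (by linarith) _),
      Real.norm_of_nonneg (by linarith)] at b1
    exact b1
  have h4 : ∀ᶠ n : ℕ in Filter.atTop, (1 + ε') / ε' ≤
      Real.log (Real.log (Real.log (Real.log (n : ℝ)))) :=
    (Real.tendsto_log_atTop.comp (Real.tendsto_log_atTop.comp LG3_loglog)).eventually_ge_atTop _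
  filter_upwards [cc_logs c η hc hη, h1, h2, h3, h4, LG3_loglog_ev (max 1 (2 ^ C)), LG3_log_ev 1,
    LG3_log3_ev 1, Filter.eventually_ge_atTop 2] with n a1 a2 a3 a4 a5 a6 a7 a8 a9
  have hn : (2 : ℝ) ≤ n := by exact_mod_cast a9
  have hl : 0 < Real.log (n : ℝ) ^ (j + 1) := by positivity
  refine ⟨a1, ?_, ?_, le_trans (le_max_right _ _) a6, a4, ?_, a7, le_trans (le_max_left _ _) a6,
    a8, a9⟩
  · rw [lt_div_iff₀ (by linarith)] at a3
    rw [← mul_div_assoc, div_le_iff₀ hl]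
    exact a3.le
  · rw [div_lt_iff₀ (by linarith)] at a2
    rw [← mul_div_assoc, le_div_iff₀ hl]
    exact a2.le
  · rw [div_le_iff₀ hε'0] at a5
    nlinarith

open Classical in
/-- the count of the corollary is the count of Theorem A -/
private theorem cc_cnt (j X n w : ℕ) (C ε : ℝ) (hn : n ≤ X)
    (hw : ∀ d : ℕ, Good C ε n d → d ∈ DM w (2 * X)) :
    repC j C ε n = cnt ((DM w (2 * X)).filter (fun d => Good C ε n d))
      ((Icc 1 (2 * X)).filter (PI j)) (2 * n) := by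
  unfold repC cnt
  congr 1
  ext s
  simp only [Finset.mem_filter, Finset.mem_Icc]
  constructor
  · rintro ⟨⟨h1, h2⟩, h3, h4, d, q, h5, h6, h7⟩
    refine ⟨⟨⟨h1, by omega⟩, h3⟩, h4, d, ⟨hw d h5, h5⟩, ?_, ?_⟩
    · exact ⟨q, by omega⟩
    · have h8 : 2 * n - s = d * q := by omega
      rw [h8, Nat.mul_div_cancel_left _ h5.1]
      exact h6
  · rintro ⟨⟨⟨h1, h2⟩, h3⟩, h4, d, ⟨h5, h6⟩, h7, h8⟩
    refine ⟨⟨h1, by omega⟩, h3, h4, d, (2 * n - s) / d, h6, h8, ?_⟩
    rw [Nat.mul_div_cancel' h7]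
    omega

private theorem cc_below (j X n : ℕ) (hn : 2 ≤ n) (hnX : n ≤ X) :
    (below ((Icc 1 (2 * X)).filter (PI j)) (2 * n)) = (Icc 1 (2 * n)).filter (PI j) := by
  unfold below
  ext s
  simp only [Finset.mem_filter, Finset.mem_Icc]
  constructor
  · rintro ⟨⟨⟨h1, h2⟩, h3⟩, h4⟩
    exact ⟨⟨h1, h4.le⟩, h3⟩
  · rintro ⟨⟨h1, h2⟩, h3⟩
    refine ⟨⟨⟨h1, by omega⟩, h3⟩, ?_⟩
    rcases Nat.lt_or_ge s (2 * n) with h | h
    · exact h
    · exfalso
      have h4 : s = 2 * n := by omega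
      have h5 := PI_prime j s h3
      rw [h4] at h5
      exact Nat.not_prime_mul (by norm_num) (by omega) h5

theorem corollary (j : ℕ) (ε : ℝ) (hε : 0 < ε) : ∃ C : ℝ, 0 < C ∧ ∃ X₀ : ℕ, ∀ X : ℕ, X₀ ≤ X →
    (((Icc 1 X).filter (fun n : ℕ =>
      ε * (Real.log (Real.log (Real.log n)) * (2 * n / (Real.log n) ^ (j + 2))) <
      |(repC j C ε n : ℝ) - Real.exp Real.eulerMascheroniConstant *
        Real.log (Real.log (Real.log n)) * (2 * n / (Real.log n) ^ (j + 2))|)).card : ℝ) ≤ ε * X := by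
  classical
  set E : ℝ := Real.exp Real.eulerMascheroniConstant with hE
  have hE0 : 0 < E := Real.exp_pos _
  obtain ⟨η, hη0, hη1, hηE⟩ : ∃ η : ℝ, 0 < η ∧ η ≤ 1 ∧ 3 * η * E ≤ ε / 2 := by
    refine ⟨min (ε / (6 * E)) 1, by positivity, min_le_right _ _, ?_⟩
    have h1 : min (ε / (6 * E)) 1 ≤ ε / (6 * E) := min_le_left _ _
    calc 3 * min (ε / (6 * E)) 1 * E ≤ 3 * (ε / (6 * E)) * E := by gcongr
      _ = ε / 2 := by field_simp; ring
  obtain ⟨δ, hδ0, hδ1, hδε⟩ : ∃ δ : ℝ, 0 < δ ∧ δ ≤ 1 ∧ δ ≤ ε / 2 :=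
    ⟨min (ε / 2) 1, by positivity, min_le_right _ _, min_le_left _ _⟩
  obtain ⟨ε', hε'def⟩ : ∃ ε' : ℝ, ε' = ε * δ / 8 := ⟨_, rfl⟩
  have hε'0 : 0 < ε' := by rw [hε'def]; positivity
  have hε'1 : ε' ≤ ε / 8 := by
    rw [hε'def]
    have : ε * δ ≤ ε * 1 := mul_le_mul_of_nonneg_left hδ1 hε.le
    linarith
  have hε'δ : 4 * ε' ≤ ε / 2 * δ := by
    rw [hε'def]
    linarith
  obtain ⟨C', hC'0, X₁, hX₁⟩ := theoremA (2 * j + 3) ε' hε'0
  have hc : 0 ≤ Real.log (2 / δ) := by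
    apply Real.log_nonneg
    rw [le_div_iff₀ hδ0]
    linarith
  obtain ⟨N₁, hN₁⟩ := Filter.eventually_atTop.mp
    (cc_large j (Real.log (2 / δ)) η C' ε ε' hc hη0 (by linarith) hε'0)
  obtain ⟨X₂, hX₂⟩ := PI_count j
  obtain ⟨X₃, hX₃⟩ := Filter.eventually_atTop.mp (cc_S j)
  refine ⟨C' + 1, by linarith, max (max X₁ X₂) (max X₃ ⌈(N₁ : ℝ) / δ⌉₊), ?_⟩
  intro X hX
  have hXa : X₁ ≤ 2 * X := by
    have := le_trans (le_trans (le_max_left _ _) (le_max_left _ _)) hX
    omega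
  have hXb : X₂ ≤ 2 * X := by
    have := le_trans (le_trans (le_max_right _ _) (le_max_left _ _)) hX
    omega
  have hXc : X₃ ≤ 2 * X := by
    have := le_trans (le_trans (le_max_left _ _) (le_max_right _ _)) hX
    omega
  have hXd : (N₁ : ℝ) ≤ δ * X := by
    have h1 := le_trans (le_trans (le_max_right _ _) (le_max_right _ _)) hX
    have h2 : (N₁ : ℝ) / δ ≤ X := le_trans (Nat.le_ceil _) (by exact_mod_cast h1)
    rw [div_le_iff₀ hδ0] at h2
    linarith
  set Z : ℕ := 2 * X with hZ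
  set S : Finset ℕ := (Icc 1 Z).filter (PI j) with hS
  have hSsub : S ⊆ Icc 1 Z := Finset.filter_subset _ _
  have hScard := hX₂ Z hXb
  have hSup := hX₃ Z hXc
  -- the exceptional sets
  have hBex : ∀ w : ℕ, ∃ B : Finset ℕ, (B.card : ℝ) ≤ ε' * Z ∧
      (|(w : ℝ) - Real.log (Real.log Z)| ≤ 3 / 2 → ∀ N ∈ Icc 1 (2 * Z), N ∉ B →
        ∀ D : Finset ℕ, DA C' ε' w Z ⊆ D → D ⊆ DM w Z →
        |(cnt D S N : ℝ) - Real.exp Real.eulerMascheroniConstant *
            Real.log (Real.log (Real.log Z)) * (below S N).card / Real.log Z| ≤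
          ε' * Real.log (Real.log (Real.log Z)) * S.card / Real.log Z) := by
    intro w
    by_cases hw : |(w : ℝ) - Real.log (Real.log Z)| ≤ 3 / 2
    · obtain ⟨B, hB1, hB2⟩ := hX₁ Z hXa w hw S hSsub hScard
      exact ⟨B, hB1, fun _ => hB2⟩
    · refine ⟨∅, ?_, fun h => absurd h hw⟩
      rw [Finset.card_empty, Nat.cast_zero]
      positivity
  obtain ⟨w₁, hw₁⟩ : ∃ w₁ : ℕ, w₁ = ⌊Real.log (Real.log (Z : ℝ))⌋₊ := ⟨_, rfl⟩
  obtain ⟨B₁, hB₁, hB₁'⟩ := hBex w₁
  obtain ⟨B₂, hB₂, hB₂'⟩ := hBex (w₁ - 1)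
  have hcover : ((Icc 1 X).filter (fun n : ℕ =>
      ε * (Real.log (Real.log (Real.log n)) * (2 * n / (Real.log n) ^ (j + 2))) <
      |(repC j (C' + 1) ε n : ℝ) - E *
        Real.log (Real.log (Real.log n)) * (2 * n / (Real.log n) ^ (j + 2))|)) ⊆
      (Icc 1 ⌊δ * X⌋₊ ∪ (Icc 1 X).filter (fun n => 2 * n ∈ B₁)) ∪
        (Icc 1 X).filter (fun n => 2 * n ∈ B₂) := by
    intro n hn
    rw [Finset.mem_filter] at hn
    obtain ⟨hnX, hnbad⟩ := hn
    by_contra hcon
    rw [Finset.mem_union, Finset.mem_union, not_or, not_or] at hcon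
    obtain ⟨⟨h1, h2⟩, h3⟩ := hcon
    have h2' : 2 * n ∉ B₁ := fun h => h2 (Finset.mem_filter.2 ⟨hnX, h⟩)
    have h3' : 2 * n ∉ B₂ := fun h => h3 (Finset.mem_filter.2 ⟨hnX, h⟩)
    have hnX' := Finset.mem_Icc.1 hnX
    have hnδ : δ * X < n := by
      by_contra h
      apply h1
      rw [Finset.mem_Icc]
      exact ⟨hnX'.1, Nat.le_floor (le_of_not_gt h)⟩
    have hnN : N₁ ≤ n := by
      have : (N₁ : ℝ) ≤ n := by linarith
      exact_mod_cast this
    obtain ⟨hlogs, hP1, hP2, hl2C, hlC, hl4, hl1, hl2, hl3, hn2⟩ := hN₁ n hnN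
    have hn0 : (2 : ℝ) ≤ n := by exact_mod_cast hn2
    have hXn : (n : ℝ) ≤ X := by exact_mod_cast hnX'.2
    have hZc : (Z : ℝ) = 2 * X := by rw [hZ]; push_cast; ring
    have hZn : (n : ℝ) ≤ (Z : ℝ) := by rw [hZc]; linarith
    have hZδ : (Z : ℝ) ≤ 2 / δ * n := by
      rw [hZc, div_mul_eq_mul_div, le_div_iff₀ hδ0]
      linarith
    have hlZ : Real.log Z ≤ Real.log n + Real.log (2 / δ) := by
      rw [← Real.log_mul (by linarith) (by positivity)]
      apply Real.log_le_log (by linarith)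
      linarith
    obtain ⟨c1, c2, c3, c4, c5, c6, c7⟩ := hlogs Z hZn hlZ
    obtain ⟨w, hw⟩ : ∃ w : ℕ, w = ⌊Real.log (Real.log (n : ℝ))⌋₊ := ⟨_, rfl⟩
    have hwle : (w : ℝ) ≤ Real.log (Real.log n) := by
      rw [hw]
      exact Nat.floor_le (by linarith)
    have hwlt : Real.log (Real.log n) < (w : ℝ) + 1 := by
      rw [hw]
      exact Nat.lt_floor_add_one _
    have hwabs : |(w : ℝ) - Real.log (Real.log Z)| ≤ 3 / 2 := by
      rw [abs_le]
      constructor <;> linarith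
    have hww₁ : w = w₁ ∨ w = w₁ - 1 := by
      have e1 : w ≤ w₁ := by
        rw [hw, hw₁]
        exact Nat.floor_le_floor c6
      have e2 : (w₁ : ℝ) < (w : ℝ) + 2 := by
        have : (w₁ : ℝ) ≤ Real.log (Real.log Z) := by
          rw [hw₁]
          exact Nat.floor_le (by linarith)
        linarith
      have e3 : w₁ < w + 2 := by exact_mod_cast e2
      omega
    have hgood : ∀ d : ℕ, Good (C' + 1) ε n d → d ∈ DM w Z := by
      rintro d ⟨g1, g2, g3, _⟩
      rw [mem_DM]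
      refine ⟨⟨g1, by linarith⟩, ?_⟩
      intro p hp hpd
      rw [hw]
      exact Nat.le_floor (g2 p hp hpd)
    set D : Finset ℕ := (DM w Z).filter (fun d => Good (C' + 1) ε n d) with hD
    have hDA : DA C' ε' w Z ⊆ D := by
      intro d hd
      unfold DA at hd
      rw [Finset.mem_filter] at hd
      obtain ⟨hd1, hd2, hd3⟩ := hd
      have hd4 := mem_DM.1 hd1
      rw [hD, Finset.mem_filter]
      refine ⟨hd1, hd4.1.1, ?_, ?_, ?_⟩
      · intro p hp hpd
        have : p ≤ w := hd4.2 p hp hpd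
        have h5 : (p : ℝ) ≤ w := by exact_mod_cast this
        linarith
      · have e1 : Real.log (Real.log Z) ≤ 2 * Real.log (Real.log n) := by linarith
        have e2 : (Real.log (Real.log (Z : ℝ))) ^ C' ≤ (2 * Real.log (Real.log (n : ℝ))) ^ C' :=
          Real.rpow_le_rpow (by linarith) e1 hC'0.le
        have e3 : (2 * Real.log (Real.log (n : ℝ))) ^ C' =
            2 ^ C' * (Real.log (Real.log (n : ℝ))) ^ C' :=
          Real.mul_rpow (by norm_num) (by linarith)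
        have e4 : (Real.log (Real.log (n : ℝ))) ^ (C' + 1) =
            (Real.log (Real.log (n : ℝ))) ^ C' * Real.log (Real.log n) :=
          Real.rpow_add_one (by linarith) _
        have e5 : 0 ≤ (Real.log (Real.log (n : ℝ))) ^ C' := Real.rpow_nonneg (by linarith) _
        have e6 : 2 ^ C' * (Real.log (Real.log (n : ℝ))) ^ C' ≤
            Real.log (Real.log n) * (Real.log (Real.log (n : ℝ))) ^ C' :=
          mul_le_mul_of_nonneg_right hl2C e5
        rw [e4]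
        linarith
      · have e1 : (1 + ε') * Real.log (Real.log (Real.log (Real.log (Z : ℝ)))) ≤
            (1 + ε') * (Real.log (Real.log (Real.log (Real.log (n : ℝ)))) + 1) :=
          mul_le_mul_of_nonneg_left c4 (by linarith)
        linarith
    have hDsub : D ⊆ DM w Z := Finset.filter_subset _ _
    have hNmem : 2 * n ∈ Icc 1 (2 * Z) := by
      rw [Finset.mem_Icc]
      omega
    have hmain : |(cnt D S (2 * n) : ℝ) - E *
            Real.log (Real.log (Real.log Z)) * (below S (2 * n)).card / Real.log Z| ≤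
          ε' * Real.log (Real.log (Real.log Z)) * S.card / Real.log Z := by
      rcases hww₁ with h | h
      · rw [← h] at hB₁'
        exact hB₁' hwabs (2 * n) hNmem h2' D hDA hDsub
      · rw [← h] at hB₂'
        exact hB₂' hwabs (2 * n) hNmem h3' D hDA hDsub
    have hcnt : repC j (C' + 1) ε n = cnt D S (2 * n) :=
      cc_cnt j X n w (C' + 1) ε hnX'.2 hgood
    have hbel : below S (2 * n) = (Icc 1 (2 * n)).filter (PI j) := cc_below j X n hn2 hnX'.2
    rw [hbel] at hmain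
    have hSc : (S.card : ℝ) ≤ 2 * (2 * n / δ) / (Real.log n) ^ (j + 1) := by
      have e1 : 2 * (Z : ℝ) / (Real.log Z) ^ (j + 1) ≤ 2 * (2 * n / δ) / (Real.log n) ^ (j + 1) := by
        have e2 : (Z : ℝ) ≤ 2 * n / δ := by
          calc (Z : ℝ) ≤ 2 / δ * n := hZδ
            _ = 2 * n / δ := by ring
        gcongr
      linarith
    have hfin := cc_real (cnt D S (2 * n)) (((Icc 1 (2 * n)).filter (PI j)).card : ℝ) (S.card : ℝ)
      (2 * n) (Real.log n) (Real.log Z) (Real.log (Real.log (Real.log n)))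
      (Real.log (Real.log (Real.log Z))) E η ε' δ ε (j + 1) hE0 hη0 hη1 hηE hε'0 hδ0 hε'δ
      (by linarith) (by linarith) (by linarith) hP1 hP2 c5 c1 c7 c3 (by positivity) hSc hmain
    rw [hcnt] at hnbad
    have hj : j + 1 + 1 = j + 2 := by omega
    rw [hj] at hfin
    linarith
  have hcardA : ((Icc 1 ⌊δ * X⌋₊).card : ℝ) ≤ δ * X := by
    rw [Nat.card_Icc, Nat.add_sub_cancel]
    exact Nat.floor_le (by positivity)
  have hinj : ∀ B : Finset ℕ, ((Icc 1 X).filter (fun n => 2 * n ∈ B)).card ≤ B.card := by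
    intro B
    apply Finset.card_le_card_of_injOn (fun n => 2 * n)
    · intro n hn
      rw [Finset.mem_coe, Finset.mem_filter] at hn
      exact Finset.mem_coe.2 hn.2
    · intro a _ b _ hab
      have h5 : 2 * a = 2 * b := hab
      omega
  have hcardB : ∀ B : Finset ℕ, (B.card : ℝ) ≤ ε' * Z →
      (((Icc 1 X).filter (fun n => 2 * n ∈ B)).card : ℝ) ≤ ε' * Z := by
    intro B hB
    have : (((Icc 1 X).filter (fun n => 2 * n ∈ B)).card : ℝ) ≤ B.card := by
      exact_mod_cast hinj B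
    linarith
  have h1 := Finset.card_le_card hcover
  have h2 := Finset.card_union_le (Icc 1 ⌊δ * X⌋₊ ∪ (Icc 1 X).filter (fun n => 2 * n ∈ B₁))
    ((Icc 1 X).filter (fun n => 2 * n ∈ B₂))
  have h3 := Finset.card_union_le (Icc 1 ⌊δ * X⌋₊) ((Icc 1 X).filter (fun n => 2 * n ∈ B₁))
  have h4 : (((Icc 1 X).filter (fun n : ℕ =>
      ε * (Real.log (Real.log (Real.log n)) * (2 * n / (Real.log n) ^ (j + 2))) <
      |(repC j (C' + 1) ε n : ℝ) - E *
        Real.log (Real.log (Real.log n)) * (2 * n / (Real.log n) ^ (j + 2))|)).card : ℝ) ≤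
      ((Icc 1 ⌊δ * X⌋₊).card : ℝ) + (((Icc 1 X).filter (fun n => 2 * n ∈ B₁)).card : ℝ) +
      (((Icc 1 X).filter (fun n => 2 * n ∈ B₂)).card : ℝ) := by
    exact_mod_cast le_trans h1 (le_trans h2 (Nat.add_le_add_right h3 _))
  have h5 := hcardB B₁ hB₁
  have h6 := hcardB B₂ hB₂
  have hZc : (Z : ℝ) = 2 * X := by rw [hZ]; push_cast; ring
  rw [hZc] at h5 h6
  have hX0 : (0 : ℝ) ≤ X := Nat.cast_nonneg X
  have h7 : δ * X ≤ ε / 2 * X := mul_le_mul_of_nonneg_right hδε hX0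
  have h8 : ε' * (2 * X) ≤ ε / 8 * (2 * X) := mul_le_mul_of_nonneg_right hε'1 (by linarith)
  refine le_trans h4 ?_
  linarith

end Pool.Agent.Lib.MP_5d7b92_nt.UA
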