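import Pool.Agent.Lib.MP_5d7b92_nt.UA.Defs

/-!
# CV: from the weights log q to counts

PROOF. L = log X, T = X/L^(K+3), c = cW w, M = |S|, R = ∑_{d ∈ D} rd d S N, r = ∑_{d ∈ D} cd d S N, s = mt w D S N ≤ M. As in LG1:
(a) R ≤ (L + log 2) r: rd d S N = ∑ log((N-s)/d) over the s counted by cd d S N, (N - s)/d ≤ 2X (compare LG1.rS_le).
(b) r ≤ R/log T + L T: for each d: cd d S N ≤ rd d S N/log T + T (compare LG1.reps_le: the s with (N-s)/d < T number at most T, because
    s ↦ (N-s)/d is injective on the s with d | N - s), and #D ≤ log X (D ⊆ DM w X ⊆ [1, ⌊log X⌋]).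
(c) `LG1.conversion` with T := L T = X/L^(K+2) ≤ η M/L (since 1 ≤ η L, M ≥ X/L^K), lT = log T (`LG1.eventually_range` (K+1) η): |r - c s/L| ≤ 4 η c M/L.
(d) cnt ≤ r ≤ cnt + L^3: for fixed s with m = N - s put E = {d ∈ D : d | m, m/d prime}. cnt counts the s with E ≠ ∅, r = ∑_s #E. If E has two elements d ≠ d'
    then q = m/d ≠ q' = m/d', q | d' q' so q | d' so q ≤ L, m = d q ≤ L². So r - cnt ≤ ∑_{s : N - s ≤ L²} #D ≤ L² · L.
(e) L^3 ≤ η c M/L for X large (M ≥ X/L^K, c ≥ 1). Total 5 η c M/L.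
Real-analysis facts for X large: `LG2.eventually_log_pow`, `LG2.eventually_log_ge`.
-/

open Finset Pool.Agent.Lib.GT Pool.Agent.Lib.SW

namespace Pool.Agent.Lib.MP_5d7b92_nt.UA

private theorem cv_rd_eq (d : ℕ) (S : Finset ℕ) (N : ℕ) :
    rd d S N = ∑ s ∈ S.filter (fun s => s < N ∧ d ∣ N - s ∧ ((N - s) / d).Prime),
      Real.log (((N - s) / d : ℕ) : ℝ) := by
  unfold rd lam
  rw [← Finset.sum_filter, Finset.filter_filter]
  apply Finset.sum_congr _ (fun _ _ => rfl)
  apply Finset.filter_congr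
  intro s _
  tauto

private theorem cv_rd_le (d : ℕ) (S : Finset ℕ) (X N : ℕ) (hX : 1 ≤ X) (hN : N ≤ 2 * X) :
    rd d S N ≤ (Real.log X + Real.log 2) * cd d S N := by
  rw [cv_rd_eq]
  unfold cd
  rw [mul_comm, ← nsmul_eq_mul]
  apply Finset.sum_le_card_nsmul
  intro s hs
  rw [Finset.mem_filter] at hs
  have hXr : (1 : ℝ) ≤ X := by exact_mod_cast hX
  rw [← Real.log_mul (by linarith) (by norm_num)]
  apply Real.log_le_log
  · exact_mod_cast hs.2.2.2.pos
  · have h1 : (N - s) / d ≤ N - s := Nat.div_le_self _ _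
    have : (N - s) / d ≤ 2 * X := by omega
    have h2 : (((N - s) / d : ℕ) : ℝ) ≤ 2 * X := by exact_mod_cast this
    linarith

private theorem cv_rd_nonneg (d : ℕ) (S : Finset ℕ) (N : ℕ) : 0 ≤ rd d S N := by
  rw [cv_rd_eq]
  exact Finset.sum_nonneg (fun s _ => Real.log_natCast_nonneg _)

private theorem cv_cd_le (d : ℕ) (S : Finset ℕ) (N : ℕ) (T : ℝ) (hT : 1 < T) :
    (cd d S N : ℝ) ≤ rd d S N / Real.log T + T := by
  have hlT : 0 < Real.log T := Real.log_pos hT
  have h0 := cv_rd_eq d S N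
  set A := S.filter (fun s => s < N ∧ d ∣ N - s ∧ ((N - s) / d).Prime) with hA
  have hcard : A.card = (A.filter (fun s => T ≤ (((N - s) / d : ℕ) : ℝ))).card +
      (A.filter (fun s => ¬ T ≤ (((N - s) / d : ℕ) : ℝ))).card :=
    (Finset.card_filter_add_card_filter_not _).symm
  have h1 : ((A.filter (fun s => T ≤ (((N - s) / d : ℕ) : ℝ))).card : ℝ) * Real.log T ≤
      rd d S N := by
    rw [h0, ← nsmul_eq_mul]
    calc (A.filter (fun s => T ≤ (((N - s) / d : ℕ) : ℝ))).card • Real.log T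
        ≤ ∑ s ∈ A.filter (fun s => T ≤ (((N - s) / d : ℕ) : ℝ)),
            Real.log (((N - s) / d : ℕ) : ℝ) := by
          apply Finset.card_nsmul_le_sum
          intro s hs
          rw [Finset.mem_filter] at hs
          exact Real.log_le_log (by linarith) hs.2
      _ ≤ ∑ s ∈ A, Real.log (((N - s) / d : ℕ) : ℝ) :=
          Finset.sum_le_sum_of_subset_of_nonneg (Finset.filter_subset _ _)
            (fun s _ _ => Real.log_natCast_nonneg _)
  have h2 : ((A.filter (fun s => ¬ T ≤ (((N - s) / d : ℕ) : ℝ))).card : ℝ) ≤ T := by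
    have hsub : (A.filter (fun s => ¬ T ≤ (((N - s) / d : ℕ) : ℝ))).card ≤
        (Icc 1 ⌊T⌋₊).card := by
      apply Finset.card_le_card_of_injOn (fun s => (N - s) / d)
      · intro s hs
        rw [Finset.mem_coe, Finset.mem_filter, hA, Finset.mem_filter] at hs
        rw [Finset.mem_coe, Finset.mem_Icc]
        refine ⟨hs.1.2.2.2.pos, ?_⟩
        exact Nat.le_floor (le_of_not_ge hs.2)
      · intro s hs t ht hst
        rw [Finset.mem_coe, Finset.mem_filter, hA, Finset.mem_filter] at hs ht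
        have h5 : (N - s) / d = (N - t) / d := hst
        have h6 := hs.1.2.1
        have h7 := ht.1.2.1
        have h8 := Nat.div_mul_cancel hs.1.2.2.1
        have h9 := Nat.div_mul_cancel ht.1.2.2.1
        rw [h5] at h8
        omega
    rw [Nat.card_Icc, Nat.add_sub_cancel] at hsub
    calc ((A.filter (fun s => ¬ T ≤ (((N - s) / d : ℕ) : ℝ))).card : ℝ) ≤ (⌊T⌋₊ : ℝ) := by
          exact_mod_cast hsub
      _ ≤ T := Nat.floor_le (by linarith)
  have h3 : (cd d S N : ℝ) = (A.card : ℝ) := rfl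
  rw [h3, hcard]
  push_cast
  have h4 : ((A.filter (fun s => T ≤ (((N - s) / d : ℕ) : ℝ))).card : ℝ) ≤
      rd d S N / Real.log T := by
    rw [le_div_iff₀ hlT]
    exact h1
  linarith

/-- the cofactors of `D` which work for `m` -/
private def cvE (D : Finset ℕ) (m : ℕ) : Finset ℕ := D.filter (fun d => d ∣ m ∧ (m / d).Prime)

private theorem cv_sum_cd (D S : Finset ℕ) (N : ℕ) :
    ∑ d ∈ D, cd d S N = ∑ s ∈ S.filter (fun s => s < N), (cvE D (N - s)).card := by
  have h1 : ∀ d ∈ D, cd d S N = ∑ s ∈ S.filter (fun s => s < N),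
      (if d ∣ N - s ∧ ((N - s) / d).Prime then 1 else 0) := by
    intro d _
    unfold cd
    rw [← Finset.card_filter, Finset.filter_filter]
  rw [Finset.sum_congr rfl h1, Finset.sum_comm]
  apply Finset.sum_congr rfl
  intro s _
  unfold cvE
  rw [Finset.card_filter]

private theorem cv_cnt (D S : Finset ℕ) (N : ℕ) :
    cnt D S N = ∑ s ∈ S.filter (fun s => s < N), (if (cvE D (N - s)).Nonempty then 1 else 0) := by
  unfold cnt
  rw [← Finset.card_filter, Finset.filter_filter]
  congr 1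
  apply Finset.filter_congr
  intro s _
  unfold cvE
  constructor
  · rintro ⟨h1, d, hd, h2, h3⟩
    exact ⟨h1, d, Finset.mem_filter.2 ⟨hd, h2, h3⟩⟩
  · rintro ⟨h1, d, hd⟩
    rw [Finset.mem_filter] at hd
    exact ⟨h1, d, hd.1, hd.2.1, hd.2.2⟩

private theorem cv_two (D : Finset ℕ) (B m : ℕ) (hD : D ⊆ Icc 1 B)
    (h : 2 ≤ (cvE D m).card) : m ≤ B ^ 2 := by
  obtain ⟨d, hd, e, he, hne⟩ := Finset.one_lt_card.1 (show 1 < (cvE D m).card by omega)
  unfold cvE at hd he
  rw [Finset.mem_filter] at hd he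
  have hd1 := Finset.mem_Icc.1 (hD hd.1)
  have he1 := Finset.mem_Icc.1 (hD he.1)
  have e1 : m / d * d = m := Nat.div_mul_cancel hd.2.1
  have e2 : m / e * e = m := Nat.div_mul_cancel he.2.1
  set q := m / d with hq
  set r := m / e with hr
  have hqr : q ≠ r := by
    intro h0
    rw [h0] at e1
    have h1 : r * d = r * e := by rw [e1, e2]
    exact hne (Nat.eq_of_mul_eq_mul_left he.2.2.pos h1)
  have h1 : q ∣ r * e := by
    rw [e2, ← e1]
    exact Dvd.intro _ rfl
  have h2 : q ∣ e := by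
    have h3 : Nat.Coprime q r := (Nat.coprime_primes hd.2.2 he.2.2).2 hqr
    exact h3.dvd_of_dvd_mul_left h1
  have h3 : q ≤ B := le_trans (Nat.le_of_dvd (by omega) h2) he1.2
  calc m = q * d := e1.symm
    _ ≤ B * B := Nat.mul_le_mul h3 hd1.2
    _ = B ^ 2 := by ring

private theorem cv_count (D S : Finset ℕ) (B N : ℕ) (hD : D ⊆ Icc 1 B) :
    cnt D S N ≤ ∑ d ∈ D, cd d S N ∧ ∑ d ∈ D, cd d S N ≤ cnt D S N + B ^ 3 := by
  rw [cv_sum_cd, cv_cnt]
  constructor
  · apply Finset.sum_le_sum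
    intro s _
    split_ifs with h
    · exact Finset.card_pos.2 h
    · exact Nat.zero_le _
  · have hDB : D.card ≤ B := by
      have := Finset.card_le_card hD
      rwa [Nat.card_Icc, Nat.add_sub_cancel] at this
    have h1 : ∀ s ∈ S.filter (fun s => s < N), (cvE D (N - s)).card ≤
        (if (cvE D (N - s)).Nonempty then 1 else 0) + (if N - s ≤ B ^ 2 then B else 0) := by
      intro s hs
      rw [Finset.mem_filter] at hs
      have h2 : (cvE D (N - s)).card ≤ B :=
        le_trans (Finset.card_le_card (Finset.filter_subset _ _)) hDB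
      by_cases h3 : 2 ≤ (cvE D (N - s)).card
      · have h4 := cv_two D B (N - s) hD h3
        rw [if_pos h4]
        omega
      · by_cases h4 : (cvE D (N - s)).Nonempty
        · rw [if_pos h4]
          omega
        · rw [Finset.not_nonempty_iff_eq_empty] at h4
          rw [h4]
          simp
    have h2 : ∑ s ∈ S.filter (fun s => s < N), (if N - s ≤ B ^ 2 then B else 0) ≤ B ^ 3 := by
      rw [← Finset.sum_filter, Finset.sum_const, smul_eq_mul]
      have h3 : ((S.filter (fun s => s < N)).filter (fun s => N - s ≤ B ^ 2)).card ≤ B ^ 2 := by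
        have h4 : ((S.filter (fun s => s < N)).filter (fun s => N - s ≤ B ^ 2)).card ≤
            (Icc 1 (B ^ 2)).card := by
          apply Finset.card_le_card_of_injOn (fun s => N - s)
          · intro s hs
            rw [Finset.mem_coe, Finset.mem_filter, Finset.mem_filter] at hs
            rw [Finset.mem_coe, Finset.mem_Icc]
            have h5 := hs.1.2
            exact ⟨Nat.sub_pos_of_lt h5, hs.2⟩
          · intro s hs t ht hst
            rw [Finset.mem_coe, Finset.mem_filter, Finset.mem_filter] at hs ht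
            have h5 : N - s = N - t := hst
            have h6 := hs.1.2
            have h7 := ht.1.2
            omega
        rwa [Nat.card_Icc, Nat.add_sub_cancel] at h4
      calc _ ≤ B ^ 2 * B := Nat.mul_le_mul_right _ h3
        _ = B ^ 3 := by ring
    calc _ ≤ ∑ s ∈ S.filter (fun s => s < N), ((if (cvE D (N - s)).Nonempty then 1 else 0) +
          (if N - s ≤ B ^ 2 then B else 0)) := Finset.sum_le_sum h1
      _ = _ + ∑ s ∈ S.filter (fun s => s < N), (if N - s ≤ B ^ 2 then B else 0) :=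
          Finset.sum_add_distrib
      _ ≤ _ := Nat.add_le_add_left h2 _

theorem convert (K : ℕ) (η : ℝ) (hη : 0 < η) (hη1 : η ≤ 1) :
    ∃ X₀ : ℕ, ∀ X : ℕ, X₀ ≤ X → ∀ w : ℕ, ∀ S : Finset ℕ, S ⊆ Icc 1 X →
      X / (Real.log X) ^ K ≤ (S.card : ℝ) → ∀ N ∈ Icc 1 (2 * X), ∀ D : Finset ℕ, D ⊆ DM w X →
      |∑ d ∈ D, rd d S N - cW w * mt w D S N| ≤ η * cW w * S.card →
      |(cnt D S N : ℝ) - cW w * mt w D S N / Real.log X| ≤ 5 * η * cW w * S.card / Real.log X := by
  obtain ⟨X₁, hX₁⟩ := eventually_range (K + 1) η hη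
  obtain ⟨X₂, hX₂⟩ := Filter.eventually_atTop.mp (eventually_log_pow (K + 4) η hη)
  refine ⟨max (max X₁ X₂) 1, ?_⟩
  intro X hX w S hS hcard N hN D hD hR
  obtain ⟨hL1, hL2, hT1, hT2⟩ := hX₁ X (le_trans (le_trans (le_max_left _ _) (le_max_left _ _)) hX)
  have hpow := hX₂ X (le_trans (le_trans (le_max_right _ _) (le_max_left _ _)) hX)
  have hX1 : 1 ≤ X := le_trans (le_max_right _ _) hX
  have hXpos : (0 : ℝ) < X := by exact_mod_cast hX1
  rw [Finset.mem_Icc] at hN
  set L : ℝ := Real.log X with hL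
  have hL0 : 0 < L := by linarith
  set T : ℝ := X / L ^ (K + 1 + 2) with hT
  have hT0 : 0 < T := by linarith
  have hlT : 0 < Real.log T := Real.log_pos hT1
  have hc1 := one_le_cW w
  set c : ℝ := cW w with hc
  have hc0 : 0 < c := by linarith
  have hM0 : 0 < (S.card : ℝ) := lt_of_lt_of_le (by positivity) hcard
  set M : ℝ := (S.card : ℝ) with hM
  set B : ℕ := ⌊L⌋₊ with hB
  have hBL : (B : ℝ) ≤ L := Nat.floor_le hL0.le
  have hDB : D ⊆ Icc 1 B := by
    intro d hd
    have := mem_DM.1 (hD hd)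
    rw [Finset.mem_Icc]
    exact ⟨this.1.1, Nat.le_floor this.1.2⟩
  have hDcard : (D.card : ℝ) ≤ L := by
    have h1 := Finset.card_le_card hDB
    rw [Nat.card_Icc, Nat.add_sub_cancel] at h1
    have h2 : (D.card : ℝ) ≤ B := by exact_mod_cast h1
    linarith
  set r : ℝ := ∑ d ∈ D, (cd d S N : ℝ) with hr
  set R : ℝ := ∑ d ∈ D, rd d S N with hRdef
  have ha : R ≤ (L + Real.log 2) * r := by
    rw [hRdef, hr, Finset.mul_sum]
    exact Finset.sum_le_sum (fun d _ => cv_rd_le d S X N hX1 hN.2)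
  have hb : r ≤ R / Real.log T + L * T := by
    have h1 : r ≤ ∑ d ∈ D, (rd d S N / Real.log T + T) :=
      Finset.sum_le_sum (fun d _ => cv_cd_le d S N T hT1)
    rw [Finset.sum_add_distrib, ← Finset.sum_div, Finset.sum_const, nsmul_eq_mul] at h1
    have h2 : (D.card : ℝ) * T ≤ L * T := mul_le_mul_of_nonneg_right hDcard hT0.le
    linarith
  have hR0 : 0 ≤ R := Finset.sum_nonneg (fun d _ => cv_rd_nonneg d S N)
  have hs : (mt w D S N : ℝ) ≤ M := by
    have : mt w D S N ≤ S.card := Finset.card_le_card (Finset.filter_subset _ _)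
    rw [hM]
    exact_mod_cast this
  have hLT : L * T ≤ η * M / L := by
    rw [le_div_iff₀ hL0]
    have e1 : L * T * L = (X / L ^ K) * (1 / L) := by
      rw [hT]
      field_simp
      try ring
    rw [e1]
    have e2 : 1 / L ≤ η := by
      rw [div_le_iff₀ hL0]
      exact hL2
    calc (X / L ^ K) * (1 / L) ≤ M * η := mul_le_mul hcard e2 (by positivity) hM0.le
      _ = η * M := mul_comm _ _
  have hmain := conversion r R c (mt w D S N) M L η (L * T) (Real.log T) hη hη1 hc1 hL1 hs hM0 hR hR0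
    ha hb hlT hT2 hLT hL2
  obtain ⟨hd1, hd2⟩ := cv_count D S B N hDB
  have hd1' : (cnt D S N : ℝ) ≤ r := by
    rw [hr]
    exact_mod_cast hd1
  have hd2' : r ≤ (cnt D S N : ℝ) + L ^ 3 := by
    have h1 : r ≤ (cnt D S N : ℝ) + (B : ℝ) ^ 3 := by
      rw [hr]
      exact_mod_cast hd2
    have h2 : (B : ℝ) ^ 3 ≤ L ^ 3 := pow_le_pow_left₀ (by positivity) hBL 3
    linarith
  have he : L ^ 3 ≤ η * c * M / L := by
    rw [le_div_iff₀ hL0]
    have e1 : L ^ 3 * L ≤ η * (X / L ^ K) := by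
      rw [← mul_div_assoc, le_div_iff₀ (by positivity)]
      calc L ^ 3 * L * L ^ K = L ^ (K + 4) := by ring
        _ ≤ η * X := hpow
    have e2 : η * (X / L ^ K) ≤ η * M := mul_le_mul_of_nonneg_left hcard hη.le
    have e3 : η * M ≤ η * c * M := by
      calc η * M = η * 1 * M := by ring
        _ ≤ η * c * M := by gcongr
    linarith
  have e5 : 5 * η * c * M / L = 4 * η * c * M / L + η * c * M / L := by ring
  rw [e5]
  rw [abs_le] at hmain ⊢
  constructor <;> linarith [hmain.1, hmain.2]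

end Pool.Agent.Lib.MP_5d7b92_nt.UA
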