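import Pool.Agent.Lib.MP_5d7b92_nt.UA.Defs

/-!
# Sm: the smooth part

PROOFS. `sp w m = ∏_{p ≤ w} p^{v_p(m)}`. Its factorization is that of m restricted to the primes ≤ w (`Nat.factorization_prod_pow_eq_self`-type lemmas,
or: m = ∏_{p | m} p^{v_p(m)} (`Nat.factorization_prod_pow_eq_self`, `Nat.prod_primeFactors_prod_factorization`...); p^{v_p(m)} is coprime to q^{v_q(m)}
and divides m, so the product divides m: `Finset.prod_primes_dvd`-like: `Finset.prod_dvd_of_coprime`).
`sp_cop`: if a prime p ≤ w divided m / sp w m then p^{v_p(m)+1} | m (since p^{v_p(m)} | sp w m), contradiction (`Nat.pow_succ_factorization_not_dvd`).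
Primes dividing `primorial w` are ≤ w (`Nat.Prime.dvd_primorial_iff`).
`sp_unique`: for p ≤ w prime: v_p(d e) = v_p(d) + v_p(e) = v_p(d) because p | primorial w is coprime to e; and d = ∏_{p ≤ w} p^{v_p(d)} since all
its primes are ≤ w.
`sum_sg`: for s ∈ S, s < N put m = N - s ≥ 1. The d ∈ D with d | m and (m/d, W) = 1 are exactly d = sp w m if sp w m ∈ D (by `sp_unique` with e = m/d;
conversely `sp_dvd`, `sp_cop`), none otherwise. Write both sides as sums over s of indicator sums (`Finset.card_filter`, `Finset.sum_comm`).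
-/

open Finset Pool.Agent.Lib.GT Pool.Agent.Lib.SW

namespace Pool.Agent.Lib.MP_5d7b92_nt.UA

theorem sp_pos (w m : ℕ) : 0 < sp w m := by
  unfold sp
  exact prod_pos fun p hp => pow_pos (mem_PR.1 hp).2.pos _

theorem sp_fact (w m q : ℕ) :
    (sp w m).factorization q = if q ∈ PR w then m.factorization q else 0 := by
  unfold sp
  rw [Nat.factorization_prod (fun p hp => pow_ne_zero _ (mem_PR.1 hp).2.ne_zero),
    Finsupp.finsetSum_apply]
  have h1 : ∀ p ∈ PR w, (p ^ m.factorization p).factorization q =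
      if p = q then m.factorization p else 0 := by
    intro p hp
    rw [(mem_PR.1 hp).2.factorization_pow, Finsupp.single_apply]
  rw [sum_congr rfl h1, sum_ite_eq']

theorem sp_dvd (w m : ℕ) (hm : m ≠ 0) : sp w m ∣ m := by
  rw [← Nat.factorization_le_iff_dvd (sp_pos w m).ne' hm]
  intro q
  rw [sp_fact]
  split_ifs
  · exact le_rfl
  · exact Nat.zero_le _

theorem sp_prime_le {w m p : ℕ} (hp : p.Prime) (h : p ∣ sp w m) : p ≤ w := by
  have h1 : 0 < (sp w m).factorization p := hp.factorization_pos_of_dvd (sp_pos w m).ne' h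
  rw [sp_fact] at h1
  by_contra hcon
  rw [if_neg (fun h2 => hcon (mem_PR.1 h2).1)] at h1
  exact lt_irrefl 0 h1

theorem sp_cop (w m : ℕ) (hm : m ≠ 0) : Nat.Coprime (m / sp w m) (primorial w) := by
  refine Nat.coprime_of_dvd fun p hp h1 h2 => ?_
  rw [hp.dvd_primorial_iff] at h2
  have hdv := sp_dvd w m hm
  have h3 : m / sp w m ≠ 0 := (Nat.div_pos (Nat.le_of_dvd (Nat.pos_of_ne_zero hm) hdv)
    (sp_pos w m)).ne'
  have h4 : 0 < (m / sp w m).factorization p := hp.factorization_pos_of_dvd h3 h1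
  rw [Nat.factorization_div hdv, Finsupp.coe_tsub, Pi.sub_apply, sp_fact,
    if_pos (mem_PR.2 ⟨h2, hp⟩), Nat.sub_self] at h4
  exact lt_irrefl 0 h4

theorem sp_unique {w d e : ℕ} (hd : d ≠ 0) (he : e ≠ 0)
    (hds : ∀ p : ℕ, p.Prime → p ∣ d → p ≤ w) (hc : Nat.Coprime e (primorial w)) :
    sp w (d * e) = d := by
  refine Nat.eq_of_factorization_eq (sp_pos w (d * e)).ne' hd fun q => ?_
  rw [sp_fact]
  split_ifs with hq
  · obtain ⟨hq1, hq2⟩ := mem_PR.1 hq
    rw [Nat.factorization_mul hd he, Finsupp.coe_add, Pi.add_apply]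
    have h1 : e.factorization q = 0 := by
      refine Nat.factorization_eq_zero_of_not_dvd fun h2 => ?_
      have h3 : q ∣ primorial w := hq2.dvd_primorial_iff.2 hq1
      have h4 : q ∣ Nat.gcd e (primorial w) := Nat.dvd_gcd h2 h3
      rw [hc] at h4
      exact hq2.one_lt.ne' (Nat.dvd_one.1 h4)
    rw [h1, add_zero]
  · symm
    by_cases hp : q.Prime
    · refine Nat.factorization_eq_zero_of_not_dvd fun h2 => hq (mem_PR.2 ⟨hds q hp h2, hp⟩)
    · exact Nat.factorization_eq_zero_of_not_prime _ hp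

theorem sum_sg (w : ℕ) (D S : Finset ℕ) (N : ℕ)
    (hD : ∀ d ∈ D, 1 ≤ d ∧ ∀ p : ℕ, p.Prime → p ∣ d → p ≤ w) :
    ∑ d ∈ D, sg w d S N = mt w D S N := by
  unfold sg mt
  have h1 : ∀ d ∈ D, (S.filter (fun s => s < N ∧ d ∣ N - s ∧
      Nat.Coprime ((N - s) / d) (primorial w))).card =
      ∑ s ∈ S, (if s < N ∧ d ∣ N - s ∧ Nat.Coprime ((N - s) / d) (primorial w) then 1 else 0) :=
    fun d _ => card_filter _ _
  rw [sum_congr rfl h1, sum_comm, card_filter]
  refine sum_congr rfl fun s _ => ?_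
  by_cases hs : s < N
  · have hm : N - s ≠ 0 := by omega
    have h2 : ∀ d ∈ D, (if s < N ∧ d ∣ N - s ∧ Nat.Coprime ((N - s) / d) (primorial w)
        then 1 else 0) = if sp w (N - s) = d then 1 else 0 := by
      intro d hd
      obtain ⟨hd1, hd2⟩ := hD d hd
      by_cases h3 : sp w (N - s) = d
      · rw [if_pos h3, if_pos]
        refine ⟨hs, ?_, ?_⟩
        · rw [← h3]
          exact sp_dvd w _ hm
        · rw [← h3]
          exact sp_cop w _ hm
      · rw [if_neg h3, if_neg]
        rintro ⟨-, h4, h5⟩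
        refine h3 ?_
        obtain ⟨e, he⟩ := h4
        have hd0 : d ≠ 0 := by omega
        have he0 : e ≠ 0 := by
          rintro rfl
          exact hm (by rw [he, mul_zero])
        rw [he, Nat.mul_div_cancel_left _ (Nat.pos_of_ne_zero hd0)] at h5
        rw [he]
        exact sp_unique hd0 he0 hd2 h5
    rw [sum_congr rfl h2, sum_ite_eq]
    by_cases h3 : sp w (N - s) ∈ D
    · rw [if_pos h3, if_pos ⟨hs, h3⟩]
    · rw [if_neg h3, if_neg (fun h4 => h3 h4.2)]
  · rw [if_neg (fun h4 => hs h4.1)]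
    exact sum_eq_zero fun d _ => if_neg fun h4 => hs h4.1

end Pool.Agent.Lib.MP_5d7b92_nt.UA
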