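import Pool.Agent.Lib.MP_5d7b92_nt.UA.TB
import Pool.Agent.Lib.MP_5d7b92_nt.UA.CV
import Pool.Agent.Lib.MP_5d7b92_nt.UA.Sm

/-!
# CP: the local-global principle with cofactors (Theorem M)
-/

open Finset Pool.Agent.Lib.GT Pool.Agent.Lib.SW

namespace Pool.Agent.Lib.MP_5d7b92_nt.UA

/-- Markov: the exceptional set -/
theorem markov (X : ℕ) (F : ℕ → ℝ) (hF : ∀ n, 0 ≤ F n) (A t : ℝ) (ht : 0 < t)
    (h : ∑ N ∈ Icc 1 (2 * X), F N ≤ A) :
    (((Icc 1 (2 * X)).filter (fun N => t < F N)).card : ℝ) ≤ A / t := by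
  rw [le_div_iff₀ ht]
  calc (((Icc 1 (2 * X)).filter (fun N => t < F N)).card : ℝ) * t
      = ∑ _N ∈ (Icc 1 (2 * X)).filter (fun N => t < F N), t := by
        rw [Finset.sum_const, nsmul_eq_mul]
    _ ≤ ∑ N ∈ (Icc 1 (2 * X)).filter (fun N => t < F N), F N :=
        Finset.sum_le_sum fun N hN => (mem_filter.1 hN).2.le
    _ ≤ ∑ N ∈ Icc 1 (2 * X), F N :=
        Finset.sum_le_sum_of_subset_of_nonneg (filter_subset _ _) fun N _ _ => hF N
    _ ≤ A := h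

theorem cofactor_principle (K : ℕ) (ε : ℝ) (hε : 0 < ε) :
    ∃ X₀ : ℕ, ∀ X : ℕ, X₀ ≤ X → ∀ w : ℕ, |(w : ℝ) - Real.log (Real.log X)| ≤ 3 / 2 →
      ∀ S : Finset ℕ, S ⊆ Icc 1 X → X / (Real.log X) ^ K ≤ (S.card : ℝ) →
      ∃ B : Finset ℕ, (B.card : ℝ) ≤ ε * X ∧ ∀ N ∈ Icc 1 (2 * X), N ∉ B →
        ∀ D : Finset ℕ, D ⊆ DM w X →
        |(cnt D S N : ℝ) - cW w * mt w D S N / Real.log X| ≤
          ε * cW w * S.card / Real.log X := by
  obtain ⟨η, hη, hη1, hη5⟩ : ∃ η : ℝ, 0 < η ∧ η ≤ 1 ∧ 5 * η ≤ ε :=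
    ⟨min 1 (ε / 5), lt_min one_pos (by linarith), min_le_left _ _, by
      have := min_le_right 1 (ε / 5)
      linarith⟩
  obtain ⟨X₁, hX₁⟩ := total_l1 K (ε * η) (by positivity)
  obtain ⟨X₂, hX₂⟩ := convert K η hη hη1
  obtain ⟨X₃, hX₃⟩ := Filter.eventually_atTop.1 (eventually_log_ge 1)
  refine ⟨max X₁ (max X₂ (max X₃ 1)), fun X hX w hw S hS hK => ?_⟩
  have hXa : X₁ ≤ X := (le_max_left _ _).trans hX
  have hXb : X₂ ≤ X := ((le_max_left _ _).trans (le_max_right _ _)).trans hX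
  have hXc : X₃ ≤ X := (((le_max_left _ _).trans (le_max_right _ _)).trans (le_max_right _ _)).trans hX
  have hXd : 1 ≤ X := (((le_max_right _ _).trans (le_max_right _ _)).trans (le_max_right _ _)).trans hX
  have hL1 := hX₃ X hXc
  have hL0 : 0 < Real.log (X : ℝ) := by linarith
  have hXr : (0 : ℝ) < X := by exact_mod_cast hXd
  have hS0 : 0 < (S.card : ℝ) := lt_of_lt_of_le (by positivity) hK
  have hc := cW_pos w
  obtain ⟨F, hF⟩ : ∃ F : ℕ → ℝ, F = fun N => ∑ d ∈ DM w X, |rd d S N - cW w * sg w d S N| :=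
    ⟨_, rfl⟩
  have hF0 : ∀ n, 0 ≤ F n := by
    intro n
    rw [hF]
    exact Finset.sum_nonneg fun _ _ => abs_nonneg _
  have h1 : ∑ N ∈ Icc 1 (2 * X), F N ≤ ε * η * cW w * X * S.card := by
    rw [hF]
    exact hX₁ X hXa w hw S hS hK
  have h2 := markov X F hF0 _ (η * cW w * S.card) (by positivity) h1
  refine ⟨(Icc 1 (2 * X)).filter (fun N => η * cW w * S.card < F N), ?_, ?_⟩
  · refine h2.trans (le_of_eq ?_)
    field_simp
  · intro N hN hNB D hD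
    have h3 : F N ≤ η * cW w * S.card := by
      by_contra hcon
      exact hNB (mem_filter.2 ⟨hN, lt_of_not_ge hcon⟩)
    have h4 : |∑ d ∈ D, rd d S N - cW w * mt w D S N| ≤ η * cW w * S.card := by
      have e1 : ((mt w D S N : ℕ) : ℝ) = ∑ d ∈ D, (sg w d S N : ℝ) := by
        rw [← sum_sg w D S N (fun d hd => ⟨(mem_DM.1 (hD hd)).1.1, (mem_DM.1 (hD hd)).2⟩)]
        push_cast
        rfl
      rw [e1, Finset.mul_sum, ← Finset.sum_sub_distrib]
      calc |∑ d ∈ D, (rd d S N - cW w * (sg w d S N : ℝ))|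
          ≤ ∑ d ∈ D, |rd d S N - cW w * (sg w d S N : ℝ)| := Finset.abs_sum_le_sum_abs _ _
        _ ≤ ∑ d ∈ DM w X, |rd d S N - cW w * (sg w d S N : ℝ)| :=
            Finset.sum_le_sum_of_subset_of_nonneg hD fun _ _ _ => abs_nonneg _
        _ ≤ η * cW w * S.card := by
            rw [hF] at h3
            exact h3
    refine (hX₂ X hXb w S hS hK N hN D hD h4).trans ?_
    gcongr

end Pool.Agent.Lib.MP_5d7b92_nt.UA
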