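import Pool.Agent.Lib.SW.LG3

/-!
# UA (MP_5d7b92): almost all even numbers up to a small cofactor. Definitions

`w` is a natural number with |w - loglog X| ≤ 1 (or 2), W = `primorial w`.
-/

open Finset Pool.Agent.Lib.GT Pool.Agent.Lib.SW

namespace Pool.Agent.Lib.MP_5d7b92_nt.UA

/-- `W/φ(W)` for `W` the product of the primes `≤ w` -/
noncomputable def cW (w : ℕ) : ℝ := (primorial w : ℝ) / ((primorial w).totient : ℝ)

/-- the primes `≤ w` -/
def PR (w : ℕ) : Finset ℕ := (range (w + 1)).filter Nat.Prime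

/-- the `w`-smooth part of `m` -/
def sp (w m : ℕ) : ℕ := ∏ p ∈ PR w, p ^ (m.factorization p)

/-- number of prime factors, with multiplicity -/
def bO (m : ℕ) : ℕ := m.primeFactorsList.length

/-- number of primes `≤ w` dividing `m` -/
def om (w m : ℕ) : ℕ := ((PR w).filter (fun p => p ∣ m)).card

/-- `∑_{p ≤ w} 1/p` -/
noncomputable def P1 (w : ℕ) : ℝ := ∑ p ∈ PR w, 1 / (p : ℝ)

/-- the `w`-smooth numbers `≤ log X`: all admissible cofactors -/
noncomputable def DM (w X : ℕ) : Finset ℕ :=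
  (Icc 1 ⌊Real.log X⌋₊).filter (fun d => ∀ p ∈ d.primeFactors, p ≤ w)

/-- the small cofactors: `d ≤ (loglog X)^C`, `Ω(d) ≤ (1+ε) loglogloglog X` -/
noncomputable def DA (C ε : ℝ) (w X : ℕ) : Finset ℕ :=
  (DM w X).filter (fun d => (d : ℝ) ≤ (Real.log (Real.log X)) ^ C ∧
    (bO d : ℝ) ≤ (1 + ε) * Real.log (Real.log (Real.log (Real.log X))))

/-- `∑ log q` over the `s ∈ S`, `s < N`, with `N - s = d q`, `q` prime -/
noncomputable def rd (d : ℕ) (S : Finset ℕ) (N : ℕ) : ℝ :=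
  ∑ s ∈ S.filter (fun s => s < N ∧ d ∣ N - s), lam ((N - s) / d)

/-- the number of `s ∈ S`, `s < N`, with `N - s = d e`, `e` coprime to `W` -/
def sg (w d : ℕ) (S : Finset ℕ) (N : ℕ) : ℕ :=
  (S.filter (fun s => s < N ∧ d ∣ N - s ∧ Nat.Coprime ((N - s) / d) (primorial w))).card

/-- the number of `s ∈ S`, `s < N`, such that the `w`-smooth part of `N - s` is in `D` -/
def mt (w : ℕ) (D S : Finset ℕ) (N : ℕ) : ℕ :=
  (S.filter (fun s => s < N ∧ sp w (N - s) ∈ D)).card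

/-- the number of `s ∈ S`, `s < N`, with `N - s = d q`, `q` prime -/
def cd (d : ℕ) (S : Finset ℕ) (N : ℕ) : ℕ :=
  (S.filter (fun s => s < N ∧ d ∣ N - s ∧ ((N - s) / d).Prime)).card

/-- the number of `s ∈ S`, `s < N`, with `N - s = d q`, `q` prime, `d ∈ D` -/
def cnt (D S : Finset ℕ) (N : ℕ) : ℕ :=
  (S.filter (fun s => s < N ∧ ∃ d ∈ D, d ∣ N - s ∧ ((N - s) / d).Prime)).card

/-- the elements of `S` below `N` -/
def below (S : Finset ℕ) (N : ℕ) : Finset ℕ := S.filter (fun s => s < N)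

theorem cW_pos (w : ℕ) : 0 < cW w := by
  unfold cW
  have h1 : (0 : ℝ) < primorial w := by exact_mod_cast primorial_pos w
  have h2 : (0 : ℝ) < (primorial w).totient := by
    exact_mod_cast Nat.totient_pos.mpr (primorial_pos w)
  positivity

theorem one_le_cW (w : ℕ) : 1 ≤ cW w := by
  unfold cW
  rw [one_le_div (by exact_mod_cast Nat.totient_pos.mpr (primorial_pos w))]
  exact_mod_cast Nat.totient_le _

theorem cW_le (w : ℕ) : cW w ≤ 2 ^ w := by
  unfold cW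
  have h2 : (0 : ℝ) < (primorial w).totient := by
    exact_mod_cast Nat.totient_pos.mpr (primorial_pos w)
  rw [div_le_iff₀ h2]
  exact_mod_cast primorial_le_two_pow w

theorem mem_PR {w p : ℕ} : p ∈ PR w ↔ p ≤ w ∧ p.Prime := by
  unfold PR
  rw [mem_filter, mem_range, Nat.lt_succ_iff]

theorem mem_DM {w X d : ℕ} : d ∈ DM w X ↔
    (1 ≤ d ∧ (d : ℝ) ≤ Real.log X) ∧ ∀ p : ℕ, p.Prime → p ∣ d → p ≤ w := by
  unfold DM
  rw [mem_filter, mem_Icc]
  constructor
  · rintro ⟨⟨h1, h2⟩, h3⟩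
    have h4 : (0 : ℝ) ≤ Real.log X := Real.log_natCast_nonneg X
    exact ⟨⟨h1, (Nat.le_floor_iff h4).1 h2⟩,
      fun p hp hpd => h3 p (Nat.mem_primeFactors.2 ⟨hp, hpd, by omega⟩)⟩
  · rintro ⟨⟨h1, h2⟩, h3⟩
    exact ⟨⟨h1, Nat.le_floor h2⟩,
      fun p hp => h3 p (Nat.prime_of_mem_primeFactors hp) (Nat.dvd_of_mem_primeFactors hp)⟩

end Pool.Agent.Lib.MP_5d7b92_nt.UA
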