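import Pool.Agent.Lib.MP_5d7b92_nt.UA.Defs

/-!
# EP: ∑_{d w-smooth} 1/d = ∏_{p ≤ w} (1 - 1/p)^(-1) = W/φ(W)

PROOF. Mathlib: `EulerProduct.summable_and_hasSum_smoothNumbers_prod_primesBelow_geometric` (f : ℕ →*₀ ℝ, f n = 1/n, N = w + 1; `Nat.primesBelow (w+1)`, `Nat.smoothNumbers`,
`Nat.mem_smoothNumbers'`): the sum over all (w+1)-smooth numbers of 1/d is ∏_{p < w+1} (1 - 1/p)^(-1). D is a finite set of smooth numbers: `Summable.sum_le_tsum`-type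
(over the subtype: D.attach / `Finset.subtype`). And cW w = 1/LG3V w (`LG3_V` in SW/LG3), LG3V w = ∏_{p ∈ (range (w+1)).filter Nat.Prime} (1 - 1/p).
-/

open Finset Pool.Agent.Lib.GT Pool.Agent.Lib.SW

namespace Pool.Agent.Lib.MP_5d7b92_nt.UA

/-- `n ↦ 1/n` as a multiplicative map -/
private noncomputable def epf : ℕ →* ℝ where
  toFun n := ((n : ℝ))⁻¹
  map_one' := by simp
  map_mul' a b := by
    push_cast
    rw [mul_inv]

private theorem epf_lt {p : ℕ} (hp : p.Prime) : ‖epf p‖ < 1 := by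
  have h1 : (2 : ℝ) ≤ p := by exact_mod_cast hp.two_le
  show ‖((p : ℝ))⁻¹‖ < 1
  rw [norm_inv, Real.norm_of_nonneg (by linarith)]
  exact inv_lt_one_of_one_lt₀ (by linarith)

theorem sum_inv_le (w : ℕ) (D : Finset ℕ)
    (hD : ∀ d ∈ D, 1 ≤ d ∧ ∀ p : ℕ, p.Prime → p ∣ d → p ≤ w) :
    ∑ d ∈ D, 1 / (d : ℝ) ≤ cW w := by
  obtain ⟨h1, h2⟩ := EulerProduct.summable_and_hasSum_smoothNumbers_prod_primesBelow_geometric
    (f := epf) (fun hp => epf_lt hp) (w + 1)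
  have h3 : ∀ d ∈ D, d ∈ (w + 1).smoothNumbers := by
    intro d hd
    rw [Nat.mem_smoothNumbers']
    intro p hp hpd
    exact Nat.lt_succ_of_le ((hD d hd).2 p hp hpd)
  have h4 : ∑ d ∈ D, 1 / (d : ℝ) = ∑ m ∈ D.attach.image
      (fun d : {x // x ∈ D} => (⟨d.1, h3 d.1 d.2⟩ : (w + 1).smoothNumbers)), epf m := by
    rw [sum_image]
    · rw [← sum_attach]
      refine sum_congr rfl fun d _ => ?_
      show 1 / ((d.1 : ℕ) : ℝ) = (((d.1 : ℕ) : ℝ))⁻¹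
      rw [one_div]
    · intro a _ b _ hab
      exact Subtype.ext (congrArg (fun x : (w + 1).smoothNumbers => (x : ℕ)) hab)
  have h5 : ∏ p ∈ (w + 1).primesBelow, (1 - epf p)⁻¹ = cW w := by
    have h6 := LG3_V w
    unfold cW
    have h7 : (primorial w : ℝ) / ((primorial w).totient : ℝ) = (LG3V w)⁻¹ := by
      rw [← h6, inv_div]
    rw [h7]
    unfold LG3V
    rw [← prod_inv_distrib]
    refine prod_congr rfl fun p _ => ?_
    show (1 - ((p : ℝ))⁻¹)⁻¹ = (1 - 1 / (p : ℝ))⁻¹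
    rw [one_div]
  rw [h4, ← h5]
  refine sum_le_hasSum _ (fun m _ => ?_) h2
  show 0 ≤ (((m : ℕ) : ℝ))⁻¹
  positivity

end Pool.Agent.Lib.MP_5d7b92_nt.UA
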