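import Pool.Agent.Lib.MP_5d7b92_nt.UA.Defs

/-!
# EX1: the mean of the main term

For `s ≤ Z` the number of `N ∈ (Z, 2Z]` with `N - s = d m`, `(m, W) = 1`, is at least `(Z/d) φ(W)/W - 2 W`.
-/

open Finset Pool.Agent.Lib.GT Pool.Agent.Lib.SW

namespace Pool.Agent.Lib.MP_5d7b92_nt.UA

theorem EX1_block (W n k : ℕ) :
    ((Ico n (n + k * W)).filter (fun x => W.Coprime x)).card = k * W.totient := by
  induction k with
  | zero => simp
  | succ k ih =>
    have h1 : Ico n (n + (k + 1) * W) = Ico n (n + k * W) ∪ Ico (n + k * W) (n + k * W + W) := by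
      rw [Ico_union_Ico_eq_Ico (by omega) (by omega)]
      congr 1
      ring
    rw [h1, filter_union, card_union_of_disjoint, ih, Nat.filter_coprime_Ico_eq_totient]
    · ring
    · rw [disjoint_left]
      intro x hx hy
      have h2 := mem_Ico.1 (mem_filter.1 hx).1
      have h3 := mem_Ico.1 (mem_filter.1 hy).1
      omega

theorem EX1_low (W n L : ℕ) (hW : 0 < W) :
    (L : ℝ) * ((W.totient : ℝ) / W) - W.totient ≤
      (((Ico n (n + L)).filter (fun x => W.Coprime x)).card : ℝ) := by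
  have hWr : (0 : ℝ) < W := by exact_mod_cast hW
  have h1 := EX1_block W n (L / W)
  have h2 : ((Ico n (n + L / W * W)).filter (fun x => W.Coprime x)) ⊆
      ((Ico n (n + L)).filter (fun x => W.Coprime x)) := by
    apply filter_subset_filter
    apply Ico_subset_Ico_right
    have := Nat.div_mul_le_self L W
    omega
  have h3 := card_le_card h2
  rw [h1] at h3
  have h4 : (((L / W * W.totient : ℕ)) : ℝ) ≤
      (((Ico n (n + L)).filter (fun x => W.Coprime x)).card : ℝ) := by exact_mod_cast h3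
  refine le_trans ?_ h4
  push_cast
  have h5 : (L : ℝ) / W - 1 ≤ ((L / W : ℕ) : ℝ) := by
    have h6 : L < W * (L / W + 1) := Nat.lt_mul_div_succ L hW
    have h7 : (L : ℝ) < W * ((L / W : ℕ) + 1) := by exact_mod_cast h6
    have h8 : (L : ℝ) / W < (L / W : ℕ) + 1 := by
      rw [div_lt_iff₀ hWr]
      linarith
    linarith
  have h6 : (0 : ℝ) ≤ W.totient := Nat.cast_nonneg _
  calc (L : ℝ) * ((W.totient : ℝ) / W) - W.totient = ((L : ℝ) / W - 1) * W.totient := by ring
    _ ≤ ((L / W : ℕ) : ℝ) * W.totient := mul_le_mul_of_nonneg_right h5 h6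

/-- for one `s` -/
theorem EX1_one (w d Z s : ℕ) (hd : 1 ≤ d) (hs : s ≤ Z) :
    (Z : ℝ) / (d * cW w) - 2 * primorial w ≤
      (((Ioc Z (2 * Z)).filter (fun N => s < N ∧ d ∣ N - s ∧
        Nat.Coprime ((N - s) / d) (primorial w))).card : ℝ) := by
  obtain ⟨W, hW⟩ : ∃ W, W = primorial w := ⟨_, rfl⟩
  have hW0 : 0 < W := by rw [hW]; exact primorial_pos w
  have hWr : (0 : ℝ) < W := by exact_mod_cast hW0
  have hφ : (0 : ℝ) < W.totient := by exact_mod_cast Nat.totient_pos.mpr hW0
  have hφW : (W.totient : ℝ) ≤ W := by exact_mod_cast Nat.totient_le W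
  have hW1 : (1 : ℝ) ≤ W := by exact_mod_cast hW0
  have hdr : (0 : ℝ) < d := by exact_mod_cast hd
  obtain ⟨A, hA⟩ : ∃ A, A = (Z - s) / d := ⟨_, rfl⟩
  obtain ⟨B, hB⟩ : ∃ B, B = (2 * Z - s) / d := ⟨_, rfl⟩
  have hAB : A ≤ B := by
    rw [hA, hB]
    exact Nat.div_le_div_right (by omega)
  have hle := EX1_low W (A + 1) (B - A) hW0
  have hcard : ((Ico (A + 1) (A + 1 + (B - A))).filter (fun x => W.Coprime x)).card ≤
      ((Ioc Z (2 * Z)).filter (fun N => s < N ∧ d ∣ N - s ∧
        Nat.Coprime ((N - s) / d) (primorial w))).card := by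
    refine card_le_card_of_injOn (fun m => s + d * m) ?_ ?_
    · intro m hm
      simp only [coe_filter, mem_Ico, Set.mem_ofPred_eq] at hm
      obtain ⟨⟨hm1, hm2⟩, hm3⟩ := hm
      have hm2' : m ≤ B := by omega
      have e1 : Z - s < d * m := by
        have h1 : Z - s < d * ((Z - s) / d + 1) := Nat.lt_mul_div_succ _ hd
        rw [← hA] at h1
        have h2 : d * (A + 1) ≤ d * m := Nat.mul_le_mul_left _ hm1
        omega
      have e2 : d * m ≤ 2 * Z - s := by
        have h1 : d * B ≤ 2 * Z - s := by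
          rw [hB]
          exact Nat.mul_div_le _ _
        have h2 : d * m ≤ d * B := Nat.mul_le_mul_left _ hm2'
        omega
      simp only [coe_filter, mem_Ioc, Set.mem_ofPred_eq]
      have e3 : s + d * m - s = d * m := by omega
      refine ⟨⟨by omega, by omega⟩, by omega, ?_, ?_⟩
      · rw [e3]
        exact dvd_mul_right _ _
      · rw [e3, Nat.mul_div_cancel_left _ hd, ← hW]
        exact hm3.symm
    · intro a _ b _ hab
      have h1 : s + d * a = s + d * b := hab
      have h2 : d * a = d * b := by omega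
      exact Nat.eq_of_mul_eq_mul_left hd h2
  have hcard' : (((Ico (A + 1) (A + 1 + (B - A))).filter (fun x => W.Coprime x)).card : ℝ) ≤
      (((Ioc Z (2 * Z)).filter (fun N => s < N ∧ d ∣ N - s ∧
        Nat.Coprime ((N - s) / d) (primorial w))).card : ℝ) := by exact_mod_cast hcard
  refine le_trans ?_ (hle.trans hcard')
  have hL : (Z : ℝ) / d - 1 ≤ ((B - A : ℕ) : ℝ) := by
    rw [Nat.cast_sub hAB]
    have h1 : 2 * Z - s < d * ((2 * Z - s) / d + 1) := Nat.lt_mul_div_succ _ hd
    rw [← hB] at h1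
    have h2 : d * A ≤ Z - s := by
      rw [hA]
      exact Nat.mul_div_le _ _
    have h3 : d * A + Z < d * (B + 1) := by omega
    have h4 : (d : ℝ) * A + Z < d * (B + 1) := by exact_mod_cast h3
    have h5 : (Z : ℝ) / d < B + 1 - A := by
      rw [div_lt_iff₀ hdr]
      nlinarith
    linarith
  have hr : (W.totient : ℝ) / W ≤ 1 := by
    rw [div_le_one hWr]
    exact hφW
  have hr0 : 0 ≤ (W.totient : ℝ) / W := by positivity
  have e : (Z : ℝ) / (d * cW w) = Z / d * ((W.totient : ℝ) / W) := by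
    unfold cW
    rw [← hW]
    field_simp
  rw [e, ← hW]
  have h6 := mul_le_mul_of_nonneg_right hL hr0
  nlinarith

theorem sum_sg_lower (w d Z : ℕ) (hd : 1 ≤ d) (S : Finset ℕ) (hS : S ⊆ Icc 1 Z) :
    (S.card : ℝ) * (Z / (d * cW w) - 2 * primorial w) ≤
      ∑ N ∈ Ioc Z (2 * Z), (sg w d S N : ℝ) := by
  have h1 : ∑ N ∈ Ioc Z (2 * Z), sg w d S N =
      ∑ s ∈ S, ((Ioc Z (2 * Z)).filter (fun N => s < N ∧ d ∣ N - s ∧
        Nat.Coprime ((N - s) / d) (primorial w))).card := by
    unfold sg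
    simp only [card_filter]
    exact Finset.sum_comm
  have h2 : ∑ N ∈ Ioc Z (2 * Z), (sg w d S N : ℝ) =
      ∑ s ∈ S, (((Ioc Z (2 * Z)).filter (fun N => s < N ∧ d ∣ N - s ∧
        Nat.Coprime ((N - s) / d) (primorial w))).card : ℝ) := by
    exact_mod_cast h1
  rw [h2, ← nsmul_eq_mul, ← Finset.sum_const]
  exact Finset.sum_le_sum fun s hs => EX1_one w d Z s hd (mem_Icc.1 (hS hs)).2

end Pool.Agent.Lib.MP_5d7b92_nt.UA
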