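import Pool.Agent.Lib.MP_5d7b92_nt.UA.Defs
import Pool.Agent.Lib.SW.SP5

/-!
# L1: the L1 form of the class-wise second moment

PROOF. W = `primorial w` ≤ 4^w ≤ 16 (log X)^1.4 ≤ X for X large. `sparse_l2_gen` K ε' with ε' = ε²/3 (SW/SP5, proved).
For b < W, F_b = {N ≤ 2X : N = b mod W} has at most 2X/W + 1 ≤ 3X/W elements (`Nat.count_modEq_card` or as in LG2 `card_class_ge`, upper bound; or: the map
N ↦ N / W is injective on F_b with values in [0, 2X/W]). Cauchy-Schwarz (`Finset.sum_mul_sq_le_sq_mul_sq` or `inner_mul_le_norm_mul_norm`, `sq_sum_le_card_mul_sum_sq`):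
(∑_{F_b} |rS - c #SN|)² ≤ (3X/W) · ε' (X/W) c² (|Sa_b|² + P²) ≤ (ε (X/W) c (|Sa_b| + P))², P = X/(log X)^K, c = cW w. Take square roots
(`abs_le_of_sq_le_sq`/`pow_le_pow_left`), sum over b < W (`Finset.sum_fiberwise`-type: N ↦ N % W), `sum_card_Sa` (LG2): ∑_b |Sa_b| = |S| φ(W):
total ≤ ε (X/W) c (|S| φ(W) + W P) = ε X (|S| + c P).
-/

open Finset Pool.Agent.Lib.GT Pool.Agent.Lib.SW

namespace Pool.Agent.Lib.MP_5d7b92_nt.UA

private theorem card_class_le (M W b : ℕ) (hW : 0 < W) :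
    (((Icc 1 M).filter (fun N => N ≡ b [MOD W])).card : ℝ) ≤ (M : ℝ) / W + 1 := by
  have h0 : Icc 1 M = Ioc 0 M := by
    ext x
    rw [mem_Icc, mem_Ioc]
    omega
  have h1 := Nat.Ioc_filter_modEq_card 0 M hW b
  rw [h0]
  have h3 : ((((Ioc 0 M).filter (fun N => N ≡ b [MOD W])).card : ℤ) : ℚ) =
      ((max (⌊((M : ℚ) - b) / (W : ℚ)⌋ - ⌊(((0 : ℕ) : ℚ) - b) / (W : ℚ)⌋) 0 : ℤ) : ℚ) := by
    rw [h1]
  have h4 : ((max (⌊((M : ℚ) - b) / (W : ℚ)⌋ - ⌊(((0 : ℕ) : ℚ) - b) / (W : ℚ)⌋) 0 : ℤ) : ℚ) ≤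
      (M : ℚ) / W + 1 := by
    have h5 := Int.floor_le (((M : ℚ) - b) / (W : ℚ))
    have h6 := Int.sub_one_lt_floor ((((0 : ℕ) : ℚ) - b) / (W : ℚ))
    push_cast at h6 ⊢
    rw [max_le_iff]
    constructor
    · have h8 : ((M : ℚ) - b) / W = (M : ℚ) / W + (0 - (b : ℚ)) / W := by ring
      linarith
    · positivity
  have h9 : ((((((Ioc 0 M).filter (fun N => N ≡ b [MOD W])).card : ℕ) : ℚ)) : ℝ) ≤
      (((M : ℚ) / W + 1 : ℚ) : ℝ) := by
    have h10 : ((((Ioc 0 M).filter (fun N => N ≡ b [MOD W])).card : ℕ) : ℚ) ≤ (M : ℚ) / W + 1 := by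
      have h11 := h3.le.trans h4
      exact_mod_cast h11
    exact_mod_cast h10
  push_cast at h9
  exact h9

theorem L1_bound (K : ℕ) (ε : ℝ) (hε : 0 < ε) :
    ∃ X₀ : ℕ, ∀ X : ℕ, X₀ ≤ X → ∀ w : ℕ, Real.log (Real.log X) - 2 ≤ w →
      (w : ℝ) ≤ Real.log (Real.log X) + 2 → ∀ S : Finset ℕ, S ⊆ Icc 1 X →
      ∑ N ∈ Icc 1 (2 * X), |rS S N - cW w * (SN (primorial w) S N).card| ≤
        ε * X * (S.card + cW w * (X / (Real.log X) ^ K)) := by
  obtain ⟨X₁, hX₁⟩ := sparse_l2_gen K (ε ^ 2 / 3) (by positivity)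
  obtain ⟨X₂, hX₂⟩ := Filter.eventually_atTop.1
    ((eventually_log_ge 100).and (eventually_log_pow 2 1 one_pos))
  refine ⟨max X₁ (max X₂ 1), fun X hX w hwa hwb S hS => ?_⟩
  have hXa : X₁ ≤ X := (le_max_left _ _).trans hX
  have hXb : X₂ ≤ X := ((le_max_left _ _).trans (le_max_right _ _)).trans hX
  have hXc : 1 ≤ X := ((le_max_right _ _).trans (le_max_right _ _)).trans hX
  obtain ⟨hL100, hLX⟩ := hX₂ X hXb
  have hXr : (0 : ℝ) < X := by exact_mod_cast hXc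
  have hW0 : 0 < primorial w := primorial_pos w
  have hWL := primorial_le_sq X w hL100 hwb
  obtain ⟨W, hW⟩ : ∃ W, W = primorial w := ⟨_, rfl⟩
  obtain ⟨P, hP⟩ : ∃ P : ℝ, P = X / (Real.log X) ^ K := ⟨_, rfl⟩
  obtain ⟨c, hc⟩ : ∃ c : ℝ, c = cW w := ⟨_, rfl⟩
  have hcdef : (primorial w : ℝ) / ((primorial w).totient : ℝ) = c := by
    rw [hc]
    rfl
  have hc0 : 0 < c := by
    rw [hc]
    exact cW_pos w
  have hmain := hX₁ X hXa w hwa hwb S hS
  rw [hcdef, ← hW, ← hP] at hmain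
  rw [← hW] at hW0 hWL ⊢
  rw [← hP, ← hc]
  have hWr : (0 : ℝ) < W := by exact_mod_cast hW0
  have hWX : (W : ℝ) ≤ X := by linarith
  have hφ : (0 : ℝ) < W.totient := by exact_mod_cast Nat.totient_pos.mpr hW0
  have hL0 : 0 < Real.log (X : ℝ) := by linarith
  have hP0 : 0 ≤ P := by
    rw [hP]
    positivity
  have hcW : c * W.totient = W := by
    rw [← hcdef, ← hW]
    field_simp
  -- one class
  have hcls : ∀ b ∈ range W, ∑ N ∈ (Icc 1 (2 * X)).filter (fun N => N % W = b),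
      |rS S N - c * (SN W S N).card| ≤ ε * (X / W) * c * ((Sa W S b).card + P) := by
    intro b hb
    have hbW : b % W = b := Nat.mod_eq_of_lt (mem_range.1 hb)
    have hfil : (Icc 1 (2 * X)).filter (fun N => N % W = b) =
        (Icc 1 (2 * X)).filter (fun N => N ≡ b [MOD W]) := by
      refine filter_congr fun N _ => ?_
      unfold Nat.ModEq
      rw [hbW]
    rw [hfil]
    have h1 := hmain b
    have h2 := card_class_le (2 * X) W b hW0
    have h3 : (((Icc 1 (2 * X)).filter (fun N => N ≡ b [MOD W])).card : ℝ) ≤ 3 * (X / W) := by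
      refine h2.trans ?_
      have h4 : 1 ≤ (X : ℝ) / W := (one_le_div hWr).2 hWX
      push_cast
      have h5 : (2 : ℝ) * X / W = 2 * (X / W) := by ring
      linarith
    have h4 := sq_sum_le_card_mul_sum_sq (s := (Icc 1 (2 * X)).filter (fun N => N ≡ b [MOD W]))
      (f := fun N => |rS S N - c * (SN W S N).card|)
    have h5 : ∑ N ∈ (Icc 1 (2 * X)).filter (fun N => N ≡ b [MOD W]),
        |rS S N - c * ((SN W S N).card : ℝ)| ^ 2 =
        ∑ N ∈ (Icc 1 (2 * X)).filter (fun N => N ≡ b [MOD W]),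
        (rS S N - c * ((SN W S N).card : ℝ)) ^ 2 := sum_congr rfl fun N _ => sq_abs _
    have h6 : (∑ N ∈ (Icc 1 (2 * X)).filter (fun N => N ≡ b [MOD W]),
        |rS S N - c * ((SN W S N).card : ℝ)|) ^ 2 ≤
        (ε * (X / W) * c * ((Sa W S b).card + P)) ^ 2 := by
      refine h4.trans ?_
      rw [h5]
      calc (((Icc 1 (2 * X)).filter (fun N => N ≡ b [MOD W])).card : ℝ) *
            ∑ N ∈ (Icc 1 (2 * X)).filter (fun N => N ≡ b [MOD W]),
            (rS S N - c * ((SN W S N).card : ℝ)) ^ 2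
          ≤ (3 * (X / W)) * (ε ^ 2 / 3 * (X / W) * c ^ 2 * (((Sa W S b).card : ℝ) ^ 2 + P ^ 2)) :=
            mul_le_mul h3 h1 (sum_nonneg fun _ _ => sq_nonneg _) (by positivity)
        _ = (ε * (X / W) * c) ^ 2 * (((Sa W S b).card : ℝ) ^ 2 + P ^ 2) := by ring
        _ ≤ (ε * (X / W) * c) ^ 2 * (((Sa W S b).card : ℝ) + P) ^ 2 := by
            apply mul_le_mul_of_nonneg_left _ (by positivity)
            have : 0 ≤ ((Sa W S b).card : ℝ) * P := by positivity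
            nlinarith
        _ = _ := by ring
    exact (pow_le_pow_iff_left₀ (sum_nonneg fun _ _ => abs_nonneg _) (by positivity)
      two_ne_zero).1 h6
  have hfib : ∑ N ∈ Icc 1 (2 * X), |rS S N - c * (SN W S N).card| =
      ∑ b ∈ range W, ∑ N ∈ (Icc 1 (2 * X)).filter (fun N => N % W = b),
        |rS S N - c * (SN W S N).card| :=
    (sum_fiberwise_of_maps_to (fun N _ => mem_range.2 (Nat.mod_lt _ hW0)) _).symm
  rw [hfib]
  refine (sum_le_sum hcls).trans ?_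
  rw [← mul_sum, sum_add_distrib, sum_const, card_range, nsmul_eq_mul]
  have h7 : ∑ b ∈ range W, ((Sa W S b).card : ℝ) = S.card * W.totient := by
    exact_mod_cast sum_card_Sa W hW0 S
  rw [h7]
  refine le_of_eq ?_
  calc ε * (X / W) * c * ((S.card : ℝ) * W.totient + W * P)
      = ε * X * ((S.card : ℝ) * ((c * W.totient) / W) + c * P * (W / W)) := by
        field_simp
    _ = ε * X * (S.card + c * P) := by
        rw [hcW, div_self hWr.ne', mul_one, mul_one]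

end Pool.Agent.Lib.MP_5d7b92_nt.UA
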