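import Pool.Agent.Lib.MP_5d7b92_nt.UA.Tr
import Pool.Agent.Lib.MP_5d7b92_nt.UA.L1

/-!
# OC: one cofactor

PROOF. F N = |rd d S N - c sg w d S N|, c = cW w. `transfer`, `rd_eq`, `sg_eq`: ∑_N F N ≤ ∑_{a<d} ∑_{m ≤ 2 X_d} |rS T_a m - c #SN W T_a m|, X_d = `Xd X d`.
T_a ⊆ [1, X_d]; `L1_bound` (K + 2) ε' at X_d (ε' = ε/2): ≤ ∑_a ε' X_d (|T_a| + c X_d/(log X_d)^{K+2}) = ε' X_d (|S| + d c X_d/(log X_d)^{K+2}) (`sum_Ta`).
The hypotheses of `L1_bound` at X_d: X_d ≥ X/d ≥ X/log X ≥ X₁ for X large; log X_d ≥ log X - loglog X ≥ (2/3) log X, so loglog X - 1/2 ≤ loglog X_d ≤ loglog X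
(log(3/2) ≤ 1/2; X_d ≤ X as d ≥ 1), hence |w - loglog X_d| ≤ 2.
X_d ≤ X/d + 1 ≤ 2 X/d and d X_d ≤ X + d ≤ 2X (d ≤ log X ≤ X), c ≤ 2^w ≤ 2^(loglog X + 3/2) ≤ 4 log X, so
d c X_d/(log X_d)^{K+2} ≤ 4 log X · 2X · 2^{K+2}/(log X)^{K+2} ≤ X/(log X)^K for log X ≥ 2^(K+5).
Total ≤ ε' (2X/d) (|S| + X/(log X)^K) = ε (X/d)(|S| + X/(log X)^K).
-/

open Finset Pool.Agent.Lib.GT Pool.Agent.Lib.SW

namespace Pool.Agent.Lib.MP_5d7b92_nt.UA

private theorem exp_three_half : Real.exp (3 / 2) ≤ 5 := by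
  have h1 := Real.exp_one_lt_d9
  have h2 : Real.exp (3 / 2) ^ 2 = (Real.exp 1) ^ 3 := by
    rw [← Real.exp_nat_mul, ← Real.exp_nat_mul]
    norm_num
  have h3 : (Real.exp 1) ^ 3 ≤ (2.7182818286 : ℝ) ^ 3 :=
    pow_le_pow_left₀ (Real.exp_pos 1).le h1.le 3
  have h4 : Real.exp (3 / 2) ^ 2 ≤ 5 ^ 2 := by
    rw [h2]
    refine h3.trans ?_
    norm_num
  exact (pow_le_pow_iff_left₀ (Real.exp_pos _).le (by norm_num) two_ne_zero).1 h4

private theorem log_three_half : Real.log (3 / 2) ≤ 1 / 2 := by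
  have h := Real.log_le_sub_one_of_pos (show (0 : ℝ) < 3 / 2 by norm_num)
  linarith

theorem one_cofactor (K : ℕ) (ε : ℝ) (hε : 0 < ε) :
    ∃ X₀ : ℕ, ∀ X : ℕ, X₀ ≤ X → ∀ w : ℕ, |(w : ℝ) - Real.log (Real.log X)| ≤ 3 / 2 →
      ∀ S : Finset ℕ, S ⊆ Icc 1 X → ∀ d : ℕ, 1 ≤ d → (d : ℝ) ≤ Real.log X →
      ∑ N ∈ Icc 1 (2 * X), |rd d S N - cW w * sg w d S N| ≤
        ε * (X / d) * (S.card + X / (Real.log X) ^ K) := by
  obtain ⟨X₁, hX₁⟩ := L1_bound (K + 2) (ε / 2) (by positivity)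
  obtain ⟨X₂, hX₂⟩ := Filter.eventually_atTop.1
    ((eventually_log_ge (max 3 (10 * 2 ^ (K + 2)))).and
      ((eventually_log_pow 1 (1 / (X₁ + 1)) (by positivity)).and
        ((eventually_log_pow 3 1 one_pos).and (eventually_log_pow 1 1 one_pos))))
  refine ⟨max X₂ 1, fun X hX w hw S hS d hd hdL => ?_⟩
  obtain ⟨hL, hX1, hX3, hXL⟩ := hX₂ X ((le_max_left _ _).trans hX)
  have hXc : 1 ≤ X := (le_max_right _ _).trans hX
  have hXr : (0 : ℝ) < X := by exact_mod_cast hXc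
  obtain ⟨L, hLdef⟩ : ∃ L : ℝ, L = Real.log (X : ℝ) := ⟨_, rfl⟩
  rw [← hLdef] at hL hX1 hX3 hXL hdL hw ⊢
  rw [pow_one] at hX1 hXL
  rw [one_mul] at hX3 hXL
  have hL3 : 3 ≤ L := (le_max_left _ _).trans hL
  have hLK : 10 * 2 ^ (K + 2) ≤ L := (le_max_right _ _).trans hL
  have hL0 : 0 < L := by linarith
  have hdr : (0 : ℝ) < d := by exact_mod_cast hd
  obtain ⟨Z, hZ⟩ : ∃ Z, Z = Xd X d := ⟨_, rfl⟩
  have hZ1 : X ≤ Z * d := by
    have h := Nat.lt_div_mul_add (a := X + d - 1) (b := d) hd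
    rw [hZ]
    unfold Xd
    omega
  have hZ2 : Z * d ≤ X + d - 1 := by
    rw [hZ]
    unfold Xd
    exact Nat.div_mul_le_self _ _
  have hZ3 : Z ≤ X := by
    rw [hZ]
    unfold Xd
    refine Nat.div_le_of_le_mul ?_
    obtain ⟨e, rfl⟩ : ∃ e, d = e + 1 := ⟨d - 1, by omega⟩
    obtain ⟨f, rfl⟩ : ∃ f, X = f + 1 := ⟨X - 1, by omega⟩
    have h1 : (e + 1) * (f + 1) = e * f + e + f + 1 := by ring
    rw [h1]
    have h2 : 0 ≤ e * f := Nat.zero_le _
    omega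
  have hZ1r : (X : ℝ) ≤ Z * d := by exact_mod_cast hZ1
  have hZ2r : (Z : ℝ) * d ≤ 2 * X := by
    have h1 : Z * d ≤ X + d := by omega
    have h2 : (Z : ℝ) * d ≤ X + d := by exact_mod_cast h1
    linarith
  have hZ3r : (Z : ℝ) ≤ X := by exact_mod_cast hZ3
  have hZge : (X : ℝ) / L ≤ Z := by
    rw [div_le_iff₀ hL0]
    refine hZ1r.trans ?_
    gcongr
  have hZ0 : (0 : ℝ) < Z := lt_of_lt_of_le (by positivity) hZge
  have hZX1 : X₁ ≤ Z := by
    have h1 : (X₁ : ℝ) + 1 ≤ X / L := by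
      rw [le_div_iff₀ hL0]
      have h2 : (0 : ℝ) < (X₁ : ℝ) + 1 := by positivity
      have h3 := mul_le_mul_of_nonneg_left hX1 h2.le
      have h4 : ((X₁ : ℝ) + 1) * (1 / ((X₁ : ℝ) + 1) * X) = X := by field_simp
      linarith
    have h2 : (X₁ : ℝ) ≤ Z := by linarith
    exact_mod_cast h2
  -- logarithms
  obtain ⟨l, hl⟩ : ∃ l : ℝ, l = Real.log (Z : ℝ) := ⟨_, rfl⟩
  have hlL : l ≤ L := by
    rw [hl, hLdef]
    exact Real.log_le_log hZ0 hZ3r
  have hLl : 2 / 3 * L ≤ l := by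
    have h1 : Real.log ((X : ℝ) / L) ≤ l := by
      rw [hl]
      exact Real.log_le_log (by positivity) hZge
    rw [Real.log_div hXr.ne' hL0.ne', ← hLdef] at h1
    have h2 : 3 * Real.log L ≤ L := by
      have h3 := Real.log_le_log (by positivity) hX3
      rw [Real.log_pow, ← hLdef] at h3
      push_cast at h3
      exact h3
    linarith
  have hl0 : 0 < l := by linarith
  have hll1 : Real.log l ≤ Real.log L := Real.log_le_log hl0 hlL
  have hll2 : Real.log L - 1 / 2 ≤ Real.log l := by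
    have h1 : Real.log (2 / 3 * L) ≤ Real.log l := Real.log_le_log (by positivity) hLl
    rw [Real.log_mul (by norm_num) hL0.ne'] at h1
    have h2 : Real.log (2 / 3) = -Real.log (3 / 2) := by
      rw [← Real.log_inv]
      norm_num
    have h3 := log_three_half
    linarith
  obtain ⟨hwa, hwb⟩ := abs_le.1 hw
  have hmain := hX₁ Z hZX1 w (by rw [← hl]; linarith) (by rw [← hl]; linarith)
  rw [← hl] at hmain
  obtain ⟨c, hc⟩ : ∃ c : ℝ, c = cW w := ⟨_, rfl⟩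
  rw [← hc] at hmain ⊢
  have hc0 : 0 < c := by
    rw [hc]
    exact cW_pos w
  have hcL : c ≤ 5 * L := by
    rw [hc]
    refine (cW_le w).trans ?_
    have h1 : (2 : ℝ) ≤ Real.exp 1 := by
      have := Real.add_one_le_exp (1 : ℝ)
      linarith
    calc (2 : ℝ) ^ w ≤ (Real.exp 1) ^ w := pow_le_pow_left₀ (by norm_num) h1 w
      _ = Real.exp w := by rw [← Real.exp_nat_mul, mul_one]
      _ ≤ Real.exp (Real.log L + 3 / 2) := Real.exp_le_exp.2 (by linarith)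
      _ = L * Real.exp (3 / 2) := by rw [Real.exp_add, Real.exp_log hL0]
      _ ≤ L * 5 := mul_le_mul_of_nonneg_left exp_three_half hL0.le
      _ = 5 * L := by ring
  -- transfer
  have h1 := transfer d X hd (fun N => |rd d S N - c * sg w d S N|) (fun _ => abs_nonneg _)
  refine h1.trans ?_
  rw [← hZ]
  have h2 : ∀ a ∈ range d, ∑ m ∈ Icc 1 (2 * Z), |rd d S (d * m - a) - c * sg w d S (d * m - a)| ≤
      ε / 2 * Z * ((Ta d X S a).card + c * (Z / l ^ (K + 2))) := by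
    intro a ha
    have ha' := mem_range.1 ha
    have h3 : Ta d X S a ⊆ Icc 1 Z := by
      rw [hZ]
      exact filter_subset _ _
    have h4 := hmain (Ta d X S a) h3
    refine le_trans (le_of_eq ?_) h4
    refine sum_congr rfl fun m hm => ?_
    have hm1 := (mem_Icc.1 hm).1
    rw [rd_eq d X a m S hS hd ha' hm1, sg_eq w d X a m S hS hd ha' hm1]
  refine (sum_le_sum h2).trans ?_
  rw [← mul_sum, sum_add_distrib, sum_const, card_range, nsmul_eq_mul]
  have h3 : ∑ a ∈ range d, ((Ta d X S a).card : ℝ) = S.card := by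
    exact_mod_cast sum_Ta d X S hS hd
  rw [h3]
  have h4 : (d : ℝ) * (c * (Z / l ^ (K + 2))) ≤ X / L ^ K := by
    have e1 : (d : ℝ) * (c * (Z / l ^ (K + 2))) = c * (Z * d) / l ^ (K + 2) := by ring
    have e2 : (L / 2) ^ (K + 2) ≤ l ^ (K + 2) := pow_le_pow_left₀ (by positivity) (by linarith) _
    rw [e1]
    calc c * (Z * d) / l ^ (K + 2) ≤ (5 * L) * (2 * X) / (L / 2) ^ (K + 2) := by
          apply div_le_div₀ (by positivity) _ (by positivity) e2
          exact mul_le_mul hcL hZ2r (by positivity) (by positivity)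
      _ = (10 * 2 ^ (K + 2)) * (X / L ^ K) / L := by
          rw [div_pow]
          field_simp
          ring
      _ ≤ L * (X / L ^ K) / L := by gcongr
      _ = X / L ^ K := by field_simp
  have h5 : (Z : ℝ) ≤ 2 * (X / d) := by
    rw [← mul_div_assoc, le_div_iff₀ hdr]
    exact hZ2r
  calc ε / 2 * Z * (S.card + d * (c * (Z / l ^ (K + 2))))
      ≤ ε / 2 * (2 * (X / d)) * (S.card + X / L ^ K) := by
        apply mul_le_mul
        · exact mul_le_mul_of_nonneg_left h5 (by positivity)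
        · linarith
        · positivity
        · positivity
    _ = ε * (X / d) * (S.card + X / L ^ K) := by ring

end Pool.Agent.Lib.MP_5d7b92_nt.UA
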