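import Pool.Agent.Lib.MP_5d7b92_nt.UA.EX1
import Pool.Agent.Lib.MP_5d7b92_nt.UA.OC
import Pool.Agent.Lib.MP_5d7b92_nt.UA.Sm

/-!
# EX2: the number of even `N ∈ (Z, 2Z]` with a representation `N = s + d q`, `d ∈ D`

`R(N) = ∑_{d ∈ D} rd d T N`, `T = S \ {2}`, `t = #T`, `σ = ∑_{d ∈ D} 1/d`, `c = W/φ(W)`.
`∑_{N ∈ (Z,2Z]} R(N) ≥ t Z σ - 2 W c t #D - L1`, `R(N) ≤ c t + E(N)` on the support, `R(N) ≤ E(N)` off the support for even `N`, and for odd `N`
only `q = 2` contributes.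
-/

open Finset Pool.Agent.Lib.GT Pool.Agent.Lib.SW

namespace Pool.Agent.Lib.MP_5d7b92_nt.UA

open Classical in
/-- the even `N ∈ (Z, 2Z]` with a representation -/
noncomputable def supE (D S : Finset ℕ) (Z : ℕ) : Finset ℕ :=
  (Ioc Z (2 * Z)).filter (fun N => Even N ∧ ∃ s ∈ S, s < N ∧ ∃ d ∈ D, d ∣ N - s ∧
    ((N - s) / d).Prime)

theorem EX2_rd_nonneg (d : ℕ) (S : Finset ℕ) (N : ℕ) : 0 ≤ rd d S N := by
  unfold rd
  exact Finset.sum_nonneg fun s _ => lam_nonneg' _

/-- odd `N`: only `q = 2` -/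
theorem EX2_odd (d N : ℕ) (T : Finset ℕ) (hT : ∀ s ∈ T, s.Prime ∧ s ≠ 2) (hd : Odd d)
    (hN : ¬ Even N) : rd d T N ≤ ∑ s ∈ T, (if N = s + 2 * d then (1 : ℝ) else 0) := by
  unfold rd
  have h1 : ∀ s ∈ T.filter (fun s => s < N ∧ d ∣ N - s), lam ((N - s) / d) ≤
      (if N = s + 2 * d then (1 : ℝ) else 0) := by
    intro s hs
    obtain ⟨hsT, hsN, hdv⟩ := mem_filter.1 hs
    obtain ⟨hp, h2⟩ := hT s hsT
    have hso : Odd s := hp.odd_of_ne_two h2
    have hNo : Odd N := Nat.not_even_iff_odd.1 hN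
    have hev : Even (N - s) := Nat.Odd.sub_odd hNo hso
    by_cases hq : ((N - s) / d).Prime
    · have hmul : d * ((N - s) / d) = N - s := Nat.mul_div_cancel' hdv
      have hqe : Even ((N - s) / d) := by
        rw [← hmul] at hev
        rcases Nat.even_mul.1 hev with h | h
        · exact absurd h (Nat.not_even_iff_odd.2 hd)
        · exact h
      have hq2 : (N - s) / d = 2 := by
        exact (Nat.Prime.even_iff hq).1 hqe
      have hN2 : N = s + 2 * d := by
        rw [hq2] at hmul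
        omega
      rw [if_pos hN2, hq2]
      unfold lam
      rw [if_pos Nat.prime_two]
      have := Real.log_two_lt_d9
      push_cast
      linarith
    · unfold lam
      rw [if_neg hq]
      split_ifs <;> norm_num
  refine (Finset.sum_le_sum h1).trans ?_
  exact Finset.sum_le_sum_of_subset_of_nonneg (filter_subset _ _) fun _ _ _ => by
    split_ifs <;> norm_num

theorem EX2_off (D T : Finset ℕ) (S : Finset ℕ) (hTS : T ⊆ S) (Z N : ℕ) (hN : N ∈ Ioc Z (2 * Z))
    (hev : Even N) (hs : N ∉ supE D S Z) : ∑ d ∈ D, rd d T N = 0 := by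
  apply Finset.sum_eq_zero
  intro d hd
  unfold rd
  apply Finset.sum_eq_zero
  intro s hs'
  obtain ⟨hsT, hsN, hdv⟩ := mem_filter.1 hs'
  unfold lam
  rw [if_neg]
  intro hq
  apply hs
  unfold supE
  rw [mem_filter]
  exact ⟨hN, hev, s, hTS hsT, hsN, d, hd, hdv, hq⟩

theorem EX2_mt_le (w : ℕ) (D S : Finset ℕ) (N : ℕ) : mt w D S N ≤ S.card := by
  unfold mt
  exact card_filter_le _ _

/-- the counting argument -/
theorem EX2_core (w Z : ℕ) (S T D : Finset ℕ) (hTS : T ⊆ S) (hTZ : T ⊆ Icc 1 Z)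
    (hT : ∀ s ∈ T, s.Prime ∧ s ≠ 2)
    (hD : ∀ d ∈ D, 1 ≤ d ∧ ∀ p : ℕ, p.Prime → p ∣ d → p ≤ w) (hDo : ∀ d ∈ D, Odd d)
    (A : ℝ) (hA : ∑ N ∈ Icc 1 (2 * Z), ∑ d ∈ D, |rd d T N - cW w * sg w d T N| ≤ A) :
    (T.card : ℝ) * (Z * ∑ d ∈ D, 1 / (d : ℝ)) ≤
      (supE D S Z).card * (cW w * T.card) +
        (2 * primorial w * cW w + 1) * (T.card * D.card) + 2 * A := by
  have hc := cW_pos w
  obtain ⟨E, hE⟩ : ∃ E : ℕ → ℝ, E = fun N => ∑ d ∈ D, |rd d T N - cW w * sg w d T N| := ⟨_, rfl⟩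
  have hE0 : ∀ N, 0 ≤ E N := by
    intro N
    rw [hE]
    exact Finset.sum_nonneg fun _ _ => abs_nonneg _
  have hsub : Ioc Z (2 * Z) ⊆ Icc 1 (2 * Z) := by
    intro N hN
    rw [mem_Ioc] at hN
    rw [mem_Icc]
    omega
  have hEA : ∑ N ∈ Ioc Z (2 * Z), E N ≤ A := by
    refine le_trans (Finset.sum_le_sum_of_subset_of_nonneg hsub fun N _ _ => hE0 N) ?_
    rw [hE]
    exact hA
  -- lower bound for the total
  have hlow : (T.card : ℝ) * (Z * ∑ d ∈ D, 1 / (d : ℝ)) -
      2 * primorial w * cW w * (T.card * D.card) - A ≤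
      ∑ N ∈ Ioc Z (2 * Z), ∑ d ∈ D, rd d T N := by
    have h1 : ∑ N ∈ Ioc Z (2 * Z), ∑ d ∈ D, cW w * (sg w d T N : ℝ) - A ≤
        ∑ N ∈ Ioc Z (2 * Z), ∑ d ∈ D, rd d T N := by
      have h2 : ∑ N ∈ Ioc Z (2 * Z), (∑ d ∈ D, cW w * (sg w d T N : ℝ) - E N) ≤
          ∑ N ∈ Ioc Z (2 * Z), ∑ d ∈ D, rd d T N := by
        apply Finset.sum_le_sum
        intro N _
        rw [hE]
        simp only
        rw [← Finset.sum_sub_distrib]
        apply Finset.sum_le_sum
        intro d _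
        have := neg_abs_le (rd d T N - cW w * sg w d T N)
        linarith
      rw [Finset.sum_sub_distrib] at h2
      linarith
    refine le_trans ?_ h1
    have h3 : ∑ d ∈ D, cW w * ((T.card : ℝ) * (Z / (d * cW w) - 2 * primorial w)) ≤
        ∑ N ∈ Ioc Z (2 * Z), ∑ d ∈ D, cW w * (sg w d T N : ℝ) := by
      rw [Finset.sum_comm]
      apply Finset.sum_le_sum
      intro d hd
      rw [← Finset.mul_sum]
      exact mul_le_mul_of_nonneg_left (sum_sg_lower w d Z (hD d hd).1 T hTZ) hc.le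
    have h4 : ∑ d ∈ D, cW w * ((T.card : ℝ) * (Z / (d * cW w) - 2 * primorial w)) =
        (T.card : ℝ) * (Z * ∑ d ∈ D, 1 / (d : ℝ)) -
          2 * primorial w * cW w * (T.card * D.card) := by
      have h5 : ∀ d ∈ D, cW w * ((T.card : ℝ) * (Z / (d * cW w) - 2 * primorial w)) =
          (T.card : ℝ) * Z * (1 / (d : ℝ)) - 2 * primorial w * cW w * T.card := by
        intro d hd
        have hd0 : (0 : ℝ) < d := by exact_mod_cast (hD d hd).1
        field_simp
      rw [Finset.sum_congr rfl h5, Finset.sum_sub_distrib, ← Finset.mul_sum, Finset.sum_const,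
        nsmul_eq_mul]
      ring
    rw [h4] at h3
    linarith
  -- upper bound for the total
  have hup : ∑ N ∈ Ioc Z (2 * Z), ∑ d ∈ D, rd d T N ≤
      (supE D S Z).card * (cW w * T.card) + T.card * D.card + A := by
    have hpt : ∀ N ∈ Ioc Z (2 * Z), ∑ d ∈ D, rd d T N ≤
        (if N ∈ supE D S Z then cW w * T.card else 0) +
        (∑ d ∈ D, ∑ s ∈ T, (if N = s + 2 * d then (1 : ℝ) else 0)) + E N := by
      intro N hN
      have hd2 : 0 ≤ ∑ d ∈ D, ∑ s ∈ T, (if N = s + 2 * d then (1 : ℝ) else 0) :=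
        Finset.sum_nonneg fun _ _ => Finset.sum_nonneg fun _ _ => by split_ifs <;> norm_num
      have hi0 : 0 ≤ (if N ∈ supE D S Z then cW w * (T.card : ℝ) else 0) := by
        split_ifs
        · positivity
        · exact le_refl _
      by_cases hev : Even N
      · by_cases hsup : N ∈ supE D S Z
        · rw [if_pos hsup]
          have h1 : ∑ d ∈ D, rd d T N ≤ ∑ d ∈ D, (cW w * (sg w d T N : ℝ) +
              |rd d T N - cW w * sg w d T N|) := by
            apply Finset.sum_le_sum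
            intro d _
            have := le_abs_self (rd d T N - cW w * sg w d T N)
            linarith
          rw [Finset.sum_add_distrib, ← Finset.mul_sum] at h1
          have h2 : ∑ d ∈ D, (sg w d T N : ℝ) = (mt w D T N : ℝ) := by
            exact_mod_cast sum_sg w D T N hD
          rw [h2] at h1
          have h3 : (mt w D T N : ℝ) ≤ T.card := by exact_mod_cast EX2_mt_le w D T N
          have h4 := mul_le_mul_of_nonneg_left h3 hc.le
          have h5 : E N = ∑ d ∈ D, |rd d T N - cW w * sg w d T N| := by rw [hE]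
          rw [h5]
          linarith
        · rw [EX2_off D T S hTS Z N hN hev hsup]
          have := hE0 N
          linarith
      · have h1 : ∑ d ∈ D, rd d T N ≤ ∑ d ∈ D, ∑ s ∈ T, (if N = s + 2 * d then (1 : ℝ) else 0) :=
          Finset.sum_le_sum fun d hd => EX2_odd d N T hT (hDo d hd) hev
        have := hE0 N
        linarith
    refine (Finset.sum_le_sum hpt).trans ?_
    rw [Finset.sum_add_distrib, Finset.sum_add_distrib]
    have h1 : ∑ N ∈ Ioc Z (2 * Z), (if N ∈ supE D S Z then cW w * (T.card : ℝ) else 0) =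
        (supE D S Z).card * (cW w * T.card) := by
      rw [← Finset.sum_filter, Finset.sum_const, nsmul_eq_mul]
      congr 2
      have : (Ioc Z (2 * Z)).filter (fun N => N ∈ supE D S Z) = supE D S Z := by
        ext N
        rw [mem_filter]
        constructor
        · exact fun h => h.2
        · intro h
          refine ⟨?_, h⟩
          unfold supE at h
          exact (mem_filter.1 h).1
      rw [this]
    have h2 : ∑ N ∈ Ioc Z (2 * Z), ∑ d ∈ D, ∑ s ∈ T, (if N = s + 2 * d then (1 : ℝ) else 0) ≤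
        T.card * D.card := by
      rw [Finset.sum_comm]
      have h3 : ∀ d ∈ D, ∑ N ∈ Ioc Z (2 * Z), ∑ s ∈ T, (if N = s + 2 * d then (1 : ℝ) else 0) ≤
          T.card := by
        intro d _
        rw [Finset.sum_comm]
        calc ∑ s ∈ T, ∑ N ∈ Ioc Z (2 * Z), (if N = s + 2 * d then (1 : ℝ) else 0)
            ≤ ∑ _s ∈ T, (1 : ℝ) := by
              apply Finset.sum_le_sum
              intro s _
              rw [Finset.sum_ite_eq']
              split_ifs <;> norm_num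
          _ = T.card := by rw [Finset.sum_const, nsmul_eq_mul, mul_one]
      refine (Finset.sum_le_sum h3).trans ?_
      rw [Finset.sum_const, nsmul_eq_mul, mul_comm]
    rw [h1]
    linarith
  nlinarith [hlow, hup]

theorem EX2_W (Z w : ℕ) (hL : 1 ≤ Real.log (Z : ℝ))
    (hw : |(w : ℝ) - Real.log (Real.log Z)| ≤ 3 / 2) :
    (primorial w : ℝ) ≤ 64 * (Real.log Z) ^ 2 ∧ cW w ≤ 64 * (Real.log Z) ^ 2 := by
  have hL0 : 0 < Real.log (Z : ℝ) := by linarith
  have h1 := (abs_le.1 hw).2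
  have h2 : (primorial w : ℝ) ≤ (4 : ℝ) ^ w := by exact_mod_cast primorial_le_four_pow w
  have h3 : (4 : ℝ) ≤ Real.exp 2 := by
    have := Real.add_one_le_exp (1 : ℝ)
    have e : Real.exp 2 = Real.exp 1 * Real.exp 1 := by rw [← Real.exp_add]; norm_num
    rw [e]
    nlinarith
  have h4 : (4 : ℝ) ^ w ≤ 64 * (Real.log Z) ^ 2 := by
    calc (4 : ℝ) ^ w ≤ (Real.exp 2) ^ w := pow_le_pow_left₀ (by norm_num) h3 _
      _ = Real.exp (w * 2) := by rw [← Real.exp_nat_mul]
      _ ≤ Real.exp (3 + Real.log (Real.log Z) * 2) := by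
          apply Real.exp_le_exp.mpr
          linarith
      _ = Real.exp 3 * (Real.log Z) ^ 2 := by
          rw [Real.exp_add]
          congr 1
          rw [mul_comm, ← Real.log_rpow hL0, Real.exp_log (by positivity)]
          norm_cast
      _ ≤ 64 * (Real.log Z) ^ 2 := by
          apply mul_le_mul_of_nonneg_right _ (by positivity)
          have h5 : Real.exp 3 = (Real.exp 1) ^ 3 := by
            rw [← Real.exp_nat_mul]; norm_num
          have h6 := Real.exp_one_lt_d9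
          rw [h5]
          calc (Real.exp 1) ^ 3 ≤ (3 : ℝ) ^ 3 :=
                pow_le_pow_left₀ (Real.exp_pos 1).le (by linarith) 3
            _ ≤ 64 := by norm_num
  refine ⟨h2.trans h4, ?_⟩
  refine (cW_le w).trans (le_trans ?_ h4)
  exact pow_le_pow_left₀ (by norm_num) (by norm_num) w

theorem support_lower (K : ℕ) (ε : ℝ) (hε : 0 < ε) :
    ∃ X₀ : ℕ, ∀ Z : ℕ, X₀ ≤ Z → ∀ w : ℕ, |(w : ℝ) - Real.log (Real.log Z)| ≤ 3 / 2 →
      ∀ S : Finset ℕ, S ⊆ Icc 1 Z → (∀ s ∈ S, s.Prime) → Z / (Real.log Z) ^ K ≤ (S.card : ℝ) →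
      ∀ D : Finset ℕ, D ⊆ DM w Z → (∀ d ∈ D, Odd d) →
      (1 - ε) * (Z / cW w * ∑ d ∈ D, 1 / (d : ℝ)) ≤ ((supE D S Z).card : ℝ) := by
  obtain ⟨X₁, hX₁⟩ := one_cofactor (K + 1) (ε / 8) (by positivity)
  obtain ⟨X₂, hX₂⟩ := Filter.eventually_atTop.1 ((eventually_log_ge 2).and
    ((eventually_log_pow 5 (ε / (2 * 3 * 4096)) (by positivity)).and
      (eventually_log_pow (K + 1) (1 / 2) (by norm_num))))
  refine ⟨max X₁ (max X₂ 3), fun Z hZ w hw S hS hSp hK D hD hDo => ?_⟩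
  have hZ1 : X₁ ≤ Z := (le_max_left _ _).trans hZ
  have hZ2 : X₂ ≤ Z := ((le_max_left _ _).trans (le_max_right _ _)).trans hZ
  have hZ3 : 3 ≤ Z := ((le_max_right _ _).trans (le_max_right _ _)).trans hZ
  obtain ⟨hL2, hp5, hpK⟩ := hX₂ Z hZ2
  have hZr : (0 : ℝ) < Z := by
    have : (3 : ℝ) ≤ Z := by exact_mod_cast hZ3
    linarith
  obtain ⟨L, hL⟩ : ∃ L, L = Real.log (Z : ℝ) := ⟨_, rfl⟩
  rw [← hL] at hL2 hp5 hpK hK
  have hL0 : 0 < L := by linarith
  obtain ⟨hW, hcW⟩ := EX2_W Z w (by rw [← hL]; linarith) hw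
  rw [← hL] at hW hcW
  have hc := cW_pos w
  have hc1 := one_le_cW w
  obtain ⟨T, hT⟩ : ∃ T, T = S.filter (fun s => s ≠ 2) := ⟨_, rfl⟩
  have hTS : T ⊆ S := by rw [hT]; exact filter_subset _ _
  have hTp : ∀ s ∈ T, s.Prime ∧ s ≠ 2 := by
    intro s hs
    rw [hT] at hs
    exact ⟨hSp s (mem_filter.1 hs).1, (mem_filter.1 hs).2⟩
  have hTcard : (S.card : ℝ) ≤ T.card + 1 := by
    have h1 : S ⊆ insert 2 T := by
      intro s hs
      rw [mem_insert, hT, mem_filter]
      by_cases h : s = 2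
      · left; exact h
      · right; exact ⟨hs, h⟩
    have h2 := (card_le_card h1).trans (card_insert_le _ _)
    exact_mod_cast h2
  -- t ≥ Z / L^(K+1)
  have hLK : 0 < L ^ K := by positivity
  have ht : (Z : ℝ) / L ^ (K + 1) ≤ T.card := by
    have h1 : (Z : ℝ) / L ^ (K + 1) = Z / L ^ K / L := by
      rw [pow_succ]
      field_simp
    have h2 : (Z : ℝ) / L ^ K / L ≤ Z / L ^ K / 2 :=
      div_le_div_of_nonneg_left (by positivity) (by norm_num) hL2
    have h3 : 1 ≤ (Z : ℝ) / L ^ K / 2 := by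
      rw [le_div_iff₀ (by norm_num), le_div_iff₀ hLK]
      have h4 : L ^ K * 2 ≤ L ^ K * L := mul_le_mul_of_nonneg_left hL2 hLK.le
      have h5 : L ^ (K + 1) = L ^ K * L := pow_succ _ _
      nlinarith
    have h4 : (Z : ℝ) / L ^ K / 2 + (Z : ℝ) / L ^ K / 2 = Z / L ^ K := by ring
    rw [h1]
    linarith
  have hLK1 : 0 < L ^ (K + 1) := by positivity
  have ht0 : 0 < (T.card : ℝ) := lt_of_lt_of_le (by positivity) ht
  obtain ⟨σ, hσ⟩ : ∃ σ : ℝ, σ = ∑ d ∈ D, 1 / (d : ℝ) := ⟨_, rfl⟩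
  have hσ0 : 0 ≤ σ := by
    rw [hσ]
    exact Finset.sum_nonneg fun _ _ => by positivity
  -- the L1 bound
  have hA : ∑ N ∈ Icc 1 (2 * Z), ∑ d ∈ D, |rd d T N - cW w * sg w d T N| ≤
      ε / 4 * (Z * T.card * σ) := by
    rw [Finset.sum_comm]
    have h1 : ∀ d ∈ D, ∑ N ∈ Icc 1 (2 * Z), |rd d T N - cW w * sg w d T N| ≤
        ε / 4 * (Z * T.card) * (1 / (d : ℝ)) := by
      intro d hd
      obtain ⟨⟨hd1, hd2⟩, -⟩ := mem_DM.1 (hD hd)
      refine (hX₁ Z hZ1 w hw T (hTS.trans hS) d hd1 hd2).trans ?_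
      have hd0 : (0 : ℝ) < d := by exact_mod_cast hd1
      rw [← hL]
      calc ε / 8 * (Z / d) * (T.card + Z / L ^ (K + 1))
          ≤ ε / 8 * (Z / d) * (2 * T.card) :=
            mul_le_mul_of_nonneg_left (by linarith) (by positivity)
        _ = ε / 4 * (Z * T.card) * (1 / (d : ℝ)) := by ring
    refine (Finset.sum_le_sum h1).trans ?_
    rw [← Finset.mul_sum, ← hσ]
    exact le_of_eq (by ring)
  have hcore := EX2_core w Z S T D hTS (hTS.trans hS) hTp
    (fun d hd => ⟨(mem_DM.1 (hD hd)).1.1, (mem_DM.1 (hD hd)).2⟩) hDo _ hA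
  rw [← hσ] at hcore
  -- number of elements of D
  have hDc : (D.card : ℝ) ≤ L * σ := by
    rw [hσ, Finset.mul_sum]
    have h1 : ∑ d ∈ D, (1 : ℝ) ≤ ∑ d ∈ D, L * (1 / (d : ℝ)) := by
      apply Finset.sum_le_sum
      intro d hd
      obtain ⟨⟨hd1, hd2⟩, -⟩ := mem_DM.1 (hD hd)
      have hd0 : (0 : ℝ) < d := by exact_mod_cast hd1
      rw [mul_one_div, le_div_iff₀ hd0, one_mul, hL]
      exact hd2
    rw [Finset.sum_const, nsmul_eq_mul, mul_one] at h1
    exact h1
  have hWr1 : (1 : ℝ) ≤ primorial w := by exact_mod_cast primorial_pos w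
  have hsmall : (2 * primorial w * cW w + 1) * D.card ≤ ε / 2 * (Z * σ) := by
    have h1 : 2 * (primorial w : ℝ) * cW w + 1 ≤ 3 * (4096 * L ^ 4) := by
      have h2 : (primorial w : ℝ) * cW w ≤ (64 * L ^ 2) * (64 * L ^ 2) :=
        mul_le_mul hW hcW hc.le (by positivity)
      have h3 : 1 ≤ (primorial w : ℝ) * cW w := one_le_mul_of_one_le_of_one_le hWr1 hc1
      nlinarith
    calc (2 * primorial w * cW w + 1) * D.card ≤ (3 * (4096 * L ^ 4)) * (L * σ) :=
          mul_le_mul h1 hDc (Nat.cast_nonneg _) (by positivity)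
      _ = 3 * 4096 * L ^ 5 * σ := by ring
      _ ≤ 3 * 4096 * (ε / (2 * 3 * 4096) * Z) * σ := by
          apply mul_le_mul_of_nonneg_right _ hσ0
          exact mul_le_mul_of_nonneg_left hp5 (by norm_num)
      _ = ε / 2 * (Z * σ) := by ring
  rw [← hσ]
  have h1 : (T.card : ℝ) * (Z * σ) * (1 - ε) ≤ (supE D S Z).card * (cW w * T.card) := by
    have h2 := mul_le_mul_of_nonneg_left hsmall ht0.le
    nlinarith
  have h2 : (1 - ε) * (Z / cW w * σ) = ((T.card : ℝ) * (Z * σ) * (1 - ε)) / (cW w * T.card) := by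
    field_simp
  rw [h2, div_le_iff₀ (by positivity)]
  exact h1

end Pool.Agent.Lib.MP_5d7b92_nt.UA
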