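import Pool.Agent.Lib.MP_5d7b92_nt.UA.EX2

/-!
# EX3: the uniform lower bound for the number of `n ≤ X` with `2 n = s + d q`, `d ≤ D`

Dyadic decomposition `Z_i = X / 2^i`, `i < I`; `support_lower` at every scale, with the same `w = wX X` and the same set of cofactors.
-/

open Finset Pool.Agent.Lib.GT Pool.Agent.Lib.SW

namespace Pool.Agent.Lib.MP_5d7b92_nt.UA

/-- the odd `w`-smooth numbers `≤ D` -/
noncomputable def SmO (D : ℝ) (w : ℕ) : Finset ℕ :=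
  (Icc 1 ⌊D⌋₊).filter (fun d => Odd d ∧ ∀ p ∈ d.primeFactors, p ≤ w)

/-- `∏_{3 ≤ p ≤ loglog X} (1 - 1/p) ∑_{d ≤ D odd, loglog X-smooth} 1/d` -/
noncomputable def gX (X : ℕ) (D : ℝ) : ℝ := 2 / cW (wX X) * ∑ d ∈ SmO D (wX X), 1 / (d : ℝ)

open Classical in
/-- the `n ≤ X` with a representation `2 n = s + d q`, `d ≤ D` -/
noncomputable def supC (D : ℝ) (X : ℕ) (S : Finset ℕ) : Finset ℕ :=
  (Icc 1 X).filter (fun n => ∃ s ∈ S, ∃ d q : ℕ, 1 ≤ d ∧ (d : ℝ) ≤ D ∧ q.Prime ∧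
    2 * n = s + d * q)

theorem mem_SmO {D : ℝ} {w d : ℕ} (hD : 0 ≤ D) : d ∈ SmO D w ↔
    (1 ≤ d ∧ (d : ℝ) ≤ D) ∧ Odd d ∧ ∀ p : ℕ, p.Prime → p ∣ d → p ≤ w := by
  unfold SmO
  rw [mem_filter, mem_Icc]
  constructor
  · rintro ⟨⟨h1, h2⟩, h3, h4⟩
    exact ⟨⟨h1, (Nat.le_floor_iff hD).1 h2⟩, h3,
      fun p hp hpd => h4 p (Nat.mem_primeFactors.2 ⟨hp, hpd, by omega⟩)⟩
  · rintro ⟨⟨h1, h2⟩, h3, h4⟩
    exact ⟨⟨h1, Nat.le_floor h2⟩, h3,
      fun p hp => h4 p (Nat.prime_of_mem_primeFactors hp) (Nat.dvd_of_mem_primeFactors hp)⟩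

theorem EX3_sum (X I : ℕ) : (2 * X : ℝ) * (1 - 1 / 2 ^ I) - I ≤
    ∑ i ∈ range I, ((X / 2 ^ i : ℕ) : ℝ) := by
  induction I with
  | zero => simp
  | succ I ih =>
    rw [Finset.sum_range_succ]
    have h1 : (X : ℝ) / 2 ^ I - 1 ≤ ((X / 2 ^ I : ℕ) : ℝ) := by
      have h2 : X < 2 ^ I * (X / 2 ^ I + 1) := Nat.lt_mul_div_succ X (by positivity)
      have h3 : (X : ℝ) < 2 ^ I * ((X / 2 ^ I : ℕ) + 1) := by exact_mod_cast h2
      have h4 : (X : ℝ) / 2 ^ I < (X / 2 ^ I : ℕ) + 1 := by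
        rw [div_lt_iff₀ (by positivity)]
        linarith
      linarith
    have h2 : (2 * X : ℝ) * (1 - 1 / 2 ^ (I + 1)) = (2 * X : ℝ) * (1 - 1 / 2 ^ I) + X / 2 ^ I := by
      rw [pow_succ]
      field_simp
      ring
    push_cast
    linarith

/-- counting over the scales -/
theorem EX3_union (X I w : ℕ) (D : ℝ) (hD : 0 ≤ D) (S : Finset ℕ) (hX : 2 ^ I ≤ X) :
    ∑ i ∈ range I, (supE (SmO D w) (S.filter (fun s => s ≤ X / 2 ^ i)) (X / 2 ^ i)).card ≤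
      (supC D X S).card := by
  classical
  have hdisj : ∀ i ∈ range I, ∀ j ∈ range I, i ≠ j →
      Disjoint (supE (SmO D w) (S.filter (fun s => s ≤ X / 2 ^ i)) (X / 2 ^ i))
        (supE (SmO D w) (S.filter (fun s => s ≤ X / 2 ^ j)) (X / 2 ^ j)) := by
    have key : ∀ i j : ℕ, i < j → 2 * (X / 2 ^ j) ≤ X / 2 ^ i := by
      intro i j hij
      have h1 : X / 2 ^ j ≤ X / 2 ^ (i + 1) :=
        Nat.div_le_div_left (Nat.pow_le_pow_right (by norm_num) hij) (by positivity)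
      have h2 : X / 2 ^ (i + 1) = X / 2 ^ i / 2 := by
        rw [pow_succ, Nat.div_div_eq_div_mul]
      have h3 : 2 * (X / 2 ^ i / 2) ≤ X / 2 ^ i := Nat.mul_div_le _ _
      omega
    intro i _ j _ hij
    rw [disjoint_left]
    intro N h1 h2
    unfold supE at h1 h2
    have h3 := mem_Ioc.1 (mem_filter.1 h1).1
    have h4 := mem_Ioc.1 (mem_filter.1 h2).1
    rcases lt_or_gt_of_ne hij with h | h
    · have := key i j h
      omega
    · have := key j i h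
      omega
  rw [← card_biUnion hdisj]
  refine card_le_card_of_injOn (fun N => N / 2) ?_ ?_
  · intro N hN
    rw [mem_coe, mem_biUnion] at hN
    obtain ⟨i, hi, hN⟩ := hN
    unfold supE at hN
    obtain ⟨hN1, hev, s, hs, hsN, d, hd, hdv, hq⟩ := mem_filter.1 hN
    rw [mem_Ioc] at hN1
    have h1 : X / 2 ^ i ≤ X := Nat.div_le_self _ _
    obtain ⟨m, hm⟩ := hev
    have h2 : N / 2 = m := by omega
    have hpos : 0 < X / 2 ^ i := by
      apply Nat.div_pos _ (by positivity)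
      exact (Nat.pow_le_pow_right (by norm_num) (mem_range.1 hi).le).trans hX
    rw [mem_coe]
    simp only [h2]
    unfold supC
    rw [mem_filter, mem_Icc]
    refine ⟨⟨by omega, by omega⟩, s, (mem_filter.1 hs).1, d, (N - s) / d, ?_, ?_, hq, ?_⟩
    · exact ((mem_SmO hD).1 hd).1.1
    · exact ((mem_SmO hD).1 hd).1.2
    · rw [Nat.mul_div_cancel' hdv]
      omega
  · intro a ha b hb hab
    rw [mem_coe, mem_biUnion] at ha hb
    obtain ⟨i, _, ha⟩ := ha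
    obtain ⟨j, _, hb⟩ := hb
    unfold supE at ha hb
    obtain ⟨m, hm⟩ := (mem_filter.1 ha).2.1
    obtain ⟨k, hk⟩ := (mem_filter.1 hb).2.1
    have h1 : a / 2 = b / 2 := hab
    omega

theorem lower_uniform (K : ℕ) (ε : ℝ) (hε : 0 < ε) : ∃ X₀ : ℕ, ∀ X : ℕ, X₀ ≤ X →
    ∀ S : Finset ℕ, (∀ s ∈ S, s.Prime) →
      (∀ Y : ℕ, Real.sqrt X ≤ Y → Y ≤ 2 * X →
        Y / (Real.log Y) ^ K ≤ ((S.filter (fun s => s ≤ Y)).card : ℝ)) →
      ∀ D : ℝ, 1 ≤ D → D ≤ Real.sqrt (Real.log X) →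
      (1 - ε) * (gX X D * X) ≤ ((supC D X S).card : ℝ) := by
  obtain ⟨δ, hδ, hδ1, hδε⟩ : ∃ δ : ℝ, 0 < δ ∧ δ ≤ 1 ∧ 3 * δ ≤ ε :=
    ⟨min 1 (ε / 3), lt_min one_pos (by linarith), min_le_left _ _, by
      have := min_le_right 1 (ε / 3)
      linarith⟩
  obtain ⟨I, hI⟩ : ∃ I : ℕ, 1 / (2 : ℝ) ^ I ≤ δ := by
    obtain ⟨I, hI⟩ := exists_pow_lt_of_lt_one hδ (show (1 / 2 : ℝ) < 1 by norm_num)
    refine ⟨I, ?_⟩
    rw [one_div_pow] at hI
    exact hI.le
  obtain ⟨X₁, hX₁⟩ := support_lower K δ hδ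
  have hcast : Filter.Tendsto (fun X : ℕ => (X : ℝ)) Filter.atTop Filter.atTop :=
    tendsto_natCast_atTop_atTop
  obtain ⟨X₂, hX₂⟩ := Filter.eventually_atTop.1 ((eventually_log_ge (3 * I + 9)).and
    ((hcast.eventually_ge_atTop (I / (2 * δ))).and
      (hcast.eventually_ge_atTop ((2 : ℝ) ^ (2 * I + 2)))))
  refine ⟨max X₂ (2 ^ I * (X₁ + 1)), fun X hX S hSp hS D hD1 hDX => ?_⟩
  obtain ⟨hL, hXI, hX4⟩ := hX₂ X ((le_max_left _ _).trans hX)
  have hX5 : 2 ^ I * (X₁ + 1) ≤ X := (le_max_right _ _).trans hX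
  have hXr : (0 : ℝ) < X := lt_of_lt_of_le (by positivity) hX4
  have hL0 : 0 < Real.log (X : ℝ) := by
    have : (0 : ℝ) ≤ I := Nat.cast_nonneg _
    linarith
  have hD0 : 0 ≤ D := by linarith
  have h2I : (2 : ℝ) ^ I ≤ Real.sqrt X / 2 := by
    rw [le_div_iff₀ (by norm_num)]
    apply Real.le_sqrt_of_sq_le
    calc ((2 : ℝ) ^ I * 2) ^ 2 = (2 : ℝ) ^ (2 * I + 2) := by ring
      _ ≤ X := hX4
  have hsq : Real.sqrt X * Real.sqrt X = X := Real.mul_self_sqrt hXr.le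
  have hs0 : 0 < Real.sqrt X := Real.sqrt_pos.2 hXr
  have h2IX : 2 ^ I ≤ X := by
    have h1 : 2 ^ I * 1 ≤ 2 ^ I * (X₁ + 1) := Nat.mul_le_mul_left _ (by omega)
    omega
  have hun := EX3_union X I (wX X) D hD0 S h2IX
  have hun' : ∑ i ∈ range I, ((supE (SmO D (wX X)) (S.filter (fun s => s ≤ X / 2 ^ i))
      (X / 2 ^ i)).card : ℝ) ≤ ((supC D X S).card : ℝ) := by exact_mod_cast hun
  refine le_trans ?_ hun'
  have hc := cW_pos (wX X)
  obtain ⟨σ, hσ⟩ : ∃ σ : ℝ, σ = ∑ d ∈ SmO D (wX X), 1 / (d : ℝ) := ⟨_, rfl⟩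
  have hσ0 : 0 ≤ σ := by
    rw [hσ]
    exact Finset.sum_nonneg fun _ _ => by positivity
  -- every scale
  have hscale : ∀ i ∈ range I, (1 - δ) * (((X / 2 ^ i : ℕ) : ℝ) / cW (wX X) * σ) ≤
      ((supE (SmO D (wX X)) (S.filter (fun s => s ≤ X / 2 ^ i)) (X / 2 ^ i)).card : ℝ) := by
    intro i hi
    have hiI := (mem_range.1 hi).le
    obtain ⟨Z, hZ⟩ : ∃ Z, Z = X / 2 ^ i := ⟨_, rfl⟩
    rw [← hZ]
    have hp : 2 ^ i ≤ 2 ^ I := Nat.pow_le_pow_right (by norm_num) hiI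
    have hZ1 : X₁ ≤ Z := by
      rw [hZ, Nat.le_div_iff_mul_le (by positivity)]
      calc X₁ * 2 ^ i ≤ (X₁ + 1) * 2 ^ I := Nat.mul_le_mul (by omega) hp
        _ = 2 ^ I * (X₁ + 1) := by ring
        _ ≤ X := hX5
    have hZX : Z ≤ X := by rw [hZ]; exact Nat.div_le_self _ _
    have hZXr : (Z : ℝ) ≤ X := by exact_mod_cast hZX
    have hpr : (2 : ℝ) ^ i ≤ 2 ^ I := pow_le_pow_right₀ (by norm_num) hiI
    have hZlow : (X : ℝ) / 2 ^ i - 1 ≤ Z := by
      rw [hZ]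
      have h2 : X < 2 ^ i * (X / 2 ^ i + 1) := Nat.lt_mul_div_succ X (by positivity)
      have h3 : (X : ℝ) < 2 ^ i * ((X / 2 ^ i : ℕ) + 1) := by exact_mod_cast h2
      have h4 : (X : ℝ) / 2 ^ i < (X / 2 ^ i : ℕ) + 1 := by
        rw [div_lt_iff₀ (by positivity)]
        linarith
      linarith
    have hX2i : 2 * Real.sqrt X ≤ (X : ℝ) / 2 ^ i := by
      rw [le_div_iff₀ (by positivity)]
      have h1 : (2 : ℝ) ^ i ≤ Real.sqrt X / 2 := hpr.trans h2I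
      nlinarith
    have hs1 : 1 ≤ Real.sqrt X := by
      have h1 : (1 : ℝ) ≤ 2 ^ I := one_le_pow₀ (by norm_num)
      linarith
    have hZs : Real.sqrt X ≤ Z := by linarith
    have hZhalf : (X : ℝ) / 2 ^ i / 2 ≤ Z := by
      have : 1 ≤ (X : ℝ) / 2 ^ i / 2 := by linarith
      linarith
    have hZ0 : (0 : ℝ) < Z := by linarith
    -- logs
    have hlogZ : Real.log X * (2 / 3) ≤ Real.log Z := by
      have h1 : (X : ℝ) / 2 ^ (i + 1) ≤ Z := by
        rw [pow_succ, ← div_div]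
        exact hZhalf
      have h2 := Real.log_le_log (by positivity) h1
      rw [Real.log_div hXr.ne' (by positivity), Real.log_pow] at h2
      have h3 : ((i + 1 : ℕ) : ℝ) * Real.log 2 ≤ (I + 1) * 1 := by
        apply mul_le_mul
        · push_cast
          have : (i : ℝ) ≤ I := by exact_mod_cast hiI
          linarith
        · have := Real.log_two_lt_d9
          linarith
        · exact Real.log_nonneg (by norm_num)
        · positivity
      linarith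
    have hlogZ' : Real.log Z ≤ Real.log X := Real.log_le_log hZ0 hZXr
    have hlz0 : 0 < Real.log (Z : ℝ) := by
      have : 0 < Real.log (X : ℝ) * (2 / 3) := by positivity
      linarith
    have hll1 : Real.log (Real.log Z) ≤ Real.log (Real.log X) := Real.log_le_log hlz0 hlogZ'
    have hll2 : Real.log (Real.log X) - 1 / 2 ≤ Real.log (Real.log Z) := by
      have h1 : Real.log (Real.log X * (2 / 3)) ≤ Real.log (Real.log Z) :=
        Real.log_le_log (by positivity) hlogZ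
      rw [Real.log_mul hL0.ne' (by norm_num)] at h1
      have h2 : -(1 / 2) ≤ Real.log (2 / 3 : ℝ) := by
        have h3 := Real.one_sub_inv_le_log_of_pos (show (0 : ℝ) < 2 / 3 by norm_num)
        norm_num at h3 ⊢
        linarith
      linarith
    have hw1 : (wX X : ℝ) ≤ Real.log (Real.log X) := by
      unfold wX
      apply Nat.floor_le
      apply Real.log_nonneg
      have : (0 : ℝ) ≤ I := Nat.cast_nonneg _
      linarith
    have hw2 : Real.log (Real.log X) - 1 ≤ wX X := by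
      have := Nat.lt_floor_add_one (Real.log (Real.log (X : ℝ)))
      unfold wX
      linarith
    have hw : |((wX X : ℕ) : ℝ) - Real.log (Real.log Z)| ≤ 3 / 2 := by
      rw [abs_le]
      constructor <;> linarith
    have hDs : SmO D (wX X) ⊆ DM (wX X) Z := by
      intro d hd
      obtain ⟨⟨h1, h2⟩, -, h3⟩ := (mem_SmO hD0).1 hd
      rw [mem_DM]
      refine ⟨⟨h1, ?_⟩, h3⟩
      have h4 : Real.sqrt (Real.log X) ≤ Real.log X * (2 / 3) := by
        rw [Real.sqrt_le_left (by positivity)]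
        have h5 : (9 : ℝ) ≤ Real.log X := by
          have : (0 : ℝ) ≤ I := Nat.cast_nonneg _
          linarith
        nlinarith
      linarith
    have hY := hS Z hZs (by omega)
    have hsup := hX₁ Z hZ1 (wX X) hw (S.filter (fun s => s ≤ Z)) (by
      intro s hs
      obtain ⟨h1, h2⟩ := mem_filter.1 hs
      rw [mem_Icc]
      exact ⟨(hSp s h1).one_lt.le, h2⟩) (fun s hs => hSp s (mem_filter.1 hs).1) hY
      (SmO D (wX X)) hDs (fun d hd => ((mem_SmO hD0).1 hd).2.1)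
    rw [hσ]
    exact hsup
  refine le_trans ?_ (Finset.sum_le_sum hscale)
  have hsum := EX3_sum X I
  have hI0 : (I : ℝ) ≤ 2 * X * δ := by
    rw [div_le_iff₀ (by positivity)] at hXI
    linarith
  have h1 : (2 * X : ℝ) * (1 - 2 * δ) ≤ ∑ i ∈ range I, ((X / 2 ^ i : ℕ) : ℝ) := by
    have h2 : (2 * X : ℝ) * (1 / 2 ^ I) ≤ 2 * X * δ := mul_le_mul_of_nonneg_left hI (by positivity)
    nlinarith
  have h2 : ∑ i ∈ range I, (1 - δ) * (((X / 2 ^ i : ℕ) : ℝ) / cW (wX X) * σ) =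
      (1 - δ) * (σ / cW (wX X)) * ∑ i ∈ range I, ((X / 2 ^ i : ℕ) : ℝ) := by
    rw [Finset.mul_sum]
    apply Finset.sum_congr rfl
    intro i _
    ring
  rw [h2]
  have h3 : gX X D = 2 * (σ / cW (wX X)) := by
    unfold gX
    rw [← hσ]
    ring
  rw [h3]
  obtain ⟨g, hg⟩ : ∃ g : ℝ, g = σ / cW (wX X) := ⟨_, rfl⟩
  have hg0 : 0 ≤ g := by rw [hg]; positivity
  rw [← hg]
  have h4 : (1 - δ) * g * ((2 * X : ℝ) * (1 - 2 * δ)) ≤
      (1 - δ) * g * ∑ i ∈ range I, ((X / 2 ^ i : ℕ) : ℝ) :=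
    mul_le_mul_of_nonneg_left h1 (mul_nonneg (by linarith) hg0)
  refine le_trans ?_ h4
  have h5 : 0 ≤ g * X := by positivity
  have h6 : (1 - ε) * (2 * g * X) = 2 * (g * X) * (1 - ε) := by ring
  have h7 : (1 - δ) * g * (2 * X * (1 - 2 * δ)) = 2 * (g * X) * ((1 - δ) * (1 - 2 * δ)) := by ring
  rw [h6, h7]
  apply mul_le_mul_of_nonneg_left _ (by positivity)
  nlinarith

end Pool.Agent.Lib.MP_5d7b92_nt.UA
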