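import Pool.Agent.Lib.MP_5d7b92_nt.UA.EX3

/-!
# EX4: the count for the extremal example

`M = P(v)^h`.  The `n ≤ X` with `gcd(2n-1, M) ≤ D` number at most `(2X/M + 1) ∑_{g | M odd, g ≤ D} φ(M/g)`, and
`φ(M/g) ≤ (φ(M)/g) 2^{#F(g)}`, `F(g)` = the odd primes `p ≤ v` with `p^h | g`; `∑_g 2^{#F(g)}/g ≤ ∏_{3 ≤ p ≤ v} (1 + p^(-h)) ∑_g 1/g`.
-/

open Finset Pool.Agent.Lib.GT Pool.Agent.Lib.SW

namespace Pool.Agent.Lib.MP_5d7b92_nt.UA

/-- odd primes `≤ v` -/
def PRo (v : ℕ) : Finset ℕ := (PR v).filter (fun p => p ≠ 2)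

/-- the odd primes `p ≤ v` with `p^h ∣ g` -/
def Fg (v h g : ℕ) : Finset ℕ := (PRo v).filter (fun p => p ^ h ∣ g)

theorem mem_PRo {v p : ℕ} : p ∈ PRo v ↔ (p ≤ v ∧ p.Prime) ∧ p ≠ 2 := by
  unfold PRo
  rw [mem_filter, mem_PR]

theorem EX4_pf (v h : ℕ) (hh : 1 ≤ h) : ((primorial v) ^ h).primeFactors = PR v := by
  rw [Nat.primeFactors_pow _ (by omega)]
  ext p
  rw [Nat.mem_primeFactors, mem_PR]
  constructor
  · rintro ⟨hp, hd, -⟩
    exact ⟨(hp.dvd_primorial_iff).1 hd, hp⟩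
  · rintro ⟨h1, hp⟩
    exact ⟨hp, (hp.dvd_primorial_iff).2 h1, (primorial_pos v).ne'⟩

theorem EX4_tot (n : ℕ) : (n.totient : ℝ) = n * ∏ p ∈ n.primeFactors, (1 - (p : ℝ)⁻¹) := by
  have h := Nat.totient_eq_mul_prod_factors n
  have h2 : ((n.totient : ℚ) : ℝ) = ((n * ∏ p ∈ n.primeFactors, (1 - (p : ℚ)⁻¹) : ℚ) : ℝ) := by
    rw [h]
  push_cast at h2
  exact h2

theorem EX4_phi (v h g : ℕ) (hh : 1 ≤ h) (hg : g ∣ (primorial v) ^ h) (ho : Odd g) :
    ((((primorial v) ^ h / g).totient : ℕ) : ℝ) ≤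
      (((primorial v) ^ h).totient : ℝ) * (1 / (g : ℝ)) * 2 ^ (Fg v h g).card := by
  obtain ⟨M, hM⟩ : ∃ M, M = (primorial v) ^ h := ⟨_, rfl⟩
  rw [← hM] at hg ⊢
  have hM0 : 0 < M := by rw [hM]; exact pow_pos (primorial_pos v) h
  have hpf : M.primeFactors = PR v := by rw [hM]; exact EX4_pf v h hh
  obtain ⟨k, hk⟩ := hg
  have hg0 : 0 < g := by
    rcases Nat.eq_zero_or_pos g with h | h
    · rw [h] at hk; simp at hk; omega
    · exact h
  have hk0 : 0 < k := by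
    rcases Nat.eq_zero_or_pos k with h | h
    · rw [h] at hk; simp at hk; omega
    · exact h
  have hdiv : M / g = k := by rw [hk, Nat.mul_div_cancel_left _ hg0]
  rw [hdiv]
  have hsub : k.primeFactors ⊆ M.primeFactors :=
    Nat.primeFactors_mono ⟨g, by rw [hk]; ring⟩ hM0.ne'
  have hle1 : ∀ p ∈ M.primeFactors, (1 / 2 : ℝ) ≤ 1 - (p : ℝ)⁻¹ ∧ 1 - (p : ℝ)⁻¹ ≤ 1 := by
    intro p hp
    have h2 : (2 : ℝ) ≤ p := by exact_mod_cast (Nat.prime_of_mem_primeFactors hp).two_le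
    have h3 : (p : ℝ)⁻¹ ≤ 2⁻¹ := inv_anti₀ (by norm_num) h2
    have h4 : 0 < (p : ℝ)⁻¹ := by positivity
    constructor <;> linarith
  -- the missing primes are in Fg
  have hmiss : M.primeFactors \ k.primeFactors ⊆ Fg v h g := by
    intro p hp
    obtain ⟨hp1, hp2⟩ := mem_sdiff.1 hp
    have hpp := Nat.prime_of_mem_primeFactors hp1
    have hpk : ¬ p ∣ k := fun h => hp2 (Nat.mem_primeFactors.2 ⟨hpp, h, hk0.ne'⟩)
    rw [hpf, mem_PR] at hp1
    have hph : p ^ h ∣ g * k := by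
      rw [← hk, hM]
      exact pow_dvd_pow_of_dvd ((hpp.dvd_primorial_iff).2 hp1.1) h
    have hcop : Nat.Coprime (p ^ h) k :=
      Nat.Coprime.pow_left h ((Nat.Prime.coprime_iff_not_dvd hpp).2 hpk)
    have hpg : p ^ h ∣ g := hcop.dvd_of_dvd_mul_right hph
    unfold Fg
    rw [mem_filter, mem_PRo]
    refine ⟨⟨hp1, ?_⟩, hpg⟩
    intro h2
    have h3 : 2 ∣ g := by
      rw [h2] at hpg
      exact (dvd_pow_self 2 (by omega)).trans hpg
    exact (Nat.not_even_iff_odd.2 ho) (even_iff_two_dvd.2 h3)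
  have hprod : (1 / 2 : ℝ) ^ (Fg v h g).card ≤
      ∏ p ∈ M.primeFactors \ k.primeFactors, (1 - (p : ℝ)⁻¹) := by
    calc (1 / 2 : ℝ) ^ (Fg v h g).card ≤ (1 / 2 : ℝ) ^ (M.primeFactors \ k.primeFactors).card :=
          pow_le_pow_of_le_one (by norm_num) (by norm_num) (card_le_card hmiss)
      _ = ∏ _p ∈ M.primeFactors \ k.primeFactors, (1 / 2 : ℝ) := by rw [Finset.prod_const]
      _ ≤ _ := Finset.prod_le_prod (fun _ _ => by norm_num) fun p hp =>
          (hle1 p (mem_sdiff.1 hp).1).1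
  have hMt := EX4_tot M
  have hkt := EX4_tot k
  rw [← Finset.prod_sdiff hsub] at hMt
  have hgr : (0 : ℝ) < g := by exact_mod_cast hg0
  have hMk : (M : ℝ) = g * k := by exact_mod_cast hk
  have h2 : (0 : ℝ) < 2 ^ (Fg v h g).card := by positivity
  have hkn : (0 : ℝ) ≤ k.totient := Nat.cast_nonneg _
  have hfin : (k.totient : ℝ) * g * (1 / 2 : ℝ) ^ (Fg v h g).card ≤ M.totient := by
    calc (k.totient : ℝ) * g * (1 / 2 : ℝ) ^ (Fg v h g).card
        ≤ (k.totient : ℝ) * g * ∏ p ∈ M.primeFactors \ k.primeFactors, (1 - (p : ℝ)⁻¹) :=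
          mul_le_mul_of_nonneg_left hprod (by positivity)
      _ = M.totient := by
          rw [hMt, hkt, hMk]
          ring
  rw [one_div_pow] at hfin
  have h3 : (k.totient : ℝ) * g ≤ M.totient * 2 ^ (Fg v h g).card := by
    have h4 : (k.totient : ℝ) * g * (1 / 2 ^ (Fg v h g).card) * 2 ^ (Fg v h g).card ≤
        M.totient * 2 ^ (Fg v h g).card := mul_le_mul_of_nonneg_right hfin h2.le
    have h5 : (k.totient : ℝ) * g * (1 / 2 ^ (Fg v h g).card) * 2 ^ (Fg v h g).card =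
        (k.totient : ℝ) * g := by field_simp
    linarith
  calc (k.totient : ℝ) = (k.totient : ℝ) * g / g := by field_simp
    _ ≤ (M.totient * 2 ^ (Fg v h g).card) / g := div_le_div_of_nonneg_right h3 hgr.le
    _ = _ := by ring

theorem EX4_dvd (v h g : ℕ) (J : Finset ℕ) (hJ : J ⊆ Fg v h g) : ∏ p ∈ J, p ^ h ∣ g := by
  apply Finset.prod_dvd_of_isRelPrime
  · intro p hp q hq hpq
    have h1 := (mem_PRo.1 (mem_filter.1 (hJ hp)).1).1.2
    have h2 := (mem_PRo.1 (mem_filter.1 (hJ hq)).1).1.2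
    exact Nat.coprime_iff_isRelPrime.1 (Nat.coprime_pow_primes h h h1 h2 hpq)
  · intro p hp
    exact (mem_filter.1 (hJ hp)).2

theorem EX4_J (v h : ℕ) (D : ℝ) (hD : 0 ≤ D) (J : Finset ℕ) (hJ : J ⊆ PRo v) :
    ∑ g ∈ (SmO D v).filter (fun g => J ⊆ Fg v h g), 1 / (g : ℝ) ≤
      (∏ p ∈ J, 1 / (p : ℝ) ^ h) * ∑ g ∈ SmO D v, 1 / (g : ℝ) := by
  obtain ⟨r, hr⟩ : ∃ r, r = ∏ p ∈ J, p ^ h := ⟨_, rfl⟩
  have hr0 : 0 < r := by
    rw [hr]
    exact Finset.prod_pos fun p hp => pow_pos (mem_PRo.1 (hJ hp)).1.2.pos h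
  have hrr : (0 : ℝ) < r := by exact_mod_cast hr0
  have hre : ∏ p ∈ J, 1 / (p : ℝ) ^ h = 1 / (r : ℝ) := by
    rw [hr, Finset.prod_div_distrib]
    push_cast
    simp
  rw [hre, Finset.mul_sum]
  have hdv : ∀ g ∈ (SmO D v).filter (fun g => J ⊆ Fg v h g), r ∣ g := by
    intro g hg
    rw [hr]
    exact EX4_dvd v h g J (mem_filter.1 hg).2
  have hmem : ∀ g ∈ (SmO D v).filter (fun g => J ⊆ Fg v h g), g / r ∈ SmO D v := by
    intro g hg
    obtain ⟨⟨h1, h2⟩, h3, h4⟩ := (mem_SmO hD).1 (mem_filter.1 hg).1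
    obtain ⟨k, hk⟩ := hdv g hg
    have hgr : g / r = k := by rw [hk, Nat.mul_div_cancel_left _ hr0]
    rw [hgr, mem_SmO hD]
    have hk1 : 1 ≤ k := by
      rcases Nat.eq_zero_or_pos k with h | h
      · rw [h] at hk; simp at hk; omega
      · exact h
    have hkg : k ≤ g := by rw [hk]; exact Nat.le_mul_of_pos_left _ hr0
    refine ⟨⟨hk1, ?_⟩, ?_, ?_⟩
    · have : (k : ℝ) ≤ g := by exact_mod_cast hkg
      linarith
    · rw [hk] at h3
      exact (Nat.odd_mul.1 h3).2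
    · intro p hp hpk
      exact h4 p hp (by rw [hk]; exact hpk.mul_left r)
  calc ∑ g ∈ (SmO D v).filter (fun g => J ⊆ Fg v h g), 1 / (g : ℝ)
      = ∑ g ∈ (SmO D v).filter (fun g => J ⊆ Fg v h g), (1 / (r : ℝ)) * (1 / ((g / r : ℕ) : ℝ)) := by
        apply Finset.sum_congr rfl
        intro g hg
        obtain ⟨k, hk⟩ := hdv g hg
        have hgr : g / r = k := by rw [hk, Nat.mul_div_cancel_left _ hr0]
        rw [hgr, hk]
        push_cast
        rw [one_div_mul_one_div]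
    _ = ∑ k ∈ ((SmO D v).filter (fun g => J ⊆ Fg v h g)).image (fun g => g / r),
          (1 / (r : ℝ)) * (1 / (k : ℝ)) := by
        rw [Finset.sum_image]
        intro a ha b hb hab
        obtain ⟨k, hk⟩ := hdv a ha
        obtain ⟨l, hl⟩ := hdv b hb
        have h1 : a / r = k := by rw [hk, Nat.mul_div_cancel_left _ hr0]
        have h2 : b / r = l := by rw [hl, Nat.mul_div_cancel_left _ hr0]
        have h3 : a / r = b / r := hab
        rw [hk, hl, ← h1, ← h2, h3]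
    _ ≤ ∑ k ∈ SmO D v, (1 / (r : ℝ)) * (1 / (k : ℝ)) := by
        apply Finset.sum_le_sum_of_subset_of_nonneg
        · intro k hk
          obtain ⟨g, hg, rfl⟩ := mem_image.1 hk
          exact hmem g hg
        · intro k _ _
          positivity

theorem EX4_tail (v h : ℕ) (hh : 2 ≤ h) :
    ∑ p ∈ PRo v, 1 / (p : ℝ) ^ h ≤ 1 / 3 ^ (h - 2) := by
  have h1 : ∀ p ∈ PRo v, 1 / (p : ℝ) ^ h ≤ 1 / 3 ^ (h - 2) * (1 / ((p : ℝ) - 1) - 1 / p) := by
    intro p hp
    have hp3 : 3 ≤ p := by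
      obtain ⟨⟨_, h2⟩, h3⟩ := mem_PRo.1 hp
      have := h2.two_le
      omega
    have hpr : (3 : ℝ) ≤ p := by exact_mod_cast hp3
    have h2 : (p : ℝ) ^ h = (p : ℝ) ^ (h - 2) * (p : ℝ) ^ 2 := by
      rw [← pow_add]
      congr 1
      omega
    have h3 : 1 / ((p : ℝ) - 1) - 1 / p = 1 / ((p - 1) * p) := by
      have : (p : ℝ) - 1 ≠ 0 := by linarith
      have : (p : ℝ) ≠ 0 := by linarith
      field_simp
      ring
    rw [h2, h3, one_div_mul_one_div]
    apply one_div_le_one_div_of_le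
    · have : 0 < (p : ℝ) - 1 := by linarith
      positivity
    · apply mul_le_mul
      · exact pow_le_pow_left₀ (by norm_num) hpr _
      · nlinarith
      · have : 0 < (p : ℝ) - 1 := by linarith
        positivity
      · positivity
  refine (Finset.sum_le_sum h1).trans ?_
  rw [← Finset.mul_sum]
  have h2 : ∑ p ∈ PRo v, (1 / ((p : ℝ) - 1) - 1 / p) ≤ 1 := by
    have h3 : PRo v ⊆ Icc 2 (v + 1) := by
      intro p hp
      obtain ⟨⟨h1, h2⟩, h3⟩ := mem_PRo.1 hp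
      rw [mem_Icc]
      exact ⟨h2.two_le, by omega⟩
    have h4 : ∀ n : ℕ, ∑ p ∈ Icc 2 (n + 1), (1 / ((p : ℝ) - 1) - 1 / p) = 1 - 1 / (n + 1) := by
      intro n
      induction n with
      | zero => simp
      | succ n ih =>
        rw [Finset.sum_Icc_succ_top (by omega), ih]
        push_cast
        have e : (n : ℝ) + 1 + 1 - 1 = n + 1 := by ring
        rw [e]
        ring
    refine le_trans (Finset.sum_le_sum_of_subset_of_nonneg h3 ?_) ?_
    · intro p hp _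
      have h5 : (2 : ℝ) ≤ p := by exact_mod_cast (mem_Icc.1 hp).1
      have h6 : 1 / (p : ℝ) ≤ 1 / ((p : ℝ) - 1) := one_div_le_one_div_of_le (by linarith) (by linarith)
      linarith
    · rw [h4]
      have : (0 : ℝ) ≤ 1 / ((v : ℝ) + 1) := by positivity
      linarith
  have h3 : (0 : ℝ) < 1 / 3 ^ (h - 2) := by positivity
  nlinarith

theorem EX4_sum (v h : ℕ) (hh : 2 ≤ h) (D : ℝ) (hD : 0 ≤ D) :
    ∑ g ∈ SmO D v, (1 / (g : ℝ)) * 2 ^ (Fg v h g).card ≤
      Real.exp (1 / 3 ^ (h - 2)) * ∑ g ∈ SmO D v, 1 / (g : ℝ) := by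
  classical
  have h1 : ∀ g ∈ SmO D v, (1 / (g : ℝ)) * 2 ^ (Fg v h g).card =
      ∑ J ∈ (PRo v).powerset, if J ⊆ Fg v h g then 1 / (g : ℝ) else 0 := by
    intro g _
    rw [← Finset.sum_filter, Finset.sum_const, nsmul_eq_mul]
    have h2 : (PRo v).powerset.filter (fun J => J ⊆ Fg v h g) = (Fg v h g).powerset := by
      ext J
      rw [mem_filter, mem_powerset, mem_powerset]
      constructor
      · exact fun h => h.2
      · exact fun h => ⟨h.trans (filter_subset _ _), h⟩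
    rw [h2, card_powerset]
    push_cast
    ring
  rw [Finset.sum_congr rfl h1, Finset.sum_comm]
  have h2 : ∀ J ∈ (PRo v).powerset, ∑ g ∈ SmO D v, (if J ⊆ Fg v h g then 1 / (g : ℝ) else 0) ≤
      (∏ p ∈ J, 1 / (p : ℝ) ^ h) * ∑ g ∈ SmO D v, 1 / (g : ℝ) := by
    intro J hJ
    rw [← Finset.sum_filter]
    exact EX4_J v h D hD J (mem_powerset.1 hJ)
  refine (Finset.sum_le_sum h2).trans ?_
  rw [← Finset.sum_mul]
  apply mul_le_mul_of_nonneg_right _ (Finset.sum_nonneg fun _ _ => by positivity)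
  rw [← Finset.prod_one_add]
  refine (Real.prod_one_add_le_exp_sum _ (fun _ => by positivity)).trans ?_
  exact Real.exp_le_exp.2 (EX4_tail v h hh)

theorem EX4_gcd_block (M g k : ℕ) (hg : g ∣ M) :
    ((range (k * M)).filter (fun x => M.gcd x = g)).card = k * (M / g).totient := by
  have h1 : ∀ n, ((Ico n (n + M)).filter (fun x => M.gcd x = g)).card = (M / g).totient := by
    intro n
    rw [Nat.filter_Ico_card_eq_of_periodic n M (fun x => M.gcd x = g), Nat.totient_div_of_dvd hg,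
      Nat.count_eq_card_filter_range]
    intro x
    simp
  induction k with
  | zero => simp
  | succ k ih =>
    have h2 : range ((k + 1) * M) = range (k * M) ∪ Ico (k * M) (k * M + M) := by
      rw [Finset.range_eq_Ico, Finset.range_eq_Ico, Ico_union_Ico_eq_Ico (by omega) (by omega)]
      congr 1
      ring
    rw [h2, filter_union, card_union_of_disjoint, ih, h1]
    · ring
    · rw [disjoint_left]
      intro x hx hy
      have h3 := mem_range.1 (mem_filter.1 hx).1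
      have h4 := mem_Ico.1 (mem_filter.1 hy).1
      omega

theorem EX4_count (X v h : ℕ) (hh : 2 ≤ h) (D : ℝ) (hD : 0 ≤ D) :
    (((Icc 1 X).filter (fun n => (((primorial v) ^ h).gcd (2 * n - 1) : ℝ) ≤ D)).card : ℝ) ≤
      ((2 * X / (primorial v) ^ h : ℕ) + 1) * (((primorial v) ^ h).totient : ℝ) *
        (Real.exp (1 / 3 ^ (h - 2)) * ∑ g ∈ SmO D v, 1 / (g : ℝ)) := by
  classical
  obtain ⟨M, hM⟩ : ∃ M, M = (primorial v) ^ h := ⟨_, rfl⟩
  rw [← hM]
  have hM0 : 0 < M := by rw [hM]; exact pow_pos (primorial_pos v) h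
  obtain ⟨G, hG⟩ : ∃ G : Finset ℕ, G = M.divisors.filter (fun g : ℕ => Odd g ∧ (g : ℝ) ≤ D) :=
    ⟨_, rfl⟩
  obtain ⟨k, hk⟩ : ∃ k, k = 2 * X / M + 1 := ⟨_, rfl⟩
  have hcov : (((Icc 1 X).filter (fun n => ((M.gcd (2 * n - 1) : ℕ) : ℝ) ≤ D)).card) ≤
      ∑ g ∈ G, ((range (k * M)).filter (fun x => M.gcd x = g)).card := by
    rw [← card_biUnion]
    · refine card_le_card_of_injOn (fun n => 2 * n - 1) ?_ ?_
      · intro n hn
        rw [mem_coe, mem_filter, mem_Icc] at hn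
        obtain ⟨⟨hn1, hn2⟩, hn3⟩ := hn
        rw [mem_coe, mem_biUnion]
        refine ⟨M.gcd (2 * n - 1), ?_, ?_⟩
        · rw [hG, mem_filter, Nat.mem_divisors]
          refine ⟨⟨Nat.gcd_dvd_left _ _, hM0.ne'⟩, ?_, hn3⟩
          have ho : Odd (2 * n - 1) := ⟨n - 1, by omega⟩
          exact Odd.of_dvd_nat ho (Nat.gcd_dvd_right _ _)
        · rw [mem_filter, mem_range]
          refine ⟨?_, rfl⟩
          have h1 : 2 * X < M * (2 * X / M + 1) := Nat.lt_mul_div_succ _ hM0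
          have h2 : k * M = M * (2 * X / M + 1) := by rw [hk, mul_comm]
          show 2 * n - 1 < k * M
          rw [h2]
          omega
      · intro a ha b hb hab
        rw [mem_coe, mem_filter, mem_Icc] at ha hb
        have h1 : 2 * a - 1 = 2 * b - 1 := hab
        omega
    · intro a _ b _ hab
      simp only [Function.onFun]
      rw [disjoint_left]
      intro x hx hy
      exact hab ((mem_filter.1 hx).2.symm.trans (mem_filter.1 hy).2)
  have hcov' : ((((Icc 1 X).filter (fun n => ((M.gcd (2 * n - 1) : ℕ) : ℝ) ≤ D)).card : ℕ) : ℝ) ≤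
      ∑ g ∈ G, (((range (k * M)).filter (fun x => M.gcd x = g)).card : ℝ) := by
    exact_mod_cast hcov
  refine hcov'.trans ?_
  have h1 : ∀ g ∈ G, (((range (k * M)).filter (fun x => M.gcd x = g)).card : ℝ) ≤
      (k : ℝ) * (M.totient : ℝ) * ((1 / (g : ℝ)) * 2 ^ (Fg v h g).card) := by
    intro g hg
    rw [hG, mem_filter, Nat.mem_divisors] at hg
    rw [EX4_gcd_block M g k hg.1.1]
    push_cast
    have h2 := EX4_phi v h g (by omega) (by rw [← hM]; exact hg.1.1) hg.2.1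
    rw [← hM] at h2
    have h3 := mul_le_mul_of_nonneg_left h2 (Nat.cast_nonneg (α := ℝ) k)
    refine h3.trans (le_of_eq ?_)
    ring
  refine (Finset.sum_le_sum h1).trans ?_
  rw [← Finset.mul_sum]
  have h2 : G ⊆ SmO D v := by
    intro g hg
    rw [hG, mem_filter, Nat.mem_divisors] at hg
    obtain ⟨⟨h3, _⟩, h4, h5⟩ := hg
    rw [mem_SmO hD]
    refine ⟨⟨Nat.pos_of_dvd_of_pos h3 hM0, h5⟩, h4, ?_⟩
    intro p hp hpg
    have h6 : p ∣ (primorial v) ^ h := by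
      rw [← hM]
      exact hpg.trans h3
    exact (hp.dvd_primorial_iff).1 (hp.dvd_of_dvd_pow h6)
  have h3 : ∑ g ∈ G, (1 / (g : ℝ)) * 2 ^ (Fg v h g).card ≤
      ∑ g ∈ SmO D v, (1 / (g : ℝ)) * 2 ^ (Fg v h g).card :=
    Finset.sum_le_sum_of_subset_of_nonneg h2 fun _ _ _ => by positivity
  have h4 := h3.trans (EX4_sum v h hh D hD)
  have hkr : (k : ℝ) = ((2 * X / M : ℕ) : ℝ) + 1 := by
    rw [hk]
    push_cast
    ring
  rw [← hkr]
  exact mul_le_mul_of_nonneg_left h4 (by positivity)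

end Pool.Agent.Lib.MP_5d7b92_nt.UA
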