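import Pool.Agent.Lib.MP_5d7b92_nt.UA.EX4

/-!
# EX5: the extremal example

`S` = the primes `≤ 2X` which are `1` modulo `M = P(v)^h`, `v = ⌊loglog X/(8h)⌋`, `M ≤ (log X)^(1/2)`.  If `2 n = s + d q` with `q > v` then
`gcd(M, 2n-1)` divides `d`; the `n` with `q ≤ v` are negligible.
-/

open Finset Pool.Agent.Lib.GT Pool.Agent.Lib.SW

namespace Pool.Agent.Lib.MP_5d7b92_nt.UA

theorem EX5_pow (y : ℝ) (v h : ℕ) (hv : (v : ℝ) * h ≤ 1 / 4 * y) :
    (((primorial v) ^ h : ℕ) : ℝ) ≤ Real.exp (y / 2) := by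
  have h1 : (((primorial v) ^ h : ℕ) : ℝ) ≤ (4 : ℝ) ^ (v * h) := by
    rw [pow_mul]
    push_cast
    apply pow_le_pow_left₀ (Nat.cast_nonneg _)
    exact_mod_cast primorial_le_four_pow v
  have h2 : (4 : ℝ) ^ (v * h) = Real.exp ((v * h : ℕ) * Real.log 4) := by
    rw [mul_comm ((v * h : ℕ) : ℝ), Real.exp_mul, Real.exp_log (by norm_num), Real.rpow_natCast]
  have h3 : Real.log 4 ≤ 2 := by
    have h4 : Real.log 4 = 2 * Real.log 2 := by
      rw [show (4 : ℝ) = 2 ^ 2 by norm_num, Real.log_pow]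
      norm_num
    have h5 := Real.log_two_lt_d9
    linarith
  refine h1.trans ?_
  rw [h2, Real.exp_le_exp]
  push_cast
  have hz0 : (0 : ℝ) ≤ v * h := by positivity
  calc (v * h : ℝ) * Real.log 4 ≤ v * h * 2 := mul_le_mul_of_nonneg_left h3 hz0
    _ ≤ y / 2 := by linarith

/-- primes `1` modulo `W` -/
theorem EX5_dense : ∃ X₀ : ℕ, ∀ X : ℕ, X₀ ≤ X → ∀ W : ℕ, 0 < W → (W : ℝ) ≤ √(Real.log X) →
    ∀ Y : ℕ, Real.sqrt X ≤ Y → Y ≤ 2 * X →
      Y / (Real.log Y) ^ 2 ≤ ((((Icc 1 (2 * X)).filter (fun s => s.Prime ∧ s ≡ 1 [MOD W])).filter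
        (fun s => s ≤ Y)).card : ℝ) := by
  obtain ⟨C, hC, hθ⟩ := theta_ap 3 1 one_pos
  obtain ⟨X₀, hX₀⟩ := Filter.eventually_atTop.1 ((LG3_log_ev (max 16 C)).and
    (Filter.eventually_ge_atTop 16))
  refine ⟨X₀, fun X hX W hW0 hWL Y hY1 hY2 => ?_⟩
  obtain ⟨k3, k5⟩ := hX₀ X hX
  obtain ⟨L, hL⟩ : ∃ L, L = Real.log X := ⟨_, rfl⟩
  rw [← hL] at k3 hWL
  have hL16 : 16 ≤ L := (le_max_left _ _).trans k3
  have hLC : C ≤ L := (le_max_right _ _).trans k3
  have hXr : (16 : ℝ) ≤ X := by exact_mod_cast k5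
  have hX0 : (0 : ℝ) < X := by linarith
  have hW1 : (1 : ℝ) ≤ W := by exact_mod_cast hW0
  have hsL : √L ≤ L / 4 := by
    have h1 := Real.sq_sqrt (by linarith : 0 ≤ L)
    have h2 : 4 ≤ √L := by
      rw [Real.le_sqrt (by norm_num) (by linarith)]
      linarith
    nlinarith
  have hφ : 0 < W.totient := Nat.totient_pos.2 hW0
  have hφ' : (0 : ℝ) < W.totient := by exact_mod_cast hφ
  have hφW : (W.totient : ℝ) ≤ W := by exact_mod_cast Nat.totient_le W
  have h4 : (4 : ℝ) ≤ √X := by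
    rw [Real.le_sqrt (by norm_num) (by linarith)]
    linarith
  have hY0 : (4 : ℝ) ≤ Y := h4.trans hY1
  have hlY : L / 2 ≤ Real.log Y := by
    rw [hL, ← Real.log_sqrt (by linarith)]
    exact Real.log_le_log (by linarith) hY1
  have h1 := hθ W 1 hW0 (Nat.coprime_one_left W) Y (by linarith)
  rw [Nat.floor_natCast, Real.rpow_one] at h1
  have h2 : (Icc 1 Y).filter (fun n => n.Prime ∧ n ≡ 1 [MOD W]) ⊆
      ((Icc 1 (2 * X)).filter (fun s => s.Prime ∧ s ≡ 1 [MOD W])).filter (fun s => s ≤ Y) := by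
    intro s hs
    obtain ⟨hs1, hs2⟩ := mem_filter.1 hs
    obtain ⟨hs3, hs4⟩ := mem_Icc.1 hs1
    exact mem_filter.2 ⟨mem_filter.2 ⟨mem_Icc.2 ⟨hs3, hs4.trans hY2⟩, hs2⟩, hs4⟩
  refine le_trans ?_ (Nat.cast_le.2 (card_le_card h2))
  have h3 : ∑ n ∈ (Icc 1 Y).filter (fun n => n.Prime ∧ n ≡ 1 [MOD W]), Real.log n ≤
      (((Icc 1 Y).filter (fun n => n.Prime ∧ n ≡ 1 [MOD W])).card : ℝ) * Real.log Y := by
    rw [← nsmul_eq_mul, ← sum_const]
    refine sum_le_sum fun n hn => ?_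
    obtain ⟨hn1, hn2⟩ := mem_Icc.1 (mem_filter.1 hn).1
    exact Real.log_le_log (by exact_mod_cast hn1) (by exact_mod_cast hn2)
  generalize (((Icc 1 Y).filter (fun n => n.Prime ∧ n ≡ 1 [MOD W])).card : ℝ) = c at *
  generalize ∑ n ∈ (Icc 1 Y).filter (fun n => n.Prime ∧ n ≡ 1 [MOD W]), Real.log n = A at *
  have hYp : (0 : ℝ) < Y := by linarith
  generalize hl : Real.log Y = l at *
  have hl0 : 0 < l := by linarith
  have h5 : (Y : ℝ) / W ≤ Y / W.totient := div_le_div_of_nonneg_left hYp.le hφ' hφW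
  have hWl : (W : ℝ) ≤ l / 2 := by linarith
  have h6 : 2 * (Y / l) ≤ (Y : ℝ) / W := by
    rw [le_div_iff₀ (by linarith)]
    calc 2 * (Y / l) * W ≤ 2 * (Y / l) * (l / 2) :=
          mul_le_mul_of_nonneg_left hWl (by positivity)
      _ = Y := by field_simp
  have h7 : C * W * Y / l ^ 3 ≤ Y / l := by
    rw [div_le_div_iff₀ (by positivity) hl0]
    have h8 : C * W ≤ l * l := by
      have h9 : C ≤ 2 * l := by linarith
      calc C * W ≤ (2 * l) * (l / 2) := mul_le_mul h9 hWl (by linarith) (by linarith)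
        _ = l * l := by ring
    calc C * W * Y * l ≤ (l * l) * Y * l := by
          refine mul_le_mul_of_nonneg_right (mul_le_mul_of_nonneg_right h8 hYp.le) hl0.le
      _ = Y * l ^ 3 := by ring
  have h8 := (abs_le.1 h1).1
  have h9 : Y / l ≤ c * l := by linarith
  rw [div_le_iff₀ (by positivity)]
  rw [div_le_iff₀ hl0] at h9
  calc (Y : ℝ) ≤ c * l * l := h9
    _ = c * l ^ 2 := by ring

theorem EX5_gcd (M s n d q : ℕ) (hs : s.Prime) (hsM : s ≡ 1 [MOD M]) (hd : 1 ≤ d) (hq : q.Prime)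
    (hqM : ¬ q ∣ M) (hn : 2 * n = s + d * q) : M.gcd (2 * n - 1) ≤ d := by
  have h1 : M ∣ s - 1 := (Nat.modEq_iff_dvd' hs.one_lt.le).1 hsM.symm
  obtain ⟨g, hg⟩ : ∃ g, g = M.gcd (2 * n - 1) := ⟨_, rfl⟩
  rw [← hg]
  have h2 : g ∣ M := by rw [hg]; exact Nat.gcd_dvd_left _ _
  have h3 : g ∣ 2 * n - 1 := by rw [hg]; exact Nat.gcd_dvd_right _ _
  have hs1 := hs.one_lt
  have h4 : 2 * n - 1 = (s - 1) + d * q := by omega
  rw [h4] at h3
  have h5 : g ∣ d * q := (Nat.dvd_add_right (h2.trans h1)).1 h3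
  have h6 : Nat.Coprime g q := by
    rw [Nat.coprime_comm, Nat.Prime.coprime_iff_not_dvd hq]
    exact fun h => hqM (h.trans h2)
  have h7 : g ∣ d := h6.dvd_of_dvd_mul_right h5
  exact Nat.le_of_dvd hd h7

theorem EX5_h (δ : ℝ) (hδ : 0 < δ) : ∃ h : ℕ, 2 ≤ h ∧ Real.exp (1 / 3 ^ (h - 2)) ≤ 1 + δ := by
  have h1 : Filter.Tendsto (fun k : ℕ => Real.exp (1 / 3 ^ k)) Filter.atTop (nhds 1) := by
    have h2 : Filter.Tendsto (fun k : ℕ => (1 : ℝ) / 3 ^ k) Filter.atTop (nhds 0) := by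
      have h3 := tendsto_pow_atTop_nhds_zero_of_lt_one (show (0 : ℝ) ≤ 1 / 3 by norm_num)
        (by norm_num)
      refine h3.congr fun k => ?_
      rw [one_div_pow]
    have h4 := (Real.continuous_exp.tendsto 0).comp h2
    rw [Real.exp_zero] at h4
    exact h4
  obtain ⟨k, hk⟩ := (h1.eventually_lt_const (show (1 : ℝ) < 1 + δ by linarith)).exists
  refine ⟨k + 2, by omega, ?_⟩
  rw [Nat.add_sub_cancel]
  exact hk.le

theorem EX5_phi (v h : ℕ) (hh : 1 ≤ h) :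
    (((primorial v) ^ h).totient : ℝ) = ((primorial v) ^ h : ℕ) * LG3V v := by
  rw [EX4_tot, EX4_pf v h hh]
  congr 1
  unfold LG3V PR
  exact Finset.prod_congr rfl fun p _ => by rw [one_div]

open Classical in
/-- the set covering the `n` with a small prime `q` -/
theorem EX5_small (X v : ℕ) (D : ℝ) (hD : 0 ≤ D) (S : Finset ℕ) (hS : ∀ s ∈ S, s.Prime ∧ s ≤ 2 * X) :
    ((((Icc 1 X).filter (fun n => ∃ s ∈ S, ∃ m : ℕ, (m : ℝ) ≤ D * v ∧ 2 * n = s + m))).card : ℝ) ≤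
      (Nat.primeCounting (2 * X) : ℝ) * (D * v + 1) := by
  classical
  have hDv : 0 ≤ D * v := by positivity
  have h1 : (Icc 1 X).filter (fun n => ∃ s ∈ S, ∃ m : ℕ, (m : ℝ) ≤ D * v ∧ 2 * n = s + m) ⊆
      ((Nat.primesLE (2 * X)) ×ˢ range (⌊D * v⌋₊ + 1)).image (fun p => (p.1 + p.2) / 2) := by
    intro n hn
    obtain ⟨-, s, hs, m, hm, hn2⟩ := mem_filter.1 hn
    refine mem_image.2 ⟨(s, m), mem_product.2 ⟨Nat.mem_primesLE.mpr ⟨(hS s hs).2, (hS s hs).1⟩,
      mem_range.2 ?_⟩, ?_⟩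
    · exact Nat.lt_succ_of_le (Nat.le_floor hm)
    · simp only
      omega
  have h2 := (card_le_card h1).trans card_image_le
  rw [card_product, card_range, Nat.primesLE_card_eq_primeCounting] at h2
  have h3 : ((((Icc 1 X).filter (fun n => ∃ s ∈ S, ∃ m : ℕ, (m : ℝ) ≤ D * v ∧
      2 * n = s + m))).card : ℝ) ≤
      ((Nat.primeCounting (2 * X) * (⌊D * v⌋₊ + 1) : ℕ) : ℝ) := by exact_mod_cast h2
  refine h3.trans ?_
  push_cast
  apply mul_le_mul_of_nonneg_left _ (Nat.cast_nonneg _)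
  have := Nat.floor_le hDv
  linarith

theorem EX5_mono (v w : ℕ) (hvw : v ≤ w) (D : ℝ) (hD : 0 ≤ D) :
    ∑ g ∈ SmO D v, 1 / (g : ℝ) ≤ ∑ g ∈ SmO D w, 1 / (g : ℝ) := by
  apply Finset.sum_le_sum_of_subset_of_nonneg
  · intro g hg
    rw [mem_SmO hD] at hg ⊢
    exact ⟨hg.1, hg.2.1, fun p hp hpg => (hg.2.2 p hp hpg).trans hvw⟩
  · intro g _ _
    positivity

theorem EX5_one_le (w : ℕ) (D : ℝ) (hD : 1 ≤ D) : 1 ≤ ∑ g ∈ SmO D w, 1 / (g : ℝ) := by
  have h1 : (1 : ℕ) ∈ SmO D w := by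
    rw [mem_SmO (by linarith)]
    refine ⟨⟨le_refl _, by simpa using hD⟩, odd_one, ?_⟩
    intro p hp hp1
    exact absurd (Nat.dvd_one.1 hp1) hp.one_lt.ne'
  have h2 := Finset.single_le_sum (f := fun g : ℕ => 1 / (g : ℝ)) (fun i _ => by positivity) h1
  simpa using h2

theorem EX5_a (δ T a b e : ℝ) (hδ : 0 < δ) (hδ3 : δ ≤ 1 / 3) (hT : 0 < T) (hb : 0 < b)
    (h1 : T * a ≤ (1 + δ) * e) (h2 : (1 - δ) * e ≤ T * b) : a ≤ (1 + 3 * δ) * b := by
  have h3 : (1 - δ) * (T * a) ≤ (1 - δ) * ((1 + δ) * e) :=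
    mul_le_mul_of_nonneg_left h1 (by linarith)
  have h4 : (1 + δ) * ((1 - δ) * e) ≤ (1 + δ) * (T * b) :=
    mul_le_mul_of_nonneg_left h2 (by linarith)
  have h5 : T * ((1 - δ) * a) ≤ T * ((1 + δ) * b) := by
    calc T * ((1 - δ) * a) = (1 - δ) * (T * a) := by ring
      _ ≤ (1 - δ) * ((1 + δ) * e) := h3
      _ = (1 + δ) * ((1 - δ) * e) := by ring
      _ ≤ (1 + δ) * (T * b) := h4
      _ = T * ((1 + δ) * b) := by ring
  have h6 : (1 - δ) * a ≤ (1 + δ) * b := le_of_mul_le_mul_left h5 hT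
  have h7 : (1 + δ) ≤ (1 - δ) * (1 + 3 * δ) := by nlinarith
  have h8 : (1 - δ) * a ≤ (1 - δ) * ((1 + 3 * δ) * b) := by
    calc (1 - δ) * a ≤ (1 + δ) * b := h6
      _ ≤ ((1 - δ) * (1 + 3 * δ)) * b := mul_le_mul_of_nonneg_right h7 hb.le
      _ = _ := by ring
  exact le_of_mul_le_mul_left h8 (by linarith)

theorem EX5_b (δ ε : ℝ) (hδ : 0 < δ) (hδ3 : δ ≤ 1 / 3) (hδε : 9 * δ ≤ ε) :
    δ + (1 + δ) ^ 2 * (1 + 3 * δ) ≤ 1 + ε := by
  have h1 : δ ^ 2 ≤ δ / 3 := by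
    rw [sq]
    nlinarith
  have h2 : δ ^ 3 ≤ δ / 9 := by
    have h3 : δ ^ 3 = δ * δ ^ 2 := by ring
    rw [h3]
    nlinarith
  have h4 : δ + (1 + δ) ^ 2 * (1 + 3 * δ) = 1 + 6 * δ + 7 * δ ^ 2 + 3 * δ ^ 3 := by ring
  rw [h4]
  linarith

theorem EX5_c (X L l : ℝ) (hX : 0 < X) (hL : 0 < L) (h : L ≤ l) :
    5 * (2 * X) / l ≤ 10 * X / L := by
  rw [div_le_div_iff₀ (by linarith) (by linarith)]
  nlinarith

theorem EX5_d (L : ℝ) (hL : 1 ≤ L) : √L ≤ L := by
  rw [Real.sqrt_le_left (by linarith)]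
  nlinarith

open Classical in
theorem upper_uniform (ε : ℝ) (hε : 0 < ε) : ∃ X₀ : ℕ, ∀ X : ℕ, X₀ ≤ X → ∃ S : Finset ℕ,
    (∀ s ∈ S, s.Prime ∧ s ≤ 2 * X) ∧
    (∀ Y : ℕ, Real.sqrt X ≤ Y → Y ≤ 2 * X →
      Y / (Real.log Y) ^ 2 ≤ ((S.filter (fun s => s ≤ Y)).card : ℝ)) ∧
    ∀ D : ℝ, 1 ≤ D → D ≤ Real.sqrt (Real.log X) →
      ((supC D X S).card : ℝ) ≤ (1 + ε) * (gX X D * X) := by
  obtain ⟨δ, hδ, hδ3, hδε⟩ : ∃ δ : ℝ, 0 < δ ∧ δ ≤ 1 / 3 ∧ 9 * δ ≤ ε :=
    ⟨min (1 / 3) (ε / 9), lt_min (by norm_num) (by linarith), min_le_left _ _, by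
      have := min_le_right (1 / 3) (ε / 9)
      linarith⟩
  obtain ⟨h, hh2, hh⟩ := EX5_h δ hδ
  obtain ⟨X₁, hX₁⟩ := EX5_dense
  have hhr : (2 : ℝ) ≤ h := by exact_mod_cast hh2
  have hc0 : (0 : ℝ) < 1 / (8 * h) := by positivity
  have hg0 := Real.exp_pos (-Real.eulerMascheroniConstant)
  have hg2 : (1 / 2 : ℝ) ≤ Real.exp (-Real.eulerMascheroniConstant) := by
    have h1 := Real.eulerMascheroniConstant_lt_two_thirds
    have h2 : Real.exp (-(2 / 3)) ≤ Real.exp (-Real.eulerMascheroniConstant) :=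
      Real.exp_le_exp.2 (by linarith)
    have h3 : (1 / 2 : ℝ) ≤ Real.exp (-(2 / 3)) := by
      have h4 : Real.exp (-Real.log 2) = 1 / 2 := by
        rw [Real.exp_neg, Real.exp_log (by norm_num), one_div]
      rw [← h4]
      apply Real.exp_le_exp.2
      have := Real.log_two_gt_d9
      linarith
    linarith
  have e1 : ∀ᶠ X : ℕ in Filter.atTop, Real.log (Real.log (Real.log X)) *
      LG3V ⌊1 / (8 * h) * Real.log (Real.log X)⌋₊ ≤
      (1 + δ) * Real.exp (-Real.eulerMascheroniConstant) := by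
    have h1 := (LG3_mertens (1 / (8 * h)) hc0).comp LG3_loglog
    have h2 : Real.exp (-Real.eulerMascheroniConstant) <
        (1 + δ) * Real.exp (-Real.eulerMascheroniConstant) := by
      rw [add_mul, one_mul]
      linarith [mul_pos hδ hg0]
    exact (h1.eventually_lt_const h2).mono fun X hX => hX.le
  have e2 : ∀ᶠ X : ℕ in Filter.atTop, (1 - δ) * Real.exp (-Real.eulerMascheroniConstant) ≤
      Real.log (Real.log (Real.log X)) * LG3V ⌊1 * Real.log (Real.log X)⌋₊ := by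
    have h1 := (LG3_mertens 1 one_pos).comp LG3_loglog
    have h2 : (1 - δ) * Real.exp (-Real.eulerMascheroniConstant) <
        Real.exp (-Real.eulerMascheroniConstant) := by
      rw [sub_mul, one_mul]
      linarith [mul_pos hδ hg0]
    exact (h1.eventually_const_lt h2).mono fun X hX => hX.le
  have hLL : Filter.Tendsto (fun X : ℕ => Real.log (X : ℝ)) Filter.atTop Filter.atTop :=
    Real.tendsto_log_atTop.comp tendsto_natCast_atTop_atTop
  have e3 : ∀ᶠ X : ℕ in Filter.atTop,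
      (Real.log (Real.log X)) ^ 2 ≤ δ / 40 * √(Real.log X) := by
    have h1 : (fun x : ℝ => Real.log x ^ (2 : ℝ)) =o[Filter.atTop] fun x => x ^ (1 / 2 : ℝ) :=
      isLittleO_log_rpow_rpow_atTop 2 (by norm_num)
    have h2 := h1.def (show (0 : ℝ) < δ / 40 by positivity)
    have h3 := hLL.eventually (h2.and (Filter.eventually_ge_atTop 1))
    filter_upwards [h3] with X hX
    obtain ⟨hX1, hX2⟩ := hX
    have h4 : 0 ≤ Real.log (Real.log (X : ℝ)) := Real.log_nonneg hX2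
    rw [Real.norm_of_nonneg (by positivity), Real.norm_of_nonneg (by positivity)] at hX1
    rw [Real.sqrt_eq_rpow]
    have h5 : Real.log (Real.log (X : ℝ)) ^ (2 : ℝ) = Real.log (Real.log (X : ℝ)) ^ 2 := by
      norm_cast
    rw [h5] at hX1
    exact hX1
  obtain ⟨X₂, hX₂⟩ := Filter.eventually_atTop.1 (e1.and (e2.and (e3.and ((LG3_log3_ev 1).and
    ((LG3_log_ev 16).and ((LG3_loglog_ev 4).and ((Filter.eventually_ge_atTop 16).and
      (eventually_log_pow 1 δ hδ))))))))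
  refine ⟨max X₁ X₂, fun X hX => ?_⟩
  have hXa : X₁ ≤ X := (le_max_left _ _).trans hX
  obtain ⟨k1, k2, k3, k4, k5, k6, k7, k8⟩ := hX₂ X ((le_max_right _ _).trans hX)
  obtain ⟨L, hL⟩ : ∃ L, L = Real.log (X : ℝ) := ⟨_, rfl⟩
  obtain ⟨y, hy⟩ : ∃ y, y = Real.log L := ⟨_, rfl⟩
  obtain ⟨T, hT⟩ : ∃ T, T = Real.log y := ⟨_, rfl⟩
  rw [← hL, ← hy, ← hT] at k1 k2
  rw [← hL, ← hy] at k3
  rw [← hL, ← hy, ← hT] at k4
  rw [← hL] at k5
  rw [← hL, ← hy] at k6
  rw [← hL] at k8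
  have hXr : (16 : ℝ) ≤ X := by exact_mod_cast k7
  have hX0 : (0 : ℝ) < X := by linarith
  have hL0 : 0 < L := by linarith
  have hy0 : 0 < y := by linarith
  have hT0 : 0 < T := by linarith
  obtain ⟨v, hv⟩ : ∃ v, v = ⌊1 / (8 * (h : ℝ)) * y⌋₊ := ⟨_, rfl⟩
  have hvy : (v : ℝ) * h ≤ 1 / 4 * y := by
    have h1 : (v : ℝ) ≤ 1 / (8 * (h : ℝ)) * y := by
      rw [hv]
      exact Nat.floor_le (by positivity)
    calc (v : ℝ) * h ≤ 1 / (8 * (h : ℝ)) * y * h := mul_le_mul_of_nonneg_right h1 (by positivity)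
      _ = 1 / 8 * y := by field_simp
      _ ≤ 1 / 4 * y := by linarith
  have hvy2 : (v : ℝ) ≤ y := by
    have h0 : (0 : ℝ) ≤ v := Nat.cast_nonneg _
    have h1 : (v : ℝ) * 1 ≤ v * h := mul_le_mul_of_nonneg_left (by linarith) h0
    linarith
  have hvw : v ≤ wX X := by
    unfold wX
    apply Nat.le_floor
    rw [← hL, ← hy]
    exact hvy2
  obtain ⟨M, hM⟩ : ∃ M, M = (primorial v) ^ h := ⟨_, rfl⟩
  have hM0 : 0 < M := by rw [hM]; exact pow_pos (primorial_pos v) h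
  have hML : (M : ℝ) ≤ √L := by
    have h1 := EX5_pow y v h hvy
    rw [← hM] at h1
    refine h1.trans (le_of_eq ?_)
    rw [Real.exp_half, hy, Real.exp_log hL0]
  rw [← hv] at k1
  have hwv : ⌊1 * y⌋₊ = wX X := by
    unfold wX
    rw [one_mul, hy, hL]
  rw [hwv] at k2
  refine ⟨(Icc 1 (2 * X)).filter (fun s => s.Prime ∧ s ≡ 1 [MOD M]), ?_, ?_, ?_⟩
  · intro s hs
    obtain ⟨hs1, hs2, -⟩ := mem_filter.1 hs
    exact ⟨hs2, (mem_Icc.1 hs1).2⟩
  · exact hX₁ X hXa M hM0 (by rw [← hL]; exact hML)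
  · intro D hD1 hDL
    have hD0 : 0 ≤ D := by linarith
    rw [← hL] at hDL
    obtain ⟨S, hS⟩ : ∃ S, S = (Icc 1 (2 * X)).filter (fun s => s.Prime ∧ s ≡ 1 [MOD M]) := ⟨_, rfl⟩
    rw [← hS]
    have hSp : ∀ s ∈ S, s.Prime ∧ s ≤ 2 * X := by
      intro s hs
      rw [hS] at hs
      obtain ⟨hs1, hs2, -⟩ := mem_filter.1 hs
      exact ⟨hs2, (mem_Icc.1 hs1).2⟩
    have hSm : ∀ s ∈ S, s ≡ 1 [MOD M] := by
      intro s hs
      rw [hS] at hs
      exact (mem_filter.1 hs).2.2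
    obtain ⟨A, hA⟩ : ∃ A, A = (Icc 1 X).filter (fun n => ∃ s ∈ S, ∃ m : ℕ, (m : ℝ) ≤ D * v ∧
      2 * n = s + m) := ⟨_, rfl⟩
    obtain ⟨B, hB⟩ : ∃ B, B = (Icc 1 X).filter (fun n => ((M.gcd (2 * n - 1) : ℕ) : ℝ) ≤ D) :=
      ⟨_, rfl⟩
    have hcov : supC D X S ⊆ A ∪ B := by
      intro n hn
      unfold supC at hn
      obtain ⟨hn1, s, hs, d, q, hd1, hdD, hq, hn2⟩ := mem_filter.1 hn
      rw [mem_union]
      by_cases hqv : q ≤ v
      · left
        rw [hA, mem_filter]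
        refine ⟨hn1, s, hs, d * q, ?_, hn2⟩
        push_cast
        apply mul_le_mul hdD _ (Nat.cast_nonneg _) hD0
        exact_mod_cast hqv
      · right
        rw [hB, mem_filter]
        refine ⟨hn1, ?_⟩
        have hqM : ¬ q ∣ M := by
          rw [hM]
          intro h1
          exact hqv ((hq.dvd_primorial_iff).1 (hq.dvd_of_dvd_pow h1))
        have h1 := EX5_gcd M s n d q (hSp s hs).1 (hSm s hs) hd1 hq hqM hn2
        have h2 : ((M.gcd (2 * n - 1) : ℕ) : ℝ) ≤ d := by exact_mod_cast h1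
        linarith
    have hcard : ((supC D X S).card : ℝ) ≤ A.card + B.card := by
      exact_mod_cast (card_le_card hcov).trans (card_union_le _ _)
    obtain ⟨σ, hσ⟩ : ∃ σ : ℝ, σ = ∑ g ∈ SmO D (wX X), 1 / (g : ℝ) := ⟨_, rfl⟩
    have hσ1 : 1 ≤ σ := by rw [hσ]; exact EX5_one_le _ _ hD1
    -- gX in terms of LG3V
    have hVw : cW (wX X) = 1 / LG3V (wX X) := by
      rw [← LG3_V]
      unfold cW
      rw [one_div_div]
    have hVpos : 0 < LG3V (wX X) := by
      have h1 := cW_pos (wX X)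
      rw [hVw] at h1
      exact one_div_pos.1 h1
    have hgX : gX X D = 2 * LG3V (wX X) * σ := by
      unfold gX
      rw [← hσ, hVw]
      field_simp
    -- comparison of the Mertens products
    have hVv : LG3V v ≤ (1 + 3 * δ) * LG3V (wX X) :=
      EX5_a δ T _ _ _ hδ hδ3 hT0 hVpos k1 k2
    have hVlow : 1 / 4 ≤ T * LG3V (wX X) := by
      refine le_trans ?_ k2
      calc (1 / 4 : ℝ) ≤ (1 / 2) * (1 / 2) := by norm_num
        _ ≤ (1 - δ) * Real.exp (-Real.eulerMascheroniConstant) :=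
            mul_le_mul (by linarith) hg2 (by norm_num) (by linarith)
    -- A
    have hAle : (A.card : ℝ) ≤ δ * (gX X D * X) := by
      have h1 := EX5_small X v D hD0 S hSp
      rw [← hA] at h1
      have h2 := MP_5d7b92_nt.primeCounting_le (2 * X) (by omega)
      have h3 : L ≤ Real.log ((2 * X : ℕ) : ℝ) := by
        rw [hL]
        refine Real.log_le_log hX0 ?_
        push_cast
        linarith
      have h4 : (Nat.primeCounting (2 * X) : ℝ) ≤ 10 * X / L := by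
        refine h2.trans ?_
        have h5 := EX5_c X L _ hX0 hL0 h3
        push_cast at h5 ⊢
        exact h5
      have hsL : √L * √L = L := Real.mul_self_sqrt hL0.le
      have hsL0 : 0 < √L := Real.sqrt_pos.2 hL0
      have hsL1 : 1 ≤ √L := by
        rw [Real.one_le_sqrt]
        linarith
      have h5 : D * v + 1 ≤ 2 * (√L * y) := by
        have h6 : D * v ≤ √L * y := mul_le_mul hDL hvy2 (Nat.cast_nonneg _) hsL0.le
        have h7 : 1 ≤ √L * y := one_le_mul_of_one_le_of_one_le hsL1 (by linarith)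
        linarith
      have h6 : (A.card : ℝ) ≤ 10 * X / L * (2 * (√L * y)) :=
        h1.trans (mul_le_mul h4 h5 (by positivity) (by positivity))
      have h7 : 10 * X / L * (2 * (√L * y)) = 20 * X * y / √L := by
        have : 10 * X / L = 10 * X / (√L * √L) := by rw [hsL]
        rw [this]
        field_simp
        ring
      have hTy : T ≤ y := by
        rw [hT]
        exact (Real.log_le_sub_one_of_pos hy0).trans (by linarith)
      have h8 : 20 * X * y / √L * T ≤ δ / 2 * X := by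
        calc 20 * X * y / √L * T ≤ 20 * X * y / √L * y :=
              mul_le_mul_of_nonneg_left hTy (by positivity)
          _ = 20 * X * (y ^ 2) / √L := by ring
          _ ≤ 20 * X * (δ / 40 * √L) / √L := by gcongr
          _ = δ / 2 * X := by
              field_simp
              ring
      have h9 : δ / 2 * X ≤ δ * (gX X D * X) * T := by
        rw [hgX]
        have h10 : 1 / 4 * 1 ≤ (T * LG3V (wX X)) * σ :=
          mul_le_mul hVlow hσ1 (by norm_num) (by positivity)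
        calc δ / 2 * X = 2 * δ * X * (1 / 4 * 1) := by ring
          _ ≤ 2 * δ * X * ((T * LG3V (wX X)) * σ) :=
              mul_le_mul_of_nonneg_left h10 (by positivity)
          _ = _ := by ring
      have h11 : (A.card : ℝ) * T ≤ δ * (gX X D * X) * T := by
        calc (A.card : ℝ) * T ≤ 20 * X * y / √L * T := by
              rw [← h7]
              exact mul_le_mul_of_nonneg_right h6 hT0.le
          _ ≤ _ := h8.trans h9
      exact le_of_mul_le_mul_right h11 hT0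
    -- B
    have hBle : (B.card : ℝ) ≤ (1 + δ) ^ 2 * (1 + 3 * δ) * (gX X D * X) := by
      have h1 := EX4_count X v h hh2 D hD0
      rw [← hM] at h1
      rw [← hB] at h1
      have hMr : (0 : ℝ) < M := by exact_mod_cast hM0
      have hphi := EX5_phi v h (by omega)
      rw [← hM] at hphi
      have h2 : (((2 * X / M : ℕ) : ℕ) : ℝ) ≤ 2 * X / M := by
        refine (Nat.cast_div_le).trans (le_of_eq ?_)
        push_cast
        ring
      have hV0 : 0 ≤ LG3V v := by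
        unfold LG3V
        apply Finset.prod_nonneg
        intro p hp
        have h3 : (2 : ℝ) ≤ p := by exact_mod_cast (mem_filter.1 hp).2.two_le
        have h4 : 1 / (p : ℝ) ≤ 1 := by
          rw [div_le_one (by linarith)]
          linarith
        linarith
      have h3 : (((2 * X / M : ℕ) : ℝ) + 1) * (M.totient : ℝ) ≤ (1 + δ) * (2 * X) * LG3V v := by
        rw [hphi]
        calc (((2 * X / M : ℕ) : ℝ) + 1) * (M * LG3V v) ≤ (2 * X / M + 1) * (M * LG3V v) :=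
              mul_le_mul_of_nonneg_right (by linarith) (by positivity)
          _ = (2 * X + M) * LG3V v := by field_simp
          _ ≤ ((1 + δ) * (2 * X)) * LG3V v := by
              apply mul_le_mul_of_nonneg_right _ hV0
              have h4 : √L ≤ L := EX5_d L (by linarith)
              rw [pow_one] at k8
              have h5 : 0 ≤ δ * X := by positivity
              linarith
          _ = _ := by ring
      have h4 : ∑ g ∈ SmO D v, 1 / (g : ℝ) ≤ σ := by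
        rw [hσ]
        exact EX5_mono v (wX X) hvw D hD0
      have h40 : 0 ≤ ∑ g ∈ SmO D v, 1 / (g : ℝ) := Finset.sum_nonneg fun _ _ => by positivity
      calc (B.card : ℝ) ≤ (((2 * X / M : ℕ) : ℝ) + 1) * (M.totient : ℝ) *
            (Real.exp (1 / 3 ^ (h - 2)) * ∑ g ∈ SmO D v, 1 / (g : ℝ)) := h1
        _ ≤ ((1 + δ) * (2 * X) * LG3V v) * ((1 + δ) * σ) := by
            apply mul_le_mul h3 _ (by positivity) (by positivity)
            exact mul_le_mul hh h4 h40 (by linarith)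
        _ ≤ ((1 + δ) * (2 * X) * ((1 + 3 * δ) * LG3V (wX X))) * ((1 + δ) * σ) := by
            gcongr
        _ = (1 + δ) ^ 2 * (1 + 3 * δ) * (2 * LG3V (wX X) * σ * X) := by ring
        _ = _ := by rw [hgX]
    have hgX0 : 0 ≤ gX X D * X := by
      rw [hgX]
      positivity
    have hfin : δ + (1 + δ) ^ 2 * (1 + 3 * δ) ≤ 1 + ε := EX5_b δ ε hδ hδ3 hδε
    calc ((supC D X S).card : ℝ) ≤ A.card + B.card := hcard
      _ ≤ δ * (gX X D * X) + (1 + δ) ^ 2 * (1 + 3 * δ) * (gX X D * X) := add_le_add hAle hBle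
      _ = (δ + (1 + δ) ^ 2 * (1 + 3 * δ)) * (gX X D * X) := by ring
      _ ≤ (1 + ε) * (gX X D * X) := mul_le_mul_of_nonneg_right hfin hgX0

end Pool.Agent.Lib.MP_5d7b92_nt.UA
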