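import Pool.Agent.Lib.MP_5d7b92_nt.UA.Tu
import Pool.Agent.Lib.MP_5d7b92_nt.UA.Me

/-!
# Fb: few integers have a large smooth part

PROOFS. ℓ = loglog w → ∞. `few_bad`: the m ≤ M with sp w m > w^C number ≤ M (log w + C₁)/(C log w) ≤ 2M/C (Markov for `sum_log_sp`, log w ≥ C₁) ≤ εM/3 for C = 6/ε.
If bO (sp w m) > (1+ε) ℓ then bO (sp w m) - om w m > (ε/2) ℓ - C₀ ≥ (ε/4) ℓ (at most (M + w)/((ε/4) ℓ) ≤ εM/3 such m, Markov; the summands are
≥ 0 by `om_le_sp`) or om w m - P1 w > (ε/2) ℓ - C₀... precisely: (1+ε)ℓ < bO = (bO - om) + (om - P1) + P1 ≤ (bO - om) + (om - P1) + ℓ + C₀, so one of the two brackets is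
> (εℓ - C₀)/2 ≥ εℓ/4 for w large; Chebyshev with `turan`: #{|om - P1| > εℓ/4} ≤ (M P1 + 2w²)·16/(ε²ℓ²) ≤ M(ℓ + C₀ + 1)·16/(ε²ℓ²) ≤ εM/3.
`few_low`: om w m < (1-ε) ℓ implies P1 - om > εℓ - C₀ ≥ εℓ/2; same Chebyshev.
-/

open Finset Pool.Agent.Lib.GT Pool.Agent.Lib.SW

namespace Pool.Agent.Lib.MP_5d7b92_nt.UA

private theorem Fb_markov (s : Finset ℕ) (f : ℕ → ℝ) (hf : ∀ m ∈ s, 0 ≤ f m) (t : ℝ)
    (P : ℕ → Prop) [DecidablePred P] (hP : ∀ m ∈ s, P m → t ≤ f m) :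
    ((s.filter P).card : ℝ) * t ≤ ∑ m ∈ s, f m := by
  rw [← nsmul_eq_mul, ← sum_const]
  refine (sum_le_sum fun m hm => ?_).trans
    (sum_le_sum_of_subset_of_nonneg (filter_subset P s) fun m hm _ => hf m hm)
  obtain ⟨h1, h2⟩ := mem_filter.1 hm
  exact hP m h1 h2

private theorem Fb_sp_pos (w m : ℕ) : 0 < sp w m := by
  unfold sp
  exact Finset.prod_pos fun p hp => pow_pos (mem_PR.1 hp).2.pos _

private theorem Fb_ev (T : ℝ) : ∃ w₁ : ℕ, ∀ w : ℕ, w₁ ≤ w →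
    3 ≤ w ∧ T ≤ Real.log w ∧ T ≤ Real.log (Real.log w) := by
  obtain ⟨w₁, h⟩ := Filter.eventually_atTop.1 ((LG3_log_ev T).and ((LG3_loglog_ev T).and
    (Filter.eventually_ge_atTop 3)))
  exact ⟨w₁, fun w hw => ⟨(h w hw).2.2, (h w hw).1, (h w hw).2.1⟩⟩

private theorem Fb_cheb (ε : ℝ) (hε : 0 < ε) : ∃ w₁ : ℕ, ∀ w M : ℕ, w₁ ≤ w → w ^ 3 ≤ M →
    (((Icc 1 M).filter (fun m => ε / 4 * Real.log (Real.log w) ≤ |(om w m : ℝ) - P1 w|)).card : ℝ) ≤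
      ε / 3 * M := by
  obtain ⟨C₀, hC₀, hM⟩ := mertens_two
  obtain ⟨w₁, hw₁⟩ := Fb_ev (max (C₀ + 1) (96 / ε ^ 3))
  refine ⟨w₁, fun w M hw hwM => ?_⟩
  obtain ⟨h3, -, hℓ⟩ := hw₁ w hw
  have hℓ1 : C₀ + 1 ≤ Real.log (Real.log w) := (le_max_left _ _).trans hℓ
  have hℓ2 : 96 / ε ^ 3 ≤ Real.log (Real.log w) := (le_max_right _ _).trans hℓ
  have hP := (abs_le.1 (hM w h3)).2
  generalize Real.log (Real.log w) = l at *
  have hl0 : 0 < l := by linarith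
  have ht : 0 < ε / 4 * l := by positivity
  have h1 := Fb_markov (Icc 1 M) (fun m => ((om w m : ℝ) - P1 w) ^ 2) (fun m _ => sq_nonneg _)
    ((ε / 4 * l) ^ 2) (fun m => ε / 4 * l ≤ |(om w m : ℝ) - P1 w|) (fun m _ hm => by
      rw [← sq_abs ((om w m : ℝ) - P1 w)]
      exact pow_le_pow_left₀ ht.le hm 2)
  have h2 := turan w M
  generalize (((Icc 1 M).filter (fun m => ε / 4 * l ≤ |(om w m : ℝ) - P1 w|)).card : ℝ) = c at *
  have hM0 : (0 : ℝ) ≤ M := Nat.cast_nonneg M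
  have hw2 : 2 * (w : ℝ) ^ 2 ≤ M := by
    have h4 : 2 * w ^ 2 ≤ w ^ 3 := by
      calc 2 * w ^ 2 ≤ w * w ^ 2 := Nat.mul_le_mul_right _ (by omega)
        _ = w ^ 3 := by ring
    have h5 : 2 * w ^ 2 ≤ M := h4.trans hwM
    exact_mod_cast h5
  have h3' : (M : ℝ) * P1 w ≤ M * (l + C₀) := mul_le_mul_of_nonneg_left (by linarith) hM0
  have h4 : c * (ε / 4 * l) ^ 2 ≤ 2 * M * l := by
    have h5 : (M : ℝ) * (C₀ + 1) ≤ M * l := mul_le_mul_of_nonneg_left hℓ1 hM0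
    have h6 : c * (ε / 4 * l) ^ 2 ≤ M * P1 w + 2 * (w : ℝ) ^ 2 := h1.trans h2
    nlinarith
  have h7 : 96 ≤ ε ^ 3 * l := by
    rw [div_le_iff₀ (by positivity)] at hℓ2
    linarith
  -- c ε² l² / 16 ≤ 2 M l, so c ε² l ≤ 32 M, c ε² l ε ≤ 32 M ε, 96 c ≤ 32 M ε
  have h8 : c * (ε ^ 2 * l) ≤ 32 * M := by
    have h9 : (c * (ε ^ 2 * l)) * l ≤ (32 * M) * l := by nlinarith
    exact le_of_mul_le_mul_right h9 hl0
  have h10 : c * 96 ≤ 32 * M * ε := by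
    rcases le_or_gt 0 c with hc | hc
    · calc c * 96 ≤ c * (ε ^ 3 * l) := mul_le_mul_of_nonneg_left h7 hc
        _ = (c * (ε ^ 2 * l)) * ε := by ring
        _ ≤ (32 * M) * ε := mul_le_mul_of_nonneg_right h8 hε.le
    · have : (0 : ℝ) ≤ 32 * M * ε := by positivity
      linarith
  linarith

theorem few_bad (ε : ℝ) (hε : 0 < ε) : ∃ C : ℝ, 0 < C ∧ ∃ w₀ : ℕ, ∀ w M : ℕ, w₀ ≤ w → w ^ 3 ≤ M →
    (((Icc 1 M).filter (fun m => ¬ ((sp w m : ℝ) ≤ (w : ℝ) ^ C ∧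
      (bO (sp w m) : ℝ) ≤ (1 + ε) * Real.log (Real.log w)))).card : ℝ) ≤ ε * M := by
  obtain ⟨C₀, hC₀, hMe⟩ := mertens_two
  obtain ⟨C₁, hC₁, hsl⟩ := sum_log_sp
  obtain ⟨w₁, hw₁⟩ := Fb_cheb ε hε
  obtain ⟨w₂, hw₂⟩ := Fb_ev (max (max 1 C₁) (max (2 * C₀ / ε) (24 / ε ^ 2)))
  refine ⟨6 / ε, by positivity, max w₁ w₂, fun w M hw hwM => ?_⟩
  have hc := hw₁ w M ((le_max_left _ _).trans hw) hwM
  obtain ⟨h3, hL, hℓ⟩ := hw₂ w ((le_max_right _ _).trans hw)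
  have hL1 : 1 ≤ Real.log w := ((le_max_left _ _).trans (le_max_left _ _)).trans hL
  have hL2 : C₁ ≤ Real.log w := ((le_max_right _ _).trans (le_max_left _ _)).trans hL
  have hℓ0 : 1 ≤ Real.log (Real.log w) := ((le_max_left _ _).trans (le_max_left _ _)).trans hℓ
  have hℓ1 : 2 * C₀ / ε ≤ Real.log (Real.log w) :=
    ((le_max_left _ _).trans (le_max_right _ _)).trans hℓ
  have hℓ2 : 24 / ε ^ 2 ≤ Real.log (Real.log w) :=
    ((le_max_right _ _).trans (le_max_right _ _)).trans hℓ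
  have hP := (abs_le.1 (hMe w h3)).2
  have hwr : (3 : ℝ) ≤ w := by exact_mod_cast h3
  have hM0 : (0 : ℝ) ≤ M := Nat.cast_nonneg M
  -- the first kind
  have hA := Fb_markov (Icc 1 M) (fun m => Real.log (sp w m))
    (fun m _ => Real.log_natCast_nonneg _) (6 / ε * Real.log w)
    (fun m => ¬ ((sp w m : ℝ) ≤ (w : ℝ) ^ (6 / ε))) (fun m _ hm => by
      rw [← Real.log_rpow (by linarith)]
      exact Real.log_le_log (Real.rpow_pos_of_pos (by linarith) _) (not_le.1 hm).le)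
  have hA' := hA.trans (hsl w M (by omega))
  -- the second kind
  generalize hl : Real.log (Real.log w) = l at *
  have hl0 : 0 < l := by linarith
  have hB := Fb_markov (Icc 1 M) (fun m => (bO (sp w m) : ℝ) - om w m)
    (fun m hm => by
      have h4 := om_le_sp w m (by have := (mem_Icc.1 hm).1; omega)
      have h5 : (om w m : ℝ) ≤ bO (sp w m) := by exact_mod_cast h4
      linarith) (ε / 4 * l)
    (fun m => ε / 4 * l ≤ (bO (sp w m) : ℝ) - om w m) (fun m _ hm => hm)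
  have hB' := hB.trans (sum_Om w M)
  have hwM' : (w : ℝ) ≤ M := by
    have h4 : w ≤ w ^ 3 := Nat.le_self_pow (by norm_num) w
    exact_mod_cast h4.trans hwM
  -- the inclusion
  have hcov : (Icc 1 M).filter (fun m => ¬ ((sp w m : ℝ) ≤ (w : ℝ) ^ (6 / ε) ∧
      (bO (sp w m) : ℝ) ≤ (1 + ε) * l)) ⊆
      ((Icc 1 M).filter (fun m => ¬ ((sp w m : ℝ) ≤ (w : ℝ) ^ (6 / ε))) ∪
        (Icc 1 M).filter (fun m => ε / 4 * l ≤ (bO (sp w m) : ℝ) - om w m)) ∪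
        (Icc 1 M).filter (fun m => ε / 4 * l ≤ |(om w m : ℝ) - P1 w|) := by
    intro m hm
    obtain ⟨hm1, hm2⟩ := mem_filter.1 hm
    rw [mem_union, mem_union]
    by_cases h4 : (sp w m : ℝ) ≤ (w : ℝ) ^ (6 / ε)
    · have h5 : ¬ ((bO (sp w m) : ℝ) ≤ (1 + ε) * l) := fun h => hm2 ⟨h4, h⟩
      rw [not_le] at h5
      by_cases h6 : ε / 4 * l ≤ (bO (sp w m) : ℝ) - om w m
      · exact Or.inl (Or.inr (mem_filter.2 ⟨hm1, h6⟩))
      · right
        refine mem_filter.2 ⟨hm1, ?_⟩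
        rw [not_le] at h6
        have h7 : 2 * C₀ ≤ ε * l := by
          rw [div_le_iff₀ hε] at hℓ1
          linarith
        refine le_trans ?_ (le_abs_self _)
        linarith
    · exact Or.inl (Or.inl (mem_filter.2 ⟨hm1, h4⟩))
  have htot := (Nat.cast_le (α := ℝ)).2 ((card_le_card hcov).trans (card_union_le _ _))
  have htot2 := (Nat.cast_le (α := ℝ)).2 (card_union_le
    ((Icc 1 M).filter (fun m => ¬ ((sp w m : ℝ) ≤ (w : ℝ) ^ (6 / ε))))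
    ((Icc 1 M).filter (fun m => ε / 4 * l ≤ (bO (sp w m) : ℝ) - om w m)))
  push_cast at htot htot2
  generalize (((Icc 1 M).filter (fun m => ε / 4 * l ≤ |(om w m : ℝ) - P1 w|)).card : ℝ) = c3 at *
  generalize (((Icc 1 M).filter
    (fun m => ε / 4 * l ≤ (bO (sp w m) : ℝ) - om w m)).card : ℝ) = c2 at *
  generalize (((Icc 1 M).filter
    (fun m => ¬ ((sp w m : ℝ) ≤ (w : ℝ) ^ (6 / ε)))).card : ℝ) = c1 at *
  have e1 : c1 ≤ ε / 3 * M := by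
    have h4 : c1 * (6 / ε * Real.log w) ≤ (2 * M) * Real.log w := by
      refine hA'.trans ?_
      have := mul_le_mul_of_nonneg_left hL2 hM0
      linarith
    have h5 : c1 * (6 / ε) ≤ 2 * M := by
      have h6 : (c1 * (6 / ε)) * Real.log w ≤ (2 * M) * Real.log w := by linarith
      exact le_of_mul_le_mul_right h6 (by linarith)
    have h7 : c1 * (6 / ε) * ε = 6 * c1 := by field_simp
    have h8 := mul_le_mul_of_nonneg_right h5 hε.le
    rw [h7] at h8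
    linarith
  have e2 : c2 ≤ ε / 3 * M := by
    have h4 : c2 * (ε / 4 * l) ≤ 2 * M := by linarith
    have h5 : 24 ≤ ε ^ 2 * l := by
      rw [div_le_iff₀ (by positivity)] at hℓ2
      linarith
    rcases le_or_gt 0 c2 with hc2 | hc2
    · have h6 : c2 * 24 ≤ c2 * (ε ^ 2 * l) := mul_le_mul_of_nonneg_left h5 hc2
      have h7 : c2 * (ε ^ 2 * l) = (c2 * (ε / 4 * l)) * (4 * ε) := by ring
      have h8 := mul_le_mul_of_nonneg_right h4 (by positivity : 0 ≤ 4 * ε)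
      linarith
    · have : (0 : ℝ) ≤ ε / 3 * M := by positivity
      linarith
  exact htot.trans (by linarith)

theorem few_low (ε : ℝ) (hε : 0 < ε) : ∃ w₀ : ℕ, ∀ w M : ℕ, w₀ ≤ w → w ^ 3 ≤ M →
    (((Icc 1 M).filter (fun m => (om w m : ℝ) < (1 - ε) * Real.log (Real.log w))).card : ℝ) ≤
      ε * M := by
  obtain ⟨C₀, hC₀, hMe⟩ := mertens_two
  obtain ⟨w₁, hw₁⟩ := Fb_cheb ε hε
  obtain ⟨w₂, hw₂⟩ := Fb_ev (max 1 (2 * C₀ / ε))
  refine ⟨max w₁ w₂, fun w M hw hwM => ?_⟩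
  have hc := hw₁ w M ((le_max_left _ _).trans hw) hwM
  obtain ⟨h3, -, hℓ⟩ := hw₂ w ((le_max_right _ _).trans hw)
  have hℓ0 : 1 ≤ Real.log (Real.log w) := (le_max_left _ _).trans hℓ
  have hℓ1 : 2 * C₀ / ε ≤ Real.log (Real.log w) := (le_max_right _ _).trans hℓ
  have hP := (abs_le.1 (hMe w h3)).1
  have hM0 : (0 : ℝ) ≤ M := Nat.cast_nonneg M
  have h7 : 2 * C₀ ≤ ε * Real.log (Real.log w) := by
    rw [div_le_iff₀ hε] at hℓ1
    linarith
  have h9 : (((Icc 1 M).filter (fun m => (om w m : ℝ) <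
      (1 - ε) * Real.log (Real.log w))).card : ℝ) ≤
      (((Icc 1 M).filter (fun m => ε / 4 * Real.log (Real.log w) ≤
        |(om w m : ℝ) - P1 w|)).card : ℝ) := by
    refine Nat.cast_le.2 (card_le_card fun m hm => ?_)
    obtain ⟨hm1, hm2⟩ := mem_filter.1 hm
    refine mem_filter.2 ⟨hm1, ?_⟩
    rw [abs_sub_comm]
    refine le_trans ?_ (le_abs_self _)
    have h10 : 0 ≤ ε * Real.log (Real.log w) := by positivity
    linarith
  refine h9.trans (hc.trans ?_)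
  have : 0 ≤ ε * M := by positivity
  linarith

end Pool.Agent.Lib.MP_5d7b92_nt.UA
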