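import Pool.Agent.Lib.MP_5d7b92_nt.UA.CP
import Pool.Agent.Lib.MP_5d7b92_nt.UA.Fb

/-!
# TA: Theorem A

PROOFS. `pairs`: the pairs (N, s), s ∈ S, s < N ≤ 2X with N - s bad number at most |S| #{m ≤ 2X : m bad} ≤ |S| ε² X; so fewer than ε X of the N have more than ε |S|
bad s (Markov; B = the set of these N).
`theoremA`: let ε₁ small (depending on ε). `few_bad` ε₁' gives C' and w₀: for all but few m ≤ 2X: sp w m ≤ w^{C'} ≤ (loglog X)^{C} with C = C' + 1 (w ≤ loglog X + 3/2 ≤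
(loglog X)^{(C'+1)/C'}.. e.g. (y+3/2)^{C'} ≤ y^{C'+1} for y large) and bO ≤ (1+ε/2) loglog w ≤ (1+ε) loglog(loglog X) (for y = loglog X large: log log (y+2) ≤ loglog y + 1).
sp w m is w-smooth (`sp_prime_le`), ≥ 1 (`sp_pos`), ≤ y^C ≤ log X: so sp w m ∈ DA C ε w X. `pairs` with bad m := sp w m ∉ DA: for N ∉ B₂: mt w D S N ≥ |below S N| - ε₂|S| for
every D ⊇ DA, and mt ≤ |below S N|. `cofactor_principle` K ε₂: |cnt - cW mt/L| ≤ ε₂ cW |S|/L for N ∉ B₁. So |cnt - cW |below|/L| ≤ 2 ε₂ cW |S|/L; `cW_asymp` ε₂ and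
|below| ≤ |S|, cW ≤ (e^γ + ε₂) log₃ ≤ 3 log₃ (e^γ < 2, γ < 2/3: `Real.eulerMascheroniConstant_lt_two_thirds`): total ≤ (6 ε₂ + ε₂) log₃ |S|/L ≤ ε log₃|S|/L. B = B₁ ∪ B₂.
-/

open Finset Pool.Agent.Lib.GT Pool.Agent.Lib.SW

namespace Pool.Agent.Lib.MP_5d7b92_nt.UA

open Classical in
theorem pairs (X : ℕ) (S : Finset ℕ) (bad : ℕ → Prop) (ε : ℝ) (hε : 0 < ε)
    (h : (((Icc 1 (2 * X)).filter bad).card : ℝ) ≤ ε ^ 2 * X) :
    ∃ B : Finset ℕ, (B.card : ℝ) ≤ ε * X ∧ ∀ N ∈ Icc 1 (2 * X), N ∉ B →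
      (((below S N).filter (fun s => bad (N - s))).card : ℝ) ≤ ε * S.card := by
  rcases Nat.eq_zero_or_pos S.card with h0 | h0
  · refine ⟨∅, by rw [card_empty, Nat.cast_zero]; positivity, fun N _ _ => ?_⟩
    have h1 : S = ∅ := card_eq_zero.1 h0
    unfold below
    rw [h1]
    simp
  have hS0 : (0 : ℝ) < S.card := by exact_mod_cast h0
  obtain ⟨F, hF⟩ : ∃ F : ℕ → ℝ, F = fun N =>
      (((below S N).filter (fun s => bad (N - s))).card : ℝ) := ⟨_, rfl⟩
  have hF0 : ∀ n, 0 ≤ F n := by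
    intro n
    rw [hF]
    exact Nat.cast_nonneg _
  have hsum : ∑ N ∈ Icc 1 (2 * X), F N ≤ ε ^ 2 * X * S.card := by
    have h1 : ∑ N ∈ Icc 1 (2 * X), ((below S N).filter (fun s => bad (N - s))).card ≤
        S.card * ((Icc 1 (2 * X)).filter bad).card := by
      have h2 : ∀ N ∈ Icc 1 (2 * X), ((below S N).filter (fun s => bad (N - s))).card =
          ∑ s ∈ S, (if s < N ∧ bad (N - s) then 1 else 0) := by
        intro N _
        unfold below
        rw [filter_filter, card_filter]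
      rw [sum_congr rfl h2, sum_comm]
      refine (sum_le_card_nsmul S _ ((Icc 1 (2 * X)).filter bad).card fun s _ => ?_).trans
        (le_of_eq (smul_eq_mul _ _))
      rw [← card_filter]
      refine card_le_card_of_injOn (fun N => N - s) ?_ ?_
      · intro N hN
        obtain ⟨h3, h4, h5⟩ := mem_filter.1 (mem_coe.1 hN)
        obtain ⟨h6, h7⟩ := mem_Icc.1 h3
        have h8 : N - s ∈ Icc 1 (2 * X) := mem_Icc.2 ⟨by omega, by omega⟩
        exact mem_coe.2 (mem_filter.2 ⟨h8, h5⟩)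
      · intro N hN N' hN' heq
        obtain ⟨-, h4, -⟩ := mem_filter.1 (mem_coe.1 hN)
        obtain ⟨-, h4', -⟩ := mem_filter.1 (mem_coe.1 hN')
        have heq' : N - s = N' - s := heq
        omega
    have h2 : ∑ N ∈ Icc 1 (2 * X), F N ≤ (S.card : ℝ) * ((Icc 1 (2 * X)).filter bad).card := by
      simp only [hF]
      exact_mod_cast h1
    refine h2.trans ?_
    calc (S.card : ℝ) * ((Icc 1 (2 * X)).filter bad).card ≤ S.card * (ε ^ 2 * X) :=
          mul_le_mul_of_nonneg_left h hS0.le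
      _ = ε ^ 2 * X * S.card := by ring
  have hM := markov X F hF0 _ (ε * S.card) (by positivity) hsum
  refine ⟨(Icc 1 (2 * X)).filter (fun N => ε * S.card < F N), ?_, ?_⟩
  · refine hM.trans (le_of_eq ?_)
    field_simp
  · intro N hN hNB
    by_contra hcon
    refine hNB (mem_filter.2 ⟨hN, ?_⟩)
    rw [hF]
    exact lt_of_not_ge hcon

private theorem exp_gamma_le : Real.exp Real.eulerMascheroniConstant ≤ 2 := by
  have h1 := Real.eulerMascheroniConstant_lt_two_thirds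
  have h2 : Real.exp Real.eulerMascheroniConstant ≤ Real.exp (2 / 3) :=
    Real.exp_le_exp.2 h1.le
  have h3 : Real.exp (2 / 3) ^ 3 = (Real.exp 1) ^ 2 := by
    rw [← Real.exp_nat_mul, ← Real.exp_nat_mul]
    norm_num
  have h4 := Real.exp_one_lt_d9
  have h5 : (Real.exp 1) ^ 2 ≤ (2.7182818286 : ℝ) ^ 2 :=
    pow_le_pow_left₀ (Real.exp_pos 1).le h4.le 2
  have h6 : Real.exp (2 / 3) ^ 3 ≤ 2 ^ 3 := by
    rw [h3]
    refine h5.trans ?_
    norm_num
  have h7 := (pow_le_pow_iff_left₀ (Real.exp_pos _).le (by norm_num) three_ne_zero).1 h6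
  linarith

/-- the smooth part is an admissible cofactor -/
private theorem sp_mem_DA {C C' ε ε' : ℝ} {w X m : ℕ} (hε : 0 < ε) (hε' : 0 < ε') (hε'2 : ε' ≤ ε / 2)
    (hε'1 : ε' ≤ 1) (hC' : 0 < C') (hC : C = C' + 1)
    (hw : |(w : ℝ) - Real.log (Real.log X)| ≤ 3 / 2)
    (h1 : 4 ≤ Real.log (Real.log X)) (h2 : 2 ^ C' ≤ Real.log (Real.log X))
    (h3 : (Real.log (Real.log X)) ^ C ≤ Real.log X)
    (h4 : 4 / ε ≤ Real.log (Real.log (Real.log (Real.log X))))
    (h5 : (sp w m : ℝ) ≤ (w : ℝ) ^ C')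
    (h6 : (bO (sp w m) : ℝ) ≤ (1 + ε') * Real.log (Real.log w)) : sp w m ∈ DA C ε w X := by
  obtain ⟨y, hy⟩ : ∃ y : ℝ, y = Real.log (Real.log X) := ⟨_, rfl⟩
  rw [← hy] at hw h1 h2 h3 h4
  obtain ⟨hwa, hwb⟩ := abs_le.1 hw
  have hy0 : 0 < y := by linarith
  have hw2 : (w : ℝ) ≤ 2 * y := by linarith
  have hw0 : (0 : ℝ) < w := by linarith
  have hsy : (sp w m : ℝ) ≤ y ^ C := by
    refine h5.trans ?_
    calc (w : ℝ) ^ C' ≤ (2 * y) ^ C' := Real.rpow_le_rpow hw0.le hw2 hC'.le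
      _ = 2 ^ C' * y ^ C' := Real.mul_rpow (by norm_num) hy0.le
      _ ≤ y * y ^ C' := mul_le_mul_of_nonneg_right h2 (Real.rpow_nonneg hy0.le _)
      _ = y ^ C := by
          rw [hC, Real.rpow_add hy0, Real.rpow_one]
          ring
  have hlogy : 0 < Real.log y := Real.log_pos (by linarith)
  have hlogy1 : 1 ≤ Real.log y := by
    rw [Real.le_log_iff_exp_le hy0]
    have := Real.exp_one_lt_d9
    linarith
  have hll : Real.log (Real.log w) ≤ 1 + Real.log (Real.log y) := by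
    have hl2 := Real.log_two_lt_d9
    have hl2' := Real.log_two_gt_d9
    have e1 : Real.log w ≤ 2 * Real.log y := by
      have e2 : Real.log w ≤ Real.log (2 * y) := Real.log_le_log hw0 hw2
      rw [Real.log_mul (by norm_num) hy0.ne'] at e2
      linarith
    have e3 : 0 < Real.log w := Real.log_pos (by linarith)
    have e4 : Real.log (Real.log w) ≤ Real.log (2 * Real.log y) := Real.log_le_log e3 e1
    rw [Real.log_mul (by norm_num) hlogy.ne'] at e4
    linarith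
  have hOm : (bO (sp w m) : ℝ) ≤ (1 + ε) * Real.log (Real.log y) := by
    refine h6.trans ?_
    have e1 : (1 + ε') * Real.log (Real.log w) ≤ (1 + ε') * (1 + Real.log (Real.log y)) :=
      mul_le_mul_of_nonneg_left hll (by linarith)
    refine e1.trans ?_
    rw [div_le_iff₀ hε] at h4
    have e2 : ε' * Real.log (Real.log y) ≤ ε / 2 * Real.log (Real.log y) := by
      refine mul_le_mul_of_nonneg_right hε'2 ?_
      by_contra hcon
      have : Real.log (Real.log y) * ε < 0 := mul_neg_of_neg_of_pos (lt_of_not_ge hcon) hε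
      linarith
    nlinarith
  unfold DA
  rw [mem_filter, mem_DM, ← hy]
  exact ⟨⟨⟨sp_pos w m, hsy.trans h3⟩, fun p hp hpd => sp_prime_le hp hpd⟩, hsy, hOm⟩

theorem theoremA (K : ℕ) (ε : ℝ) (hε : 0 < ε) :
    ∃ C : ℝ, 0 < C ∧ ∃ X₀ : ℕ, ∀ X : ℕ, X₀ ≤ X → ∀ w : ℕ, |(w : ℝ) - Real.log (Real.log X)| ≤ 3 / 2 →
      ∀ S : Finset ℕ, S ⊆ Icc 1 X → X / (Real.log X) ^ K ≤ (S.card : ℝ) →
      ∃ B : Finset ℕ, (B.card : ℝ) ≤ ε * X ∧ ∀ N ∈ Icc 1 (2 * X), N ∉ B →
        ∀ D : Finset ℕ, DA C ε w X ⊆ D → D ⊆ DM w X →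
        |(cnt D S N : ℝ) - Real.exp Real.eulerMascheroniConstant *
            Real.log (Real.log (Real.log X)) * (below S N).card / Real.log X| ≤
          ε * Real.log (Real.log (Real.log X)) * S.card / Real.log X := by
  classical
  obtain ⟨δ, hδ, hδ1, hδε⟩ : ∃ δ : ℝ, 0 < δ ∧ δ ≤ 1 ∧ 7 * δ ≤ ε :=
    ⟨min 1 (ε / 7), lt_min one_pos (by linarith), min_le_left _ _, by
      have := min_le_right 1 (ε / 7)
      linarith⟩
  obtain ⟨ε', hε', hε'2, hε'1, hε'δ⟩ : ∃ ε' : ℝ, 0 < ε' ∧ ε' ≤ ε / 2 ∧ ε' ≤ 1 ∧ 2 * ε' ≤ δ ^ 2 := by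
    refine ⟨min (ε / 2) (min 1 (δ ^ 2 / 2)), lt_min (by linarith) (lt_min one_pos (by positivity)),
      min_le_left _ _, (min_le_right _ _).trans (min_le_left _ _), ?_⟩
    have h1 := (min_le_right (ε / 2) (min 1 (δ ^ 2 / 2))).trans (min_le_right _ _)
    linarith
  obtain ⟨C', hC', w₀, hfb⟩ := few_bad ε' hε'
  obtain ⟨X₁, hX₁⟩ := cofactor_principle K δ hδ
  obtain ⟨X₂, hX₂⟩ := cW_asymp δ hδ
  have hyC : ∀ᶠ X : ℕ in Filter.atTop,
      (Real.log (Real.log X)) ^ (C' + 1) ≤ Real.log X := by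
    have h1 := (isLittleO_log_rpow_rpow_atTop (C' + 1) one_pos).bound one_pos
    have h2 : Filter.Tendsto (fun X : ℕ => Real.log (X : ℝ)) Filter.atTop Filter.atTop :=
      Real.tendsto_log_atTop.comp tendsto_natCast_atTop_atTop
    filter_upwards [h2.eventually h1, eventually_log_ge 1] with X hX1 hX2
    rw [Real.rpow_one, one_mul] at hX1
    have h3 : 0 ≤ Real.log (Real.log (X : ℝ)) := Real.log_nonneg hX2
    rw [Real.norm_of_nonneg (Real.rpow_nonneg h3 _), Real.norm_of_nonneg (by linarith)] at hX1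
    exact hX1
  have hlog4 : ∀ᶠ X : ℕ in Filter.atTop,
      4 / ε ≤ Real.log (Real.log (Real.log (Real.log X))) :=
    (Real.tendsto_log_atTop.comp (Real.tendsto_log_atTop.comp LG3_loglog)).eventually_ge_atTop _
  obtain ⟨X₃, hX₃⟩ := Filter.eventually_atTop.1
    (hyC.and (hlog4.and ((LG3_loglog_ev (max 4 (max (2 ^ C') (w₀ + 2)))).and
      ((eventually_log_pow 3 1 one_pos).and (eventually_log_ge 1)))))
  refine ⟨C' + 1, by positivity, max X₁ (max X₂ (max X₃ 1)), fun X hX w hw S hS hK => ?_⟩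
  have hXa : X₁ ≤ X := (le_max_left _ _).trans hX
  have hXb : X₂ ≤ X := ((le_max_left _ _).trans (le_max_right _ _)).trans hX
  have hXc : X₃ ≤ X :=
    (((le_max_left _ _).trans (le_max_right _ _)).trans (le_max_right _ _)).trans hX
  have hXd : 1 ≤ X :=
    (((le_max_right _ _).trans (le_max_right _ _)).trans (le_max_right _ _)).trans hX
  obtain ⟨k1, k2, k3, k4, k5⟩ := hX₃ X hXc
  have k31 : 4 ≤ Real.log (Real.log X) := (le_max_left _ _).trans k3
  have k32 : 2 ^ C' ≤ Real.log (Real.log X) :=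
    ((le_max_left _ _).trans (le_max_right _ _)).trans k3
  have k33 : (w₀ : ℝ) + 2 ≤ Real.log (Real.log X) :=
    ((le_max_right _ _).trans (le_max_right _ _)).trans k3
  have hXr : (0 : ℝ) < X := by exact_mod_cast hXd
  have hL0 : 0 < Real.log (X : ℝ) := by linarith
  have hS0 : 0 < (S.card : ℝ) := lt_of_lt_of_le (by positivity) hK
  obtain ⟨hwa, hwb⟩ := abs_le.1 hw
  have hww₀ : w₀ ≤ w := by
    have : (w₀ : ℝ) ≤ w := by linarith
    exact_mod_cast this
  have hw3 : w ^ 3 ≤ 2 * X := by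
    have h1 : (w : ℝ) ≤ Real.log X := by
      have h2 := Real.log_le_sub_one_of_pos (show 0 < Real.log (X : ℝ) / 4 by positivity)
      have h3 : Real.log (Real.log (X : ℝ)) = Real.log (Real.log (X : ℝ) / 4) + 2 * Real.log 2 := by
        rw [Real.log_div hL0.ne' (by norm_num), show (4 : ℝ) = 2 ^ 2 by norm_num, Real.log_pow]
        push_cast
        ring
      have h4 := Real.log_two_lt_d9
      have h5 := Real.log_le_sub_one_of_pos hL0
      linarith
    have h2 : (w : ℝ) ^ 3 ≤ 2 * X := by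
      calc (w : ℝ) ^ 3 ≤ (Real.log X) ^ 3 := pow_le_pow_left₀ (Nat.cast_nonneg w) h1 3
        _ ≤ 1 * X := k4
        _ ≤ 2 * X := by linarith
    exact_mod_cast h2
  -- few bad integers
  obtain ⟨bad, hbd⟩ : ∃ bad : ℕ → Prop, ∀ m, bad m ↔ sp w m ∉ DA (C' + 1) ε w X :=
    ⟨_, fun _ => Iff.rfl⟩
  have hbad : (((Icc 1 (2 * X)).filter bad).card : ℝ) ≤ δ ^ 2 * X := by
    have h1 := hfb w (2 * X) hww₀ hw3
    have h2 : ((Icc 1 (2 * X)).filter bad).card ≤
        ((Icc 1 (2 * X)).filter (fun m => ¬ ((sp w m : ℝ) ≤ (w : ℝ) ^ C' ∧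
          (bO (sp w m) : ℝ) ≤ (1 + ε') * Real.log (Real.log w)))).card := by
      refine card_le_card fun m hm => ?_
      obtain ⟨hm1, hm2⟩ := mem_filter.1 hm
      refine mem_filter.2 ⟨hm1, fun hcon => (hbd m).1 hm2 ?_⟩
      exact sp_mem_DA hε hε' hε'2 hε'1 hC' rfl hw k31 k32 k1 k2 hcon.1 hcon.2
    have h3 : (((Icc 1 (2 * X)).filter bad).card : ℝ) ≤ ε' * ((2 * X : ℕ) : ℝ) :=
      (Nat.cast_le.2 h2).trans h1
    refine h3.trans ?_
    calc ε' * ((2 * X : ℕ) : ℝ) = (2 * ε') * X := by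
          push_cast
          ring
      _ ≤ δ ^ 2 * X := mul_le_mul_of_nonneg_right hε'δ hXr.le
  obtain ⟨B₂, hB₂, hB₂'⟩ := pairs X S bad δ hδ hbad
  obtain ⟨B₁, hB₁, hB₁'⟩ := hX₁ X hXa w hw S hS hK
  refine ⟨B₁ ∪ B₂, ?_, ?_⟩
  · have h1 : ((B₁ ∪ B₂).card : ℝ) ≤ B₁.card + B₂.card := by exact_mod_cast card_union_le _ _
    have h2 : δ * X + δ * X ≤ ε * X := by nlinarith
    linarith
  · intro N hN hNB D hD1 hD2
    rw [mem_union, not_or] at hNB
    have h1 := hB₁' N hN hNB.1 D hD2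
    have h2 := hB₂' N hN hNB.2
    have h3 := hX₂ X hXb w hw
    -- the main term
    have h4 : mt w D S N ≤ (below S N).card := by
      unfold mt below
      refine card_le_card fun s hs => ?_
      obtain ⟨hs1, hs2, -⟩ := mem_filter.1 hs
      exact mem_filter.2 ⟨hs1, hs2⟩
    have h5 : (below S N).card ≤ mt w D S N +
        ((below S N).filter (fun s => bad (N - s))).card := by
      unfold mt
      refine le_trans (card_le_card ?_) (card_union_le _ _)
      intro s hs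
      rw [mem_union]
      by_cases h6 : bad (N - s)
      · right
        exact mem_filter.2 ⟨hs, h6⟩
      · left
        rw [hbd, not_not] at h6
        unfold below at hs
        obtain ⟨hs1, hs2⟩ := mem_filter.1 hs
        exact mem_filter.2 ⟨hs1, hs2, hD1 h6⟩
    have h4r : (mt w D S N : ℝ) ≤ (below S N).card := by exact_mod_cast h4
    have h5r : ((below S N).card : ℝ) ≤ mt w D S N + δ * S.card := by
      have h6 : ((below S N).card : ℝ) ≤ mt w D S N +
          ((below S N).filter (fun s => bad (N - s))).card := by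
        exact_mod_cast h5
      linarith
    have hbS : ((below S N).card : ℝ) ≤ S.card := by
      exact_mod_cast card_le_card (filter_subset _ _)
    obtain ⟨ℓ, hℓ⟩ : ∃ ℓ : ℝ, ℓ = Real.log (Real.log (Real.log X)) := ⟨_, rfl⟩
    rw [← hℓ] at h3 ⊢
    have hℓ0 : 0 < ℓ := by
      rw [hℓ]
      exact Real.log_pos (by linarith)
    obtain ⟨L, hLd⟩ : ∃ L : ℝ, L = Real.log (X : ℝ) := ⟨_, rfl⟩
    rw [← hLd] at h1 hL0 ⊢
    obtain ⟨c, hc⟩ : ∃ c : ℝ, c = cW w := ⟨_, rfl⟩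
    rw [← hc] at h1 h3
    obtain ⟨g, hg⟩ : ∃ g : ℝ, g = Real.exp Real.eulerMascheroniConstant := ⟨_, rfl⟩
    rw [← hg] at h3 ⊢
    have hg2 : g ≤ 2 := by
      rw [hg]
      exact exp_gamma_le
    have hc0 : 0 < c := by
      rw [hc]
      exact cW_pos w
    obtain ⟨b, hb⟩ : ∃ b : ℝ, b = ((below S N).card : ℝ) := ⟨_, rfl⟩
    obtain ⟨m, hm⟩ : ∃ m : ℝ, m = (mt w D S N : ℝ) := ⟨_, rfl⟩
    obtain ⟨s, hs⟩ : ∃ s : ℝ, s = (S.card : ℝ) := ⟨_, rfl⟩
    obtain ⟨x, hx⟩ : ∃ x : ℝ, x = (cnt D S N : ℝ) := ⟨_, rfl⟩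
    have hb0 : 0 ≤ b := by
      rw [hb]
      exact Nat.cast_nonneg _
    rw [← hb, ← hm] at h4r
    rw [← hb, ← hm, ← hs] at h5r
    rw [← hb, ← hs] at hbS
    rw [← hx, ← hm, ← hs] at h1
    rw [← hs] at hS0
    rw [← hx, ← hb, ← hs]
    obtain ⟨h3a, h3b⟩ := abs_le.1 h3
    have hc3 : c ≤ 3 * ℓ := by
      have e1 : g * ℓ ≤ 2 * ℓ := mul_le_mul_of_nonneg_right hg2 hℓ0.le
      have e2 : δ * ℓ ≤ 1 * ℓ := mul_le_mul_of_nonneg_right hδ1 hℓ0.le
      linarith
    have e1 : |x - g * ℓ * b / L| ≤ |x - c * m / L| + |c * m / L - g * ℓ * b / L| := by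
      have e2 : x - g * ℓ * b / L = (x - c * m / L) + (c * m / L - g * ℓ * b / L) := by ring
      rw [e2]
      exact abs_add_le _ _
    have e3 : |c * m / L - g * ℓ * b / L| ≤ (c * (δ * s) + δ * ℓ * s) / L := by
      have e4 : c * m / L - g * ℓ * b / L = (c * (m - b) + (c - g * ℓ) * b) / L := by ring
      rw [e4, abs_div, abs_of_pos hL0]
      apply div_le_div_of_nonneg_right _ hL0.le
      refine (abs_add_le _ _).trans ?_
      rw [abs_mul, abs_mul, abs_of_pos hc0, abs_of_nonneg hb0]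
      have e5 : |m - b| ≤ δ * s := by
        rw [abs_le]
        constructor
        · linarith
        · have : 0 ≤ δ * s := by positivity
          linarith
      have e6 : |c - g * ℓ| * b ≤ δ * ℓ * s :=
        mul_le_mul h3 hbS hb0 (by positivity)
      have e7 : c * |m - b| ≤ c * (δ * s) := mul_le_mul_of_nonneg_left e5 hc0.le
      linarith
    calc |x - g * ℓ * b / L| ≤ δ * c * s / L + (c * (δ * s) + δ * ℓ * s) / L := by linarith
      _ = (2 * c + ℓ) * (δ * s) / L := by ring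
      _ ≤ (7 * ℓ) * (δ * s) / L := by
          apply div_le_div_of_nonneg_right _ hL0.le
          apply mul_le_mul_of_nonneg_right _ (by positivity)
          linarith
      _ = (7 * δ) * ℓ * s / L := by ring
      _ ≤ ε * ℓ * s / L := by gcongr

end Pool.Agent.Lib.MP_5d7b92_nt.UA
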