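import Pool.Agent.Lib.MP_5d7b92_nt.UA.OC
import Pool.Agent.Lib.MP_5d7b92_nt.UA.EP

/-!
# TB: total L1 bound over all cofactors

PROOF. Exchange the sums; `one_cofactor` K (ε/2) for every d ∈ DM w X (`mem_DM`); X/(log X)^K ≤ |S|; `sum_inv_le`:
≤ ∑_d (ε/2) (X/d) · 2|S| ≤ ε X |S| cW w.
-/

open Finset Pool.Agent.Lib.GT Pool.Agent.Lib.SW

namespace Pool.Agent.Lib.MP_5d7b92_nt.UA

theorem total_l1 (K : ℕ) (ε : ℝ) (hε : 0 < ε) :
    ∃ X₀ : ℕ, ∀ X : ℕ, X₀ ≤ X → ∀ w : ℕ, |(w : ℝ) - Real.log (Real.log X)| ≤ 3 / 2 →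
      ∀ S : Finset ℕ, S ⊆ Icc 1 X → X / (Real.log X) ^ K ≤ (S.card : ℝ) →
      ∑ N ∈ Icc 1 (2 * X), ∑ d ∈ DM w X, |rd d S N - cW w * sg w d S N| ≤
        ε * cW w * X * S.card := by
  obtain ⟨X₀, hX₀⟩ := one_cofactor K (ε / 2) (by positivity)
  refine ⟨X₀, fun X hX w hw S hS hK => ?_⟩
  rw [Finset.sum_comm]
  have h1 : ∀ d ∈ DM w X, ∑ N ∈ Icc 1 (2 * X), |rd d S N - cW w * sg w d S N| ≤
      ε * X * S.card * (1 / (d : ℝ)) := by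
    intro d hd
    obtain ⟨⟨hd1, hd2⟩, -⟩ := mem_DM.1 hd
    refine (hX₀ X hX w hw S hS d hd1 hd2).trans ?_
    have hd0 : (0 : ℝ) < d := by exact_mod_cast hd1
    have h2 : (S.card : ℝ) + X / (Real.log X) ^ K ≤ 2 * S.card := by linarith
    calc ε / 2 * (X / d) * (S.card + X / (Real.log X) ^ K)
        ≤ ε / 2 * (X / d) * (2 * S.card) := mul_le_mul_of_nonneg_left h2 (by positivity)
      _ = ε * X * S.card * (1 / (d : ℝ)) := by ring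
  refine (Finset.sum_le_sum h1).trans ?_
  rw [← Finset.mul_sum]
  have h3 := sum_inv_le w (DM w X) (fun d hd => ⟨(mem_DM.1 hd).1.1, (mem_DM.1 hd).2⟩)
  calc ε * X * S.card * ∑ d ∈ DM w X, 1 / (d : ℝ) ≤ ε * X * S.card * cW w :=
        mul_le_mul_of_nonneg_left h3 (by positivity)
    _ = ε * cW w * X * S.card := by ring

end Pool.Agent.Lib.MP_5d7b92_nt.UA
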