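import Pool.Agent.Lib.MP_5d7b92_nt.UA.Defs

/-!
# Tr: from scale X to scale ⌈X/d⌉

PROOFS. X_d = (X + d - 1)/d = ⌈X/d⌉, `Ta d X S a = {t ∈ [1, X_d] : d t - a ∈ S}` for a < d.
`rd_eq`, `sg_eq`: N = d m - a, m ≥ 1. The map t ↦ d t - a is a bijection from {t ∈ Ta : t < m} onto {s ∈ S : s < N, d | N - s}: if s = N - d k with k ≥ 1
then t = m - k, s = d t - a (t ≥ 1 because s ≥ 1, t ≤ (X + a)/d ≤ X_d); conversely N - (d t - a) = d (m - t). And (N - s)/d = m - t. Compare `rS`, `SN`.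
`sum_Ta`: every s ∈ S is d t - a for exactly one pair (a, t), a < d, 1 ≤ t ≤ X_d: t = ⌈s/d⌉ = (s + d - 1)/d, a = d t - s.
`transfer`: N ∈ [1, 2X] is d m - a with m = ⌈N/d⌉ ∈ [1, 2 X_d], a = d m - N < d; the map N ↦ (a, m) is injective (`Finset.sum_le_sum_of_injOn`-style
or `Finset.sum_comp`/`Finset.sum_sigma'` and `Finset.sum_le_sum_of_subset_of_nonneg`).
-/

open Finset Pool.Agent.Lib.GT Pool.Agent.Lib.SW

namespace Pool.Agent.Lib.MP_5d7b92_nt.UA

def Xd (X d : ℕ) : ℕ := (X + d - 1) / d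

def Ta (d X : ℕ) (S : Finset ℕ) (a : ℕ) : Finset ℕ :=
  (Icc 1 (Xd X d)).filter (fun t => d * t - a ∈ S)

private theorem sub_mul_eq {d m t a : ℕ} (ha : a < d) (ht : 1 ≤ t) (htm : t ≤ m) :
    d * m - a - (d * t - a) = d * (m - t) := by
  have h1 : d * t ≤ d * m := Nat.mul_le_mul_left d htm
  have h2 : d ≤ d * t := Nat.le_mul_of_pos_right d ht
  rw [Nat.mul_sub]
  omega

/-- the parametrisation of the `s` -/
private theorem exists_t {d X a m s : ℕ} {S : Finset ℕ} (hS : S ⊆ Icc 1 X) (hd : 1 ≤ d)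
    (ha : a < d) (hm : 1 ≤ m) (hs : s ∈ S) (hsN : s < d * m - a) (hdv : d ∣ d * m - a - s) :
    ∃ t ∈ Ta d X S a, t < m ∧ d * t - a = s := by
  obtain ⟨hs1, hsX⟩ := mem_Icc.1 (hS hs)
  obtain ⟨k, hk⟩ := hdv
  have hdm : d ≤ d * m := Nat.le_mul_of_pos_right d hm
  have hk1 : 1 ≤ k := by
    rcases Nat.eq_zero_or_pos k with h | h
    · rw [h, mul_zero] at hk
      omega
    · exact h
  have h1 : d * k + s + a = d * m := by omega
  have hkm : k < m := by
    by_contra hcon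
    have h2 : d * m ≤ d * k := Nat.mul_le_mul_left d (Nat.le_of_not_lt hcon)
    omega
  have h3 : d * (m - k) = s + a := by
    rw [Nat.mul_sub]
    omega
  refine ⟨m - k, ?_, by omega, by omega⟩
  unfold Ta Xd
  rw [mem_filter, mem_Icc]
  refine ⟨⟨by omega, ?_⟩, ?_⟩
  · rw [Nat.le_div_iff_mul_le hd, mul_comm, h3]
    omega
  · rw [h3, Nat.add_sub_cancel]
    exact hs

private theorem mem_Ta {d X a t : ℕ} {S : Finset ℕ} (h : t ∈ Ta d X S a) :
    1 ≤ t ∧ d * t - a ∈ S := by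
  unfold Ta at h
  rw [mem_filter, mem_Icc] at h
  exact ⟨h.1.1, h.2⟩

private theorem t_lt {d m t a : ℕ} (ha : a < d) (ht : 1 ≤ t) (htm : t < m) :
    d * t - a < d * m - a := by
  have h1 : d * (t + 1) ≤ d * m := Nat.mul_le_mul_left d htm
  have h2 : d ≤ d * t := Nat.le_mul_of_pos_right d ht
  rw [Nat.mul_add, mul_one] at h1
  omega

private theorem t_lt_iff {d m t a : ℕ} (ha : a < d) (ht : 1 ≤ t) (h : d * t - a < d * m - a) :
    t < m := by
  by_contra hcon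
  have h1 : d * m ≤ d * t := Nat.mul_le_mul_left d (Nat.le_of_not_lt hcon)
  omega

theorem rd_eq (d X a m : ℕ) (S : Finset ℕ) (hS : S ⊆ Icc 1 X) (hd : 1 ≤ d) (ha : a < d)
    (hm : 1 ≤ m) : rd d S (d * m - a) = rS (Ta d X S a) m := by
  unfold rd rS
  symm
  refine sum_bij (fun t _ => d * t - a) ?_ ?_ ?_ ?_
  · intro t ht
    obtain ⟨h1, h2⟩ := mem_filter.1 ht
    obtain ⟨h3, h4⟩ := mem_Ta h1
    refine mem_filter.2 ⟨h4, t_lt ha h3 h2, ?_⟩
    rw [sub_mul_eq ha h3 h2.le]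
    exact dvd_mul_right _ _
  · intro t ht t' ht' heq
    obtain ⟨h3, -⟩ := mem_Ta (mem_filter.1 ht).1
    obtain ⟨h3', -⟩ := mem_Ta (mem_filter.1 ht').1
    have h5 : d ≤ d * t := Nat.le_mul_of_pos_right d h3
    have h6 : d ≤ d * t' := Nat.le_mul_of_pos_right d h3'
    have heq' : d * t - a = d * t' - a := heq
    have h7 : d * t = d * t' := by omega
    exact Nat.eq_of_mul_eq_mul_left hd h7
  · intro s hs
    obtain ⟨h1, h2, h3⟩ := mem_filter.1 hs
    obtain ⟨t, ht1, ht2, ht3⟩ := exists_t hS hd ha hm h1 h2 h3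
    exact ⟨t, mem_filter.2 ⟨ht1, ht2⟩, ht3⟩
  · intro t ht
    obtain ⟨h1, h2⟩ := mem_filter.1 ht
    obtain ⟨h3, -⟩ := mem_Ta h1
    have h4 : (d * m - a - (d * t - a)) / d = m - t := by
      rw [sub_mul_eq ha h3 h2.le, Nat.mul_div_cancel_left _ hd]
    show lam (m - t) = lam ((d * m - a - (d * t - a)) / d)
    rw [h4]

theorem sg_eq (w d X a m : ℕ) (S : Finset ℕ) (hS : S ⊆ Icc 1 X) (hd : 1 ≤ d) (ha : a < d)
    (hm : 1 ≤ m) : sg w d S (d * m - a) = (SN (primorial w) (Ta d X S a) m).card := by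
  unfold sg SN
  symm
  refine card_bij (fun t _ => d * t - a) ?_ ?_ ?_
  · intro t ht
    obtain ⟨h1, h2, hc⟩ := mem_filter.1 ht
    obtain ⟨h3, h4⟩ := mem_Ta h1
    refine mem_filter.2 ⟨h4, t_lt ha h3 h2, ?_, ?_⟩
    · rw [sub_mul_eq ha h3 h2.le]
      exact dvd_mul_right _ _
    · rw [sub_mul_eq ha h3 h2.le, Nat.mul_div_cancel_left _ hd]
      exact hc
  · intro t ht t' ht' heq
    obtain ⟨h3, -⟩ := mem_Ta (mem_filter.1 ht).1
    obtain ⟨h3', -⟩ := mem_Ta (mem_filter.1 ht').1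
    have h5 : d ≤ d * t := Nat.le_mul_of_pos_right d h3
    have h6 : d ≤ d * t' := Nat.le_mul_of_pos_right d h3'
    have heq' : d * t - a = d * t' - a := heq
    have h7 : d * t = d * t' := by omega
    exact Nat.eq_of_mul_eq_mul_left hd h7
  · intro s hs
    obtain ⟨h1, h2, h3, hc⟩ := mem_filter.1 hs
    obtain ⟨t, ht1, ht2, ht3⟩ := exists_t hS hd ha hm h1 h2 h3
    refine ⟨t, mem_filter.2 ⟨ht1, ht2, ?_⟩, ht3⟩
    rw [← ht3, sub_mul_eq ha (mem_Ta ht1).1 ht2.le, Nat.mul_div_cancel_left _ hd] at hc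
    exact hc

theorem sum_Ta (d X : ℕ) (S : Finset ℕ) (hS : S ⊆ Icc 1 X) (hd : 1 ≤ d) :
    ∑ a ∈ range d, (Ta d X S a).card = S.card := by
  rw [← card_sigma]
  refine card_bij (fun p _ => d * p.2 - p.1) ?_ ?_ ?_
  · rintro ⟨a, t⟩ hp
    rw [mem_sigma] at hp
    exact (mem_Ta hp.2).2
  · rintro ⟨a, t⟩ hp ⟨a', t'⟩ hp' heq
    rw [mem_sigma, mem_range] at hp hp'
    have ha : a < d := hp.1
    have ha' : a' < d := hp'.1
    have ht : 1 ≤ t := (mem_Ta hp.2).1
    have ht' : 1 ≤ t' := (mem_Ta hp'.2).1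
    have h5 : d ≤ d * t := Nat.le_mul_of_pos_right d ht
    have h6 : d ≤ d * t' := Nat.le_mul_of_pos_right d ht'
    have heq' : d * t - a = d * t' - a' := heq
    have h7 : t = t' := by
      rcases lt_trichotomy t t' with h | h | h
      · have h8 : d * (t + 1) ≤ d * t' := Nat.mul_le_mul_left d h
        rw [Nat.mul_add, mul_one] at h8
        omega
      · exact h
      · have h8 : d * (t' + 1) ≤ d * t := Nat.mul_le_mul_left d h
        rw [Nat.mul_add, mul_one] at h8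
        omega
    subst h7
    have h9 : a = a' := by omega
    subst h9
    rfl
  · intro s hs
    obtain ⟨hs1, hsX⟩ := mem_Icc.1 (hS hs)
    have h1 := Nat.lt_div_mul_add (a := s + d - 1) (b := d) hd
    have h2 := Nat.div_mul_le_self (s + d - 1) d
    obtain ⟨t, ht⟩ : ∃ t, t = (s + d - 1) / d := ⟨_, rfl⟩
    rw [← ht] at h1 h2
    have h3 : t * d = d * t := mul_comm _ _
    rw [h3] at h1 h2
    have hcan : d * t - (d * t - s) = s := by omega
    refine ⟨⟨d * t - s, t⟩, ?_, hcan⟩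
    rw [mem_sigma, mem_range]
    refine ⟨by show d * t - s < d; omega, ?_⟩
    show t ∈ Ta d X S (d * t - s)
    unfold Ta Xd
    rw [mem_filter, mem_Icc]
    refine ⟨⟨?_, ?_⟩, ?_⟩
    · rcases Nat.eq_zero_or_pos t with h | h
      · rw [h, mul_zero] at h1
        omega
      · exact h
    · rw [Nat.le_div_iff_mul_le hd, h3]
      omega
    · rw [hcan]
      exact hs

theorem transfer (d X : ℕ) (hd : 1 ≤ d) (F : ℕ → ℝ) (hF : ∀ n, 0 ≤ F n) :
    ∑ N ∈ Icc 1 (2 * X), F N ≤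
      ∑ a ∈ range d, ∑ m ∈ Icc 1 (2 * Xd X d), F (d * m - a) := by
  rw [sum_sigma']
  have hinj : Set.InjOn (fun N => (⟨d * ((N + d - 1) / d) - N, (N + d - 1) / d⟩ : (_ : ℕ) × ℕ))
      (Icc 1 (2 * X) : Finset ℕ) := by
    intro N hN N' hN' heq
    have h1 := Nat.div_mul_le_self (N + d - 1) d
    have h1' := Nat.div_mul_le_self (N' + d - 1) d
    have h2 := Nat.lt_div_mul_add (a := N + d - 1) (b := d) hd
    have h2' := Nat.lt_div_mul_add (a := N' + d - 1) (b := d) hd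
    have h3 := congrArg Sigma.snd heq
    have h4 := congrArg Sigma.fst heq
    simp only at h3 h4
    rw [h3] at h4 h1 h2
    rw [mul_comm] at h1 h1' h2 h2'
    have h5 : (N' + d - 1) / d * d = d * ((N' + d - 1) / d) := mul_comm _ _
    omega
  have hval : ∀ N ∈ Icc 1 (2 * X), F N =
      (fun p : (_ : ℕ) × ℕ => F (d * p.2 - p.1))
        ⟨d * ((N + d - 1) / d) - N, (N + d - 1) / d⟩ := by
    intro N hN
    have h2 := Nat.lt_div_mul_add (a := N + d - 1) (b := d) hd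
    have h5 : (N + d - 1) / d * d = d * ((N + d - 1) / d) := mul_comm _ _
    have h6 : d * ((N + d - 1) / d) - (d * ((N + d - 1) / d) - N) = N := by omega
    show F N = F (d * ((N + d - 1) / d) - (d * ((N + d - 1) / d) - N))
    rw [h6]
  rw [sum_congr rfl hval]
  rw [← sum_image (f := fun p : (_ : ℕ) × ℕ => F (d * p.2 - p.1)) hinj]
  refine sum_le_sum_of_subset_of_nonneg ?_ (fun _ _ _ => hF _)
  intro p hp
  obtain ⟨N, hN, rfl⟩ := mem_image.1 hp
  obtain ⟨hN1, hN2⟩ := mem_Icc.1 hN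
  have h1 := Nat.div_mul_le_self (N + d - 1) d
  have h2 := Nat.lt_div_mul_add (a := N + d - 1) (b := d) hd
  have h5 : (N + d - 1) / d * d = d * ((N + d - 1) / d) := mul_comm _ _
  rw [mem_sigma, mem_range, mem_Icc]
  refine ⟨?_, ?_, ?_⟩
  · show d * ((N + d - 1) / d) - N < d
    omega
  · show 1 ≤ (N + d - 1) / d
    rw [Nat.le_div_iff_mul_le hd]
    omega
  · show (N + d - 1) / d ≤ 2 * Xd X d
    have h3 := Nat.lt_div_mul_add (a := X + d - 1) (b := d) hd
    unfold Xd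
    rw [← Nat.lt_succ_iff, Nat.div_lt_iff_lt_mul hd]
    have h4 : (2 * ((X + d - 1) / d)).succ * d = 2 * ((X + d - 1) / d * d) + d := by
      rw [Nat.succ_mul]
      ring
    rw [h4]
    omega

end Pool.Agent.Lib.MP_5d7b92_nt.UA
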