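import Pool.Agent.Lib.MP_5d7b92_nt.UA.Va

/-!
# Tu: Turán's inequality for the primes ≤ w, and Ω - ω

PROOFS. `turan`: ∑_m om² = ∑_{p,q ∈ PR w} #{m ≤ M : p | m, q | m} ≤ ∑_{p ≠ q} M/(pq) + ∑_p M/p ≤ M P1² + M P1 (p, q | m iff pq | m for p ≠ q;
#{m ≤ M : k | m} = M / k, `Nat.card_multiples` / `Nat.count`...), ∑_m om = ∑_p ⌊M/p⌋ ≥ M P1 - w. So
∑ (om - P1)² ≤ M P1² + M P1 - 2 P1 (M P1 - w) + M P1² = M P1 + 2 w P1 ≤ M P1 + 2 w² (P1 ≤ w).
`sum_Om`: bO (sp w m) = ∑_{p ∈ PR w} v_p(m) (`primeFactorsList` of a product of prime powers: `ArithmeticFunction.cardFactors_mul`, `cardFactors_apply_prime_pow`, or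
`Nat.perm_primeFactorsList_mul`), so ∑_m (bO (sp w m) - om w m) = ∑_p (∑_m v_p(m) - ⌊M/p⌋) ≤ ∑_p (M/(p-1) - M/p + 1) ≤ M ∑_n 1/(n(n-1)) + w ≤ M + w (`sum_val`).
`om_le`: om w m ≤ bO (sp w m) ≤ bO m (v_p(m) ≥ 1 for p | m; sp w m | m).
-/

open Finset Pool.Agent.Lib.GT Pool.Agent.Lib.SW

namespace Pool.Agent.Lib.MP_5d7b92_nt.UA

private theorem Tu_mult (M k : ℕ) :
    ∑ m ∈ Icc 1 M, (if k ∣ m then (1 : ℝ) else 0) = ((M / k : ℕ) : ℝ) := by
  rw [← Finset.sum_filter, Finset.sum_const, nsmul_eq_mul, mul_one]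
  have h : Icc 1 M = Ioc 0 M := rfl
  rw [h, Nat.Ioc_filter_dvd_card_eq_div]

private theorem Tu_div_le (M k : ℕ) : ((M / k : ℕ) : ℝ) ≤ M / k := Nat.cast_div_le

private theorem Tu_le_div (M k : ℕ) (hk : 0 < k) : (M : ℝ) / k - 1 ≤ ((M / k : ℕ) : ℝ) := by
  have h := Nat.lt_succ_floor ((M : ℝ) / k)
  rw [Nat.floor_div_eq_div] at h
  push_cast at h
  linarith

private theorem Tu_om (w m : ℕ) :
    (om w m : ℝ) = ∑ p ∈ PR w, (if p ∣ m then (1 : ℝ) else 0) := by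
  unfold om
  rw [← Finset.sum_filter, Finset.sum_const, nsmul_eq_mul, mul_one]

private theorem Tu_PR_card (w : ℕ) : ((PR w).card : ℝ) ≤ w := by
  have h : PR w ⊆ Icc 1 w := by
    intro p hp
    obtain ⟨h1, h2⟩ := mem_PR.1 hp
    exact mem_Icc.2 ⟨h2.one_lt.le, h1⟩
  have h2 := card_le_card h
  rw [Nat.card_Icc] at h2
  exact_mod_cast h2

private theorem Tu_P1_nonneg (w : ℕ) : 0 ≤ P1 w := by
  unfold P1
  exact sum_nonneg fun p _ => by positivity

private theorem Tu_P1_le (w : ℕ) : P1 w ≤ w := by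
  refine le_trans ?_ (Tu_PR_card w)
  unfold P1
  calc ∑ p ∈ PR w, 1 / (p : ℝ) ≤ ∑ p ∈ PR w, (1 : ℝ) := by
        refine sum_le_sum fun p hp => ?_
        obtain ⟨-, h2⟩ := mem_PR.1 hp
        have h3 : (1 : ℝ) ≤ p := by exact_mod_cast h2.one_lt.le
        rw [div_le_one (by linarith)]
        exact h3
    _ = ((PR w).card : ℝ) := by rw [sum_const, nsmul_eq_mul, mul_one]

private theorem Tu_S1 (w M : ℕ) : (M : ℝ) * P1 w - w ≤ ∑ m ∈ Icc 1 M, (om w m : ℝ) := by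
  simp_rw [Tu_om]
  rw [sum_comm]
  simp_rw [Tu_mult]
  calc (M : ℝ) * P1 w - w ≤ M * P1 w - (PR w).card := by
        have := Tu_PR_card w
        linarith
    _ = ∑ p ∈ PR w, ((M : ℝ) / p - 1) := by
        unfold P1
        rw [sum_sub_distrib, sum_const, nsmul_eq_mul, mul_one, mul_sum]
        congr 1
        refine sum_congr rfl fun p _ => by ring
    _ ≤ ∑ p ∈ PR w, ((M / p : ℕ) : ℝ) := by
        refine sum_le_sum fun p hp => ?_
        obtain ⟨-, h2⟩ := mem_PR.1 hp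
        exact Tu_le_div M p h2.pos

private theorem Tu_S2 (w M : ℕ) :
    ∑ m ∈ Icc 1 M, (om w m : ℝ) ^ 2 ≤ M * (P1 w) ^ 2 + M * P1 w := by
  have h1 : ∀ m : ℕ, (om w m : ℝ) ^ 2 =
      ∑ p ∈ PR w, ∑ q ∈ PR w, (if p ∣ m then (1 : ℝ) else 0) * (if q ∣ m then (1 : ℝ) else 0) := by
    intro m
    rw [sq, Tu_om, sum_mul_sum]
  simp_rw [h1]
  rw [sum_comm]
  have h2 : ∀ p ∈ PR w, ∑ m ∈ Icc 1 M, ∑ q ∈ PR w,
      (if p ∣ m then (1 : ℝ) else 0) * (if q ∣ m then (1 : ℝ) else 0) ≤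
      ∑ q ∈ PR w, (M : ℝ) * (1 / p) * (1 / q) + M * (1 / p) := by
    intro p hp
    obtain ⟨-, hpp⟩ := mem_PR.1 hp
    rw [sum_comm]
    have h3 : ∀ q ∈ PR w, ∑ m ∈ Icc 1 M,
        (if p ∣ m then (1 : ℝ) else 0) * (if q ∣ m then (1 : ℝ) else 0) ≤
        (M : ℝ) * (1 / p) * (1 / q) + (if q = p then (M : ℝ) * (1 / p) else 0) := by
      intro q hq
      obtain ⟨-, hqp⟩ := mem_PR.1 hq
      by_cases hpq : q = p
      · subst hpq
        rw [if_pos rfl]
        have h4 : ∑ m ∈ Icc 1 M,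
            (if q ∣ m then (1 : ℝ) else 0) * (if q ∣ m then (1 : ℝ) else 0) =
            ((M / q : ℕ) : ℝ) := by
          rw [← Tu_mult]
          refine sum_congr rfl fun m _ => ?_
          split_ifs <;> norm_num
        rw [h4]
        have h5 := Tu_div_le M q
        have h6 : (0 : ℝ) ≤ (M : ℝ) * (1 / q) * (1 / q) := by positivity
        have h7 : (M : ℝ) / q = M * (1 / q) := by ring
        linarith
      · rw [if_neg hpq, add_zero]
        have hcop : Nat.Coprime p q := (Nat.coprime_primes hpp hqp).2 (fun h => hpq h.symm)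
        have h4 : ∑ m ∈ Icc 1 M,
            (if p ∣ m then (1 : ℝ) else 0) * (if q ∣ m then (1 : ℝ) else 0) =
            ((M / (p * q) : ℕ) : ℝ) := by
          rw [← Tu_mult]
          refine sum_congr rfl fun m _ => ?_
          have h5 : p * q ∣ m ↔ (p ∣ m ∧ q ∣ m) := by
            constructor
            · intro h
              exact ⟨(dvd_mul_right p q).trans h, (dvd_mul_left q p).trans h⟩
            · rintro ⟨ha, hb⟩
              exact hcop.mul_dvd_of_dvd_of_dvd ha hb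
          by_cases ha : p ∣ m <;> by_cases hb : q ∣ m <;> simp [h5, ha, hb]
        rw [h4]
        refine (Tu_div_le M (p * q)).trans (le_of_eq ?_)
        push_cast
        have hp0 : (p : ℝ) ≠ 0 := by exact_mod_cast hpp.ne_zero
        have hq0 : (q : ℝ) ≠ 0 := by exact_mod_cast hqp.ne_zero
        field_simp
    refine (sum_le_sum h3).trans (le_of_eq ?_)
    rw [sum_add_distrib]
    congr 1
    rw [Finset.sum_ite_eq' (PR w) p]
    rw [if_pos hp]
  refine (sum_le_sum ?_).trans (le_of_eq (a := ∑ p ∈ PR w,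
    (∑ q ∈ PR w, (M : ℝ) * (1 / p) * (1 / q) + M * (1 / p))) ?_)
  · intro p hp
    exact h2 p hp
  · unfold P1
    rw [sum_add_distrib, ← mul_sum]
    congr 1
    rw [sq, sum_mul_sum, mul_sum]
    refine sum_congr rfl fun p _ => ?_
    rw [mul_sum]
    refine sum_congr rfl fun q _ => by ring

theorem turan (w M : ℕ) :
    ∑ m ∈ Icc 1 M, ((om w m : ℝ) - P1 w) ^ 2 ≤ M * P1 w + 2 * (w : ℝ) ^ 2 := by
  have h1 : ∑ m ∈ Icc 1 M, ((om w m : ℝ) - P1 w) ^ 2 =
      ∑ m ∈ Icc 1 M, (om w m : ℝ) ^ 2 - 2 * P1 w * ∑ m ∈ Icc 1 M, (om w m : ℝ) +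
        M * (P1 w) ^ 2 := by
    rw [mul_sum, ← sum_sub_distrib]
    have h2 : (M : ℝ) * (P1 w) ^ 2 = ∑ m ∈ Icc 1 M, (P1 w) ^ 2 := by
      rw [sum_const, nsmul_eq_mul, Nat.card_Icc, Nat.add_sub_cancel]
    rw [h2, ← sum_add_distrib]
    refine sum_congr rfl fun m _ => by ring
  rw [h1]
  have h2 := Tu_S1 w M
  have h3 := Tu_S2 w M
  have h4 := Tu_P1_nonneg w
  have h5 := Tu_P1_le w
  have h6 : 2 * P1 w * (M * P1 w - w) ≤ 2 * P1 w * ∑ m ∈ Icc 1 M, (om w m : ℝ) :=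
    mul_le_mul_of_nonneg_left h2 (by linarith)
  have hw : (0 : ℝ) ≤ w := Nat.cast_nonneg w
  nlinarith [mul_le_mul_of_nonneg_left h5 hw]

private theorem Tu_bO_prod (s : Finset ℕ) (hs : ∀ p ∈ s, p.Prime) (f : ℕ → ℕ) :
    bO (∏ p ∈ s, p ^ f p) = ∑ p ∈ s, f p := by
  induction s using Finset.induction_on with
  | empty => simp [bO]
  | insert a s ha ih =>
    rw [prod_insert ha, sum_insert ha, ← ih (fun p hp => hs p (mem_insert_of_mem hp))]
    have ha' := hs a (mem_insert_self a s)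
    have h1 : (a ^ f a) ≠ 0 := pow_ne_zero _ ha'.ne_zero
    have h2 : (∏ p ∈ s, p ^ f p) ≠ 0 :=
      Finset.prod_ne_zero_iff.2 fun p hp => pow_ne_zero _ (hs p (mem_insert_of_mem hp)).ne_zero
    have h3 := (Nat.perm_primeFactorsList_mul h1 h2).length_eq
    unfold bO
    rw [h3, List.length_append, ha'.primeFactorsList_pow, List.length_replicate]

private theorem Tu_bO_sp (w m : ℕ) : bO (sp w m) = ∑ p ∈ PR w, m.factorization p := by
  unfold sp
  exact Tu_bO_prod (PR w) (fun p hp => (mem_PR.1 hp).2) m.factorization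

private theorem Tu_tele (w : ℕ) (hw : 1 ≤ w) :
    ∑ p ∈ PR w, (1 / ((p : ℝ) - 1) - 1 / p) ≤ 1 - 1 / w := by
  induction w, hw using Nat.le_induction with
  | base =>
    have : PR 1 = ∅ := by decide
    rw [this]
    simp
  | succ n hn ih =>
    have hn0 : (0 : ℝ) < n := by exact_mod_cast hn
    have hPR : PR (n + 1) = if (n + 1).Prime then insert (n + 1) (PR n) else PR n := by
      unfold PR
      rw [range_add_one, filter_insert]
    have hmon : (1 : ℝ) / ((n : ℝ) + 1) ≤ 1 / n := by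
      apply one_div_le_one_div_of_le hn0
      linarith
    rw [hPR]
    split_ifs with h
    · rw [sum_insert]
      · push_cast
        rw [add_sub_cancel_right]
        linarith
      · intro hc
        have := (mem_PR.1 hc).1
        omega
    · push_cast
      linarith

theorem sum_Om (w M : ℕ) :
    ∑ m ∈ Icc 1 M, ((bO (sp w m) : ℝ) - om w m) ≤ M + w := by
  rcases Nat.eq_zero_or_pos w with rfl | hw
  · have h1 : PR 0 = ∅ := by decide
    have h2 : ∀ m ∈ Icc 1 M, ((bO (sp 0 m) : ℝ) - om 0 m) ≤ 0 := by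
      intro m _
      rw [Tu_bO_sp, h1, sum_empty]
      simp
    refine (sum_nonpos h2).trans (by positivity)
  have h1 : ∀ m : ℕ, ((bO (sp w m) : ℝ) - om w m) =
      ∑ p ∈ PR w, ((m.factorization p : ℝ) - (if p ∣ m then (1 : ℝ) else 0)) := by
    intro m
    rw [Tu_bO_sp, Tu_om, sum_sub_distrib]
    push_cast
    rfl
  simp_rw [h1]
  rw [sum_comm]
  have h2 : ∀ p ∈ PR w, ∑ m ∈ Icc 1 M,
      ((m.factorization p : ℝ) - (if p ∣ m then (1 : ℝ) else 0)) ≤
      M * (1 / ((p : ℝ) - 1) - 1 / p) + 1 := by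
    intro p hp
    obtain ⟨-, hpp⟩ := mem_PR.1 hp
    rw [sum_sub_distrib, Tu_mult]
    have h3 := sum_val p M hpp
    have h4 := Tu_le_div M p hpp.pos
    have h5 : (M : ℝ) * (1 / ((p : ℝ) - 1) - 1 / p) = M / ((p : ℝ) - 1) - M / p := by ring
    linarith
  refine (sum_le_sum h2).trans ?_
  rw [sum_add_distrib, ← mul_sum, sum_const, nsmul_eq_mul, mul_one]
  have h6 := Tu_tele w hw
  have h7 := Tu_PR_card w
  have hM : (0 : ℝ) ≤ M := Nat.cast_nonneg M
  have hw' : (0 : ℝ) ≤ 1 / (w : ℝ) := by positivity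
  have h8 : (M : ℝ) * ∑ p ∈ PR w, (1 / ((p : ℝ) - 1) - 1 / p) ≤ M * 1 :=
    mul_le_mul_of_nonneg_left (by linarith) hM
  linarith

theorem om_le_sp (w m : ℕ) (hm : m ≠ 0) : om w m ≤ bO (sp w m) := by
  rw [Tu_bO_sp]
  unfold om
  rw [card_filter]
  refine sum_le_sum fun p hp => ?_
  split_ifs with h
  · exact ((mem_PR.1 hp).2.dvd_iff_one_le_factorization hm).1 h
  · exact Nat.zero_le _

theorem om_le (w m : ℕ) (hm : m ≠ 0) : om w m ≤ bO m := by
  have h1 : (PR w).filter (fun p => p ∣ m) ⊆ m.primeFactorsList.toFinset := by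
    intro p hp
    obtain ⟨hp1, hp2⟩ := mem_filter.1 hp
    rw [List.mem_toFinset, Nat.mem_primeFactorsList hm]
    exact ⟨(mem_PR.1 hp1).2, hp2⟩
  exact (card_le_card h1).trans (List.toFinset_card_le _)

end Pool.Agent.Lib.MP_5d7b92_nt.UA
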