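import Pool.Agent.Lib.MP_5d7b92_nt.UA.Defs
import Pool.Agent.Lib.Sieve.Mertens

/-!
# Va: the mean of log(smooth part)

PROOFS. `sum_val`: ∑_{m ≤ M} v_p(m) = v_p(M!) (`Finset.prod_Icc_id_eq_factorial`, `Nat.factorization_prod`, or induction on M with `Nat.factorization_mul`), and
(p - 1) v_p(M!) = M - digit sum ≤ M (`sub_one_mul_padicValNat_factorial`, `Nat.factorization_def`).
`sum_log_sp`: log (sp w m) = ∑_{p ∈ PR w} v_p(m) log p (`Real.log_prod`), exchange the sums: ≤ M ∑_{p ≤ w} log p/(p-1) =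
M (∑ log p/p + ∑ log p/(p(p-1))) ≤ M (log w + log 4 + C) (`Sieve.sum_log_div_le` n = w; log p ≤ 2 √p, 1/(p(p-1)) ≤ 2/p², the sum of 4 p^(-3/2) is bounded, e.g.
by `Real.summable_nat_rpow_inv` or elementary telescoping).
-/

open Finset Pool.Agent.Lib.GT Pool.Agent.Lib.SW

namespace Pool.Agent.Lib.MP_5d7b92_nt.UA

theorem sum_val (p M : ℕ) (hp : p.Prime) :
    ∑ m ∈ Icc 1 M, (m.factorization p : ℝ) ≤ M / ((p : ℝ) - 1) := by
  haveI : Fact p.Prime := ⟨hp⟩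
  have h1 : ∑ m ∈ Icc 1 M, m.factorization p = (M.factorial).factorization p := by
    induction M with
    | zero => simp
    | succ M ih =>
      rw [sum_Icc_succ_top (by omega), ih, Nat.factorial_succ,
        Nat.factorization_mul (by omega) (Nat.factorial_ne_zero _), Finsupp.coe_add, Pi.add_apply,
        add_comm]
  have h2 : (p - 1) * (M.factorial).factorization p ≤ M := by
    rw [Nat.factorization_def _ hp, sub_one_mul_padicValNat_factorial]
    exact Nat.sub_le _ _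
  have h3 : (2 : ℝ) ≤ p := by exact_mod_cast hp.two_le
  rw [le_div_iff₀ (by linarith)]
  have h4 : ((p - 1 : ℕ) : ℝ) = (p : ℝ) - 1 := by
    rw [Nat.cast_sub hp.one_lt.le]
    simp
  have h5 : ∑ m ∈ Icc 1 M, (m.factorization p : ℝ) = ((M.factorial).factorization p : ℝ) := by
    exact_mod_cast h1
  rw [h5, ← h4, mul_comm]
  exact_mod_cast h2

private theorem log_sp (w m : ℕ) :
    Real.log (sp w m) = ∑ p ∈ PR w, (m.factorization p : ℝ) * Real.log p := by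
  unfold sp
  push_cast
  rw [Real.log_prod]
  · exact sum_congr rfl fun p _ => Real.log_pow _ _
  · intro p hp
    have h1 : (0 : ℝ) < p := by exact_mod_cast (mem_PR.1 hp).2.pos
    exact (pow_pos h1 _).ne'

private theorem log_div_le {p : ℕ} (hp : p.Prime) :
    Real.log p / ((p : ℝ) * ((p : ℝ) - 1)) ≤ 4 * (1 / (p : ℝ) ^ ((3 : ℝ) / 2)) := by
  have h2 : (2 : ℝ) ≤ p := by exact_mod_cast hp.two_le
  have hp0 : (0 : ℝ) < p := by linarith
  have h3 := Real.log_le_rpow_div hp0.le (show (0 : ℝ) < 1 / 2 by norm_num)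
  have h4 : Real.log p ≤ 2 * (p : ℝ) ^ ((1 : ℝ) / 2) := by
    refine h3.trans (le_of_eq ?_)
    ring
  have h5 : (p : ℝ) ^ ((1 : ℝ) / 2) * (p : ℝ) ^ ((3 : ℝ) / 2) = (p : ℝ) ^ 2 := by
    rw [← Real.rpow_add hp0, ← Real.rpow_natCast]
    norm_num
  have h6 : 0 < (p : ℝ) ^ ((3 : ℝ) / 2) := Real.rpow_pos_of_pos hp0 _
  rw [mul_one_div, div_le_div_iff₀ (mul_pos hp0 (by linarith)) h6]
  have h7 : (p : ℝ) ^ 2 ≤ 2 * (p * ((p : ℝ) - 1)) := by nlinarith
  calc Real.log p * (p : ℝ) ^ ((3 : ℝ) / 2) ≤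
        (2 * (p : ℝ) ^ ((1 : ℝ) / 2)) * (p : ℝ) ^ ((3 : ℝ) / 2) :=
        mul_le_mul_of_nonneg_right h4 h6.le
    _ = 2 * (p : ℝ) ^ 2 := by rw [mul_assoc, h5]
    _ ≤ 2 * (2 * (p * ((p : ℝ) - 1))) := by linarith
    _ = 4 * (p * ((p : ℝ) - 1)) := by ring

theorem sum_log_sp : ∃ C₁ : ℝ, 0 < C₁ ∧ ∀ w M : ℕ, 1 ≤ w →
    ∑ m ∈ Icc 1 M, Real.log (sp w m) ≤ M * (Real.log w + C₁) := by
  have hsum : Summable (fun n : ℕ => 4 * (1 / (n : ℝ) ^ ((3 : ℝ) / 2))) :=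
    (Real.summable_one_div_nat_rpow.2 (by norm_num)).mul_left 4
  obtain ⟨T, hT⟩ : ∃ T : ℝ, T = ∑' n : ℕ, 4 * (1 / (n : ℝ) ^ ((3 : ℝ) / 2)) := ⟨_, rfl⟩
  have hT0 : 0 ≤ T := by
    rw [hT]
    exact tsum_nonneg fun n => by positivity
  have hl4 : 0 < Real.log 4 := Real.log_pos (by norm_num)
  refine ⟨Real.log 4 + T, by linarith, fun w M hw => ?_⟩
  have h1 : ∑ m ∈ Icc 1 M, Real.log (sp w m) =
      ∑ p ∈ PR w, (∑ m ∈ Icc 1 M, (m.factorization p : ℝ)) * Real.log p := by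
    rw [sum_congr rfl fun m _ => log_sp w m, sum_comm]
    exact sum_congr rfl fun p _ => (sum_mul _ _ _).symm
  rw [h1]
  have h2 : ∀ p ∈ PR w, (∑ m ∈ Icc 1 M, (m.factorization p : ℝ)) * Real.log p ≤
      M * (Real.log p / p + 4 * (1 / (p : ℝ) ^ ((3 : ℝ) / 2))) := by
    intro p hp
    obtain ⟨-, hpp⟩ := mem_PR.1 hp
    have h3 : (2 : ℝ) ≤ p := by exact_mod_cast hpp.two_le
    have h4 : 0 ≤ Real.log p := Real.log_nonneg (by linarith)
    have h5 := log_div_le hpp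
    calc (∑ m ∈ Icc 1 M, (m.factorization p : ℝ)) * Real.log p ≤
          (M / ((p : ℝ) - 1)) * Real.log p := mul_le_mul_of_nonneg_right (sum_val p M hpp) h4
      _ = M * (Real.log p / p + Real.log p / ((p : ℝ) * ((p : ℝ) - 1))) := by
          have h6 : (p : ℝ) - 1 ≠ 0 := by
            have : (0 : ℝ) < (p : ℝ) - 1 := by linarith
            exact this.ne'
          have h7 : (p : ℝ) ≠ 0 := by
            have : (0 : ℝ) < (p : ℝ) := by linarith
            exact this.ne'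
          field_simp
          ring
      _ ≤ M * (Real.log p / p + 4 * (1 / (p : ℝ) ^ ((3 : ℝ) / 2))) := by
          apply mul_le_mul_of_nonneg_left _ (Nat.cast_nonneg M)
          linarith
  refine (sum_le_sum h2).trans ?_
  rw [← mul_sum, sum_add_distrib]
  apply mul_le_mul_of_nonneg_left _ (Nat.cast_nonneg M)
  have h3 : PR w = (Icc 1 w).filter Nat.Prime := by
    ext p
    rw [mem_PR, mem_filter, mem_Icc]
    constructor
    · rintro ⟨h4, h5⟩
      exact ⟨⟨h5.one_lt.le, h4⟩, h5⟩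
    · rintro ⟨⟨-, h4⟩, h5⟩
      exact ⟨h4, h5⟩
  have h4 : ∑ p ∈ PR w, Real.log p / p ≤ Real.log w + Real.log 4 := by
    rw [h3]
    exact Sieve.sum_log_div_le w hw
  have h5 : ∑ p ∈ PR w, 4 * (1 / (p : ℝ) ^ ((3 : ℝ) / 2)) ≤ T := by
    rw [hT]
    exact hsum.sum_le_tsum (PR w) fun n _ => by positivity
  linarith

end Pool.Agent.Lib.MP_5d7b92_nt.UA
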